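import Pool.Agent.Helper363.Op

/-! The two bumps. -/

set_option autoImplicit false

namespace Pool.Agent.Helper363

open Set

/-- the parabola `9/400 - (x-m)^2`, cut off at zero -/
noncomputable def qp (m x : ℝ) : ℝ := max (9 / 400 - (x - m) ^ 2) 0

/-- the bump centred at `m` -/
noncomputable def bu (m x : ℝ) : ℝ := (qp m x) ^ 2

/-- its derivative -/
noncomputable def bu' (m x : ℝ) : ℝ := -4 * (x - m) * qp m x

lemma qp_nonneg (m x : ℝ) : 0 ≤ qp m x := le_max_right _ _

lemma qp_le (m x : ℝ) : qp m x ≤ 9 / 400 := by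
  unfold qp
  apply max_le
  · nlinarith [sq_nonneg (x - m)]
  · norm_num

lemma qp_zero {m x : ℝ} (h : 3 / 20 ≤ |x - m|) : qp m x = 0 := by
  unfold qp
  apply max_eq_right
  have : (3 / 20 : ℝ) ^ 2 ≤ |x - m| ^ 2 := pow_le_pow_left₀ (by norm_num) h 2
  rw [sq_abs] at this
  linarith

lemma qp_eq {m x : ℝ} (h : |x - m| ≤ 3 / 20) : qp m x = 9 / 400 - (x - m) ^ 2 := by
  unfold qp
  apply max_eq_left
  have : |x - m| ^ 2 ≤ (3 / 20 : ℝ) ^ 2 := pow_le_pow_left₀ (abs_nonneg _) h 2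
  rw [sq_abs] at this
  linarith

/-- the clamped variable -/
noncomputable def clb (m x : ℝ) : ℝ := max (-(3 / 20)) (min (x - m) (3 / 20))

lemma clb_mem (m x : ℝ) : |clb m x| ≤ 3 / 20 := by
  rw [abs_le]
  exact ⟨le_max_left _ _, max_le (by norm_num) (min_le_right _ _)⟩

lemma clb_lip (m x y : ℝ) : |clb m x - clb m y| ≤ |x - y| := by
  unfold clb
  have h1 := abs_max_sub_max_le_abs (min (x - m) (3 / 20)) (min (y - m) (3 / 20)) (-(3 / 20))
  have h2 := abs_min_sub_min_le_max (x - m) (3 / 20) (y - m) (3 / 20)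
  rw [sub_self, abs_zero, max_eq_left (abs_nonneg _), sub_sub_sub_cancel_right] at h2
  rw [max_comm, max_comm (-(3 / 20) : ℝ) (min (y - m) (3 / 20))]
  exact h1.trans h2

lemma bu'_clb (m x : ℝ) : bu' m x = -4 * clb m x * (9 / 400 - (clb m x) ^ 2) := by
  unfold bu'
  rcases le_total |x - m| (3 / 20) with h | h
  · rw [qp_eq h]
    have : clb m x = x - m := by
      unfold clb
      rw [min_eq_left (abs_le.mp h).2, max_eq_right (abs_le.mp h).1]
    rw [this]
  · rw [qp_zero h]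
    have : (clb m x) ^ 2 = 9 / 400 := by
      unfold clb
      rcases le_abs.mp h with h1 | h1
      · rw [min_eq_right h1, max_eq_right (by norm_num)]
        norm_num
      · rw [min_eq_left (by linarith), max_eq_left (by linarith)]
        norm_num
    rw [this]
    ring

lemma bu'_lip (m x y : ℝ) : |bu' m x - bu' m y| ≤ |x - y| := by
  rw [bu'_clb, bu'_clb]
  have h1 := abs_le.mp (clb_mem m x)
  have h2 := abs_le.mp (clb_mem m y)
  have h3 := clb_lip m x y
  set u := clb m x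
  set v := clb m y
  have h4 : -4 * u * (9 / 400 - u ^ 2) - -4 * v * (9 / 400 - v ^ 2) =
      (u - v) * (4 * (u ^ 2 + u * v + v ^ 2) - 9 / 100) := by ring
  have h5 : |4 * (u ^ 2 + u * v + v ^ 2) - 9 / 100| ≤ 1 := by
    rw [abs_le]
    constructor
    · nlinarith [sq_nonneg (u + v), sq_nonneg u, sq_nonneg v]
    · nlinarith [sq_nonneg (u - v), mul_nonneg (by linarith : 0 ≤ 3 / 20 - u) (by linarith : 0 ≤ 3 / 20 + u),
        mul_nonneg (by linarith : 0 ≤ 3 / 20 - v) (by linarith : 0 ≤ 3 / 20 + v)]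
  rw [h4, abs_mul]
  calc |u - v| * |4 * (u ^ 2 + u * v + v ^ 2) - 9 / 100| ≤ |u - v| * 1 :=
        mul_le_mul_of_nonneg_left h5 (abs_nonneg _)
    _ ≤ |x - y| := by rw [mul_one]; exact h3

lemma hasDerivAt_pos_sq (y : ℝ) : HasDerivAt (fun y : ℝ => (max y 0) ^ 2) (2 * max y 0) y := by
  rcases lt_trichotomy y 0 with h | h | h
  · rw [max_eq_right h.le, mul_zero]
    apply (hasDerivAt_const y (0 : ℝ)).congr_of_eventuallyEq
    filter_upwards [eventually_lt_nhds h] with z hz
    rw [max_eq_right hz.le]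
    norm_num
  · subst h
    rw [max_self, mul_zero, hasDerivAt_iff_isLittleO_nhds_zero]
    simp only [zero_add, max_self, smul_zero, sub_zero]
    have h1 : (fun t : ℝ => (max t 0) ^ 2 - 0 ^ 2) =O[nhds 0] fun t : ℝ => t ^ 2 := by
      apply Asymptotics.IsBigO.of_bound 1
      filter_upwards with t
      rw [Real.norm_eq_abs, Real.norm_eq_abs, one_mul, abs_of_nonneg (sq_nonneg t)]
      rcases le_total t 0 with ht | ht
      · rw [max_eq_right ht]
        norm_num
        positivity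
      · rw [max_eq_left ht]
        norm_num
    exact h1.trans_isLittleO (Asymptotics.isLittleO_pow_id one_lt_two)
  · rw [max_eq_left h.le]
    have h1 : HasDerivAt (fun y : ℝ => y ^ 2) (2 * y) y := by
      simpa using hasDerivAt_pow 2 y
    apply h1.congr_of_eventuallyEq
    filter_upwards [eventually_gt_nhds h] with z hz
    rw [max_eq_left hz.le]

lemma bu_deriv (m x : ℝ) : HasDerivAt (bu m) (bu' m x) x := by
  have h1 : HasDerivAt (fun x : ℝ => 9 / 400 - (x - m) ^ 2) (-(2 * (x - m))) x := by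
    have := (((hasDerivAt_id x).sub_const m).pow 2).const_sub (9 / 400)
    simpa using this
  have h2 := (hasDerivAt_pos_sq (9 / 400 - (x - m) ^ 2)).comp x h1
  have h3 : 2 * max (9 / 400 - (x - m) ^ 2) 0 * -(2 * (x - m)) = bu' m x := by
    unfold bu' qp
    ring
  rw [h3] at h2
  exact h2

lemma abs_bu'_le (m x : ℝ) : |bu' m x| ≤ max (3 / 20 - |x - m|) 0 := by
  rcases le_total |x - m| (3 / 20) with h | h
  · rw [max_eq_left (by linarith)]
    unfold bu'
    rw [qp_eq h, abs_mul, abs_mul, ← sq_abs (x - m)]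
    have h1 : 0 ≤ |x - m| := abs_nonneg _
    have h0 : |(-4 : ℝ)| = 4 := by norm_num
    rw [h0, abs_of_nonneg (by nlinarith : 0 ≤ 9 / 400 - |x - m| ^ 2)]
    have h2 : 4 * |x - m| * (9 / 400 - |x - m| ^ 2) =
        (3 / 20 - |x - m|) * (4 * |x - m| * (3 / 20 + |x - m|)) := by ring
    rw [h2]
    have h3 : 4 * |x - m| * (3 / 20 + |x - m|) ≤ 1 := by nlinarith
    nlinarith
  · rw [max_eq_right (by linarith)]
    unfold bu'
    rw [qp_zero h]
    simp

lemma bump_bu {m : ℝ} (h1 : al ≤ m - 3 / 20) (h2 : m + 3 / 20 ≤ be) : Bump (bu m) (bu' m) where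
  d := bu_deriv m
  b := fun x => by
    unfold bu
    rw [abs_of_nonneg (sq_nonneg _)]
    have := qp_le m x
    have := qp_nonneg m x
    nlinarith
  b' := fun x => (abs_bu'_le m x).trans (max_le (by linarith [abs_nonneg (x - m)]) zero_le_one)
  lip' := bu'_lip m
  e1 := fun x hx => by
    apply (abs_bu'_le m x).trans
    apply max_le
    · have := neg_abs_le (x - m)
      linarith
    · linarith [hx.1]
  e2 := fun x hx => by
    apply (abs_bu'_le m x).trans
    apply max_le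
    · have := le_abs_self (x - m)
      linarith
    · linarith [hx.2]

theorem Bump.mix {φ φ' χ χ' : ℝ → ℝ} (h1 : Bump φ φ') (h2 : Bump χ χ') {s : ℝ} (hs0 : 0 ≤ s)
    (hs1 : s ≤ 1) : Bump (fun x => (1 - s) * φ x + s * χ x) (fun x => (1 - s) * φ' x + s * χ' x) := by
  have key : ∀ a b c : ℝ, |a| ≤ c → |b| ≤ c → |(1 - s) * a + s * b| ≤ c := by
    intro a b c ha hb
    rw [abs_le] at *
    constructor
    · nlinarith [mul_le_mul_of_nonneg_left ha.1 (by linarith : 0 ≤ 1 - s),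
        mul_le_mul_of_nonneg_left hb.1 hs0]
    · nlinarith [mul_le_mul_of_nonneg_left ha.2 (by linarith : 0 ≤ 1 - s),
        mul_le_mul_of_nonneg_left hb.2 hs0]
  constructor
  · intro x
    exact ((h1.d x).const_mul (1 - s)).add ((h2.d x).const_mul s)
  · intro x
    exact key _ _ _ (h1.b x) (h2.b x)
  · intro x
    exact key _ _ _ (h1.b' x) (h2.b' x)
  · intro x y
    have := key _ _ _ (h1.lip' x y) (h2.lip' x y)
    have h3 : (1 - s) * φ' x + s * χ' x - ((1 - s) * φ' y + s * χ' y) =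
        (1 - s) * (φ' x - φ' y) + s * (χ' x - χ' y) := by ring
    rw [h3]
    exact this
  · intro x hx
    exact key _ _ _ (h1.e1 x hx) (h2.e1 x hx)
  · intro x hx
    exact key _ _ _ (h1.e2 x hx) (h2.e2 x hx)

/-- the comparison integrand -/
noncomputable def cmp (m r : ℝ) : ℝ := 3 * bu m r ^ 2 - 9 / 100 * bu' m r ^ 2

lemma bu_cont (m : ℝ) : Continuous (bu m) :=
  continuous_iff_continuousAt.2 fun x => (bu_deriv m x).continuousAt

lemma bu'_cont (m : ℝ) : Continuous (bu' m) := by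
  unfold bu' qp
  fun_prop

lemma int_cmp {m : ℝ} (h1 : al ≤ m - 3 / 20) (h2 : m + 3 / 20 ≤ be) :
    ∫ r in al..be, cmp m r ≤ -(1 / 10 ^ 7) := by
  have hc : Continuous (cmp m) := by
    unfold cmp
    have := bu_cont m
    have := bu'_cont m
    fun_prop
  have hi : ∀ a b : ℝ, IntervalIntegrable (cmp m) MeasureTheory.volume a b :=
    fun a b => hc.intervalIntegrable a b
  have hz : ∀ r : ℝ, 3 / 20 ≤ |r - m| → cmp m r = 0 := by
    intro r hr
    unfold cmp bu bu'
    rw [qp_zero hr]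
    ring
  have e1 : ∫ r in al..(m - 3 / 20), cmp m r = 0 := by
    rw [intervalIntegral.integral_congr (g := fun _ => 0), intervalIntegral.integral_zero]
    intro r hr
    rw [uIcc_of_le h1] at hr
    apply hz
    rw [abs_of_nonpos (by linarith [hr.2])]
    linarith [hr.2]
  have e3 : ∫ r in (m + 3 / 20)..be, cmp m r = 0 := by
    rw [intervalIntegral.integral_congr (g := fun _ => 0), intervalIntegral.integral_zero]
    intro r hr
    rw [uIcc_of_le h2] at hr
    apply hz
    rw [abs_of_nonneg (by linarith [hr.1])]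
    linarith [hr.1]
  have e2 : ∫ r in (m - 3 / 20)..(m + 3 / 20), cmp m r =
      ∫ u in (-(3 / 20) : ℝ)..(3 / 20), (3 * (9 / 400 - u ^ 2) ^ 4 -
        9 / 100 * (-4 * u * (9 / 400 - u ^ 2)) ^ 2) := by
    have h3 := intervalIntegral.integral_comp_sub_right (a := m - 3 / 20) (b := m + 3 / 20)
      (fun u => 3 * (9 / 400 - u ^ 2) ^ 4 - 9 / 100 * (-4 * u * (9 / 400 - u ^ 2)) ^ 2) m
    rw [show m - 3 / 20 - m = -(3 / 20) by ring, show m + 3 / 20 - m = 3 / 20 by ring] at h3
    rw [← h3]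
    apply intervalIntegral.integral_congr
    intro r hr
    rw [uIcc_of_le (by linarith)] at hr
    have h4 : |r - m| ≤ 3 / 20 := by
      rw [abs_le]
      constructor
      · linarith [hr.1]
      · linarith [hr.2]
    simp only
    unfold cmp bu bu'
    rw [qp_eq h4]
    ring
  have e4 : ∫ u in (-(3 / 20) : ℝ)..(3 / 20), (3 * (9 / 400 - u ^ 2) ^ 4 -
        9 / 100 * (-4 * u * (9 / 400 - u ^ 2)) ^ 2) ≤ -(1 / 10 ^ 7) := by
    have hd : ∀ u : ℝ, HasDerivAt (fun u : ℝ =>
        3 * ((9 / 400) ^ 4 * u - 4 / 3 * (9 / 400) ^ 3 * u ^ 3 + 6 / 5 * (9 / 400) ^ 2 * u ^ 5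
          - 4 / 7 * (9 / 400) * u ^ 7 + 1 / 9 * u ^ 9) -
        144 / 100 * ((9 / 400) ^ 2 / 3 * u ^ 3 - 2 / 5 * (9 / 400) * u ^ 5 + 1 / 7 * u ^ 7))
        (3 * (9 / 400 - u ^ 2) ^ 4 - 9 / 100 * (-4 * u * (9 / 400 - u ^ 2)) ^ 2) u := by
      intro u
      have p1 := hasDerivAt_id u
      have p3 := hasDerivAt_pow 3 u
      have p5 := hasDerivAt_pow 5 u
      have p7 := hasDerivAt_pow 7 u
      have p9 := hasDerivAt_pow 9 u
      have := ((((((p1.const_mul ((9 / 400 : ℝ) ^ 4)).sub (p3.const_mul (4 / 3 * (9 / 400 : ℝ) ^ 3))).add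
        (p5.const_mul (6 / 5 * (9 / 400 : ℝ) ^ 2))).sub (p7.const_mul (4 / 7 * (9 / 400 : ℝ)))).add
        (p9.const_mul (1 / 9 : ℝ))).const_mul 3).sub
        ((((p3.const_mul ((9 / 400 : ℝ) ^ 2 / 3)).sub (p5.const_mul (2 / 5 * (9 / 400 : ℝ)))).add
        (p7.const_mul (1 / 7 : ℝ))).const_mul (144 / 100))
      refine this.congr_deriv ?_
      simp only [Nat.cast_ofNat]
      norm_num
      ring
    rw [intervalIntegral.integral_eq_sub_of_hasDerivAt (fun u _ => hd u)
      (by apply Continuous.intervalIntegrable; fun_prop)]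
    norm_num
  rw [← intervalIntegral.integral_add_adjacent_intervals (hi al (m + 3 / 20)) (hi _ be),
    ← intervalIntegral.integral_add_adjacent_intervals (hi al (m - 3 / 20)) (hi _ _), e1, e3, e2]
  linarith

/-- the weight -/
noncomputable def wsn (r : ℝ) : ℝ := Real.sin r * Real.sin (3 * r)

lemma wsn_le_one (r : ℝ) : |wsn r| ≤ 1 := by
  unfold wsn
  rw [abs_mul]
  calc |Real.sin r| * |Real.sin (3 * r)| ≤ 1 * 1 :=
        mul_le_mul (Real.abs_sin_le_one _) (Real.abs_sin_le_one _) (abs_nonneg _) zero_le_one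
    _ = 1 := one_mul 1

lemma wsn_ge {r : ℝ} (h1 : 1 / 5 ≤ r) (h2 : r ≤ 1 / 2) : 6 / 100 ≤ wsn r := by
  have hpi := Real.pi_gt_three
  have a1 : 19 / 100 ≤ Real.sin r := by
    have h3 : Real.sin (1 / 5) ≤ Real.sin r :=
      Real.sin_le_sin_of_le_of_le_pi_div_two (by linarith) (by linarith) h1
    have h4 := Real.sin_gt_sub_cube (x := 1 / 5) (by norm_num)
    norm_num at h4 h3 ⊢
    linarith
  have a2 : 54 / 100 ≤ Real.sin (3 * r) := by
    have h3 : Real.sin (3 / 5) ≤ Real.sin (3 * r) :=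
      Real.sin_le_sin_of_le_of_le_pi_div_two (by linarith) (by linarith) (by linarith)
    have h4 := Real.sin_gt_sub_cube (x := 3 / 5) (by norm_num)
    norm_num at h4 h3 ⊢
    linarith
  unfold wsn
  nlinarith

lemma wsn_le_neg {r : ℝ} (h1 : Real.pi / 2 - 1 / 2 ≤ r) (h2 : r ≤ Real.pi / 2 - 1 / 5) :
    wsn r ≤ -(6 / 100) := by
  have hpi := Real.pi_gt_d2
  have hpi2 := Real.pi_lt_d2
  set t : ℝ := Real.pi / 2 - r with ht
  have ht1 : 1 / 5 ≤ t := by linarith
  have ht2 : t ≤ 1 / 2 := by linarith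
  have hr : r = Real.pi / 2 - t := by linarith
  have b1 : Real.sin r = Real.cos t := by rw [hr, Real.sin_pi_div_two_sub]
  have b2 : Real.sin (3 * r) = -Real.cos (3 * t) := by
    rw [hr, show 3 * (Real.pi / 2 - t) = (Real.pi / 2 - 3 * t) + Real.pi by ring, Real.sin_add_pi,
      Real.sin_pi_div_two_sub]
  have a1 : 87 / 100 ≤ Real.cos t := by
    have := Real.one_sub_sq_div_two_le_cos (x := t)
    nlinarith
  have a2 : 69 / 1000 ≤ Real.cos (3 * t) := by
    have h3 : Real.cos (3 / 2) ≤ Real.cos (3 * t) :=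
      Real.cos_le_cos_of_nonneg_of_le_pi (by linarith) (by linarith) (by linarith)
    have h4 : Real.cos (3 / 2) = Real.sin (Real.pi / 2 - 3 / 2) := by
      rw [Real.sin_pi_div_two_sub]
    have h5 := Real.sin_gt_sub_cube (x := Real.pi / 2 - 3 / 2) (by linarith)
    have h6 : 69 / 1000 ≤ (Real.pi / 2 - 3 / 2) - (Real.pi / 2 - 3 / 2) ^ 3 / 6 := by
      have h7 : (7 : ℝ) / 100 ≤ Real.pi / 2 - 3 / 2 := by linarith
      have h8 : Real.pi / 2 - 3 / 2 ≤ 8 / 100 := by linarith
      have h9 : (Real.pi / 2 - 3 / 2) ^ 3 ≤ (8 / 100) ^ 3 :=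
        pow_le_pow_left₀ (by linarith) h8 3
      norm_num at h9 ⊢
      linarith
    linarith
  unfold wsn
  rw [b1, b2]
  nlinarith

theorem bumps : ∃ φN φN' φQ φQ' : ℝ → ℝ, Bump φN φN' ∧ Bump φQ φQ' ∧
    (∀ r ∈ J, Real.pi / 3 < r → φN r = 0 ∧ φN' r = 0) ∧
    (∀ r ∈ J, r < Real.pi / 3 → φQ r = 0 ∧ φQ' r = 0) ∧
    (∫ r in al..be, (3 * φN r ^ 2 - 3 / 2 * φN' r ^ 2) * (Real.sin r * Real.sin (3 * r))) ≤
      -(1 / 10 ^ 7) ∧
    1 / 10 ^ 7 ≤ (∫ r in al..be, (3 * φQ r ^ 2 - 3 / 2 * φQ' r ^ 2) *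
      (Real.sin r * Real.sin (3 * r))) ∧
    φN al = 0 ∧ φN be = 0 ∧ φQ al = 0 ∧ φQ be = 0 ∧ 0 < φN (7 / 20) ∧
    0 < φQ (Real.pi / 2 - 7 / 20) ∧ Continuous φN' ∧ Continuous φQ' := by
  have hpi := Real.pi_gt_d2
  have hpi2 := Real.pi_lt_d2
  have hal : al ≤ be := by unfold al be; linarith
  set mN : ℝ := 7 / 20 with hmN
  set mQ : ℝ := Real.pi / 2 - 7 / 20 with hmQ
  have hN1 : al ≤ mN - 3 / 20 := by unfold al; rw [hmN]; norm_num
  have hN2 : mN + 3 / 20 ≤ be := by unfold be; rw [hmN]; linarith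
  have hQ1 : al ≤ mQ - 3 / 20 := by unfold al; rw [hmQ]; linarith
  have hQ2 : mQ + 3 / 20 ≤ be := by unfold be; rw [hmQ]; linarith
  have hcF : ∀ m : ℝ, Continuous (fun r => (3 * bu m r ^ 2 - 3 / 2 * bu' m r ^ 2) *
      (Real.sin r * Real.sin (3 * r))) := by
    intro m
    have := bu_cont m
    have := bu'_cont m
    fun_prop
  have hcC : ∀ m : ℝ, Continuous (cmp m) := by
    intro m
    unfold cmp
    have := bu_cont m
    have := bu'_cont m
    fun_prop
  have hz : ∀ {m x : ℝ}, 3 / 20 ≤ |x - m| → bu m x = 0 := by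
    intro m x hx
    unfold bu
    rw [qp_zero hx]
    simp
  have hz1 : ∀ {m : ℝ}, al ≤ m - 3 / 20 → bu m al = 0 := by
    intro m hx
    apply hz
    rw [abs_of_nonpos (by linarith)]
    linarith
  have hz2 : ∀ {m : ℝ}, m + 3 / 20 ≤ be → bu m be = 0 := by
    intro m hx
    apply hz
    rw [abs_of_nonneg (by linarith)]
    linarith
  refine ⟨bu mN, bu' mN, bu mQ, bu' mQ, bump_bu hN1 hN2, bump_bu hQ1 hQ2, ?_, ?_, ?_, ?_,
    ?_, ?_, ?_, ?_, ?_, ?_, bu'_cont _, bu'_cont _⟩
  · intro r _ hr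
    have : qp mN r = 0 := by
      apply qp_zero
      rw [abs_of_nonneg (by rw [hmN]; linarith)]
      rw [hmN]
      linarith
    unfold bu bu'
    rw [this]
    simp
  · intro r _ hr
    have : qp mQ r = 0 := by
      apply qp_zero
      rw [abs_of_nonpos (by rw [hmQ]; linarith)]
      rw [hmQ]
      linarith
    unfold bu bu'
    rw [this]
    simp
  · refine le_trans ?_ (int_cmp hN1 hN2)
    apply intervalIntegral.integral_mono_on hal ((hcF mN).intervalIntegrable _ _)
      ((hcC mN).intervalIntegrable _ _)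
    intro r hr
    have hw1 := abs_le.mp (wsn_le_one r)
    rcases le_total (3 / 20) |r - mN| with h | h
    · unfold cmp bu bu'
      rw [qp_zero h]
      simp
    · have h3 := abs_le.mp h
      have hw := wsn_ge (r := r) (by rw [hmN] at h3; linarith) (by rw [hmN] at h3; linarith)
      unfold cmp
      show _ * wsn r ≤ _
      nlinarith [sq_nonneg (bu mN r), sq_nonneg (bu' mN r),
        mul_nonneg (sq_nonneg (bu mN r)) (by linarith : 0 ≤ 1 - wsn r),
        mul_nonneg (sq_nonneg (bu' mN r)) (by linarith : 0 ≤ wsn r - 6 / 100)]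
  · have h4 : 1 / 10 ^ 7 ≤ ∫ r in al..be, -cmp mQ r := by
      rw [intervalIntegral.integral_neg]
      have := int_cmp hQ1 hQ2
      linarith
    refine h4.trans ?_
    apply intervalIntegral.integral_mono_on hal ((hcC mQ).neg.intervalIntegrable _ _)
      ((hcF mQ).intervalIntegrable _ _)
    intro r hr
    show -cmp mQ r ≤ _
    have hw1 := abs_le.mp (wsn_le_one r)
    rcases le_total (3 / 20) |r - mQ| with h | h
    · unfold cmp bu bu'
      rw [qp_zero h]
      simp
    · have h3 := abs_le.mp h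
      have hw := wsn_le_neg (r := r) (by rw [hmQ] at h3; linarith) (by rw [hmQ] at h3; linarith)
      unfold cmp
      show _ ≤ _ * wsn r
      nlinarith [sq_nonneg (bu mQ r), sq_nonneg (bu' mQ r),
        mul_nonneg (sq_nonneg (bu mQ r)) (by linarith : 0 ≤ 1 + wsn r),
        mul_nonneg (sq_nonneg (bu' mQ r)) (by linarith : 0 ≤ -(wsn r) - 6 / 100)]
  · exact hz1 hN1
  · exact hz2 hN2
  · exact hz1 hQ1
  · exact hz2 hQ2
  · unfold bu
    rw [qp_eq (by rw [hmN]; norm_num), hmN]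
    norm_num
  · unfold bu
    rw [qp_eq (by rw [hmQ]; norm_num), hmQ]
    norm_num

end Pool.Agent.Helper363

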