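import Pool.Agent.Helper363.Gam

/-! Estimates for the one-step operator. -/

set_option autoImplicit false

namespace Pool.Agent.Helper363

open Set

/-! ### clamp and weight -/

noncomputable def cl (x : ℝ) : ℝ := max al (min x be)

lemma cl_mem (x : ℝ) : cl x ∈ J := by
  unfold cl
  exact ⟨le_max_left _ _, max_le al_lt_be.le (min_le_right _ _)⟩

lemma cl_of_mem {x : ℝ} (hx : x ∈ J) : cl x = x := by
  unfold cl
  rw [min_eq_left hx.2, max_eq_right hx.1]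

lemma cl_cont : Continuous cl := by
  unfold cl
  fun_prop

noncomputable def wt (x : ℝ) : ℝ := Real.exp (10 * (min x (Real.pi / 2 - x) - 1 / 5))

lemma wt_pos (x : ℝ) : 0 < wt x := Real.exp_pos _

lemma wt_cont : Continuous wt := by
  unfold wt
  fun_prop

lemma wt_refl (x : ℝ) : wt (Real.pi / 2 - x) = wt x := by
  unfold wt
  rw [show Real.pi / 2 - (Real.pi / 2 - x) = x by ring, min_comm]

lemma one_le_wt {x : ℝ} (hx : x ∈ J) : 1 ≤ wt x := by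
  unfold wt
  have h1 := hx.1
  have h2 := hx.2
  unfold al at h1
  unfold be at h2
  have : 1 / 5 ≤ min x (Real.pi / 2 - x) := le_min h1 (by linarith)
  apply Real.one_le_exp
  linarith

lemma wt_le (x : ℝ) : wt x ≤ 729 := by
  unfold wt
  have h1 : min x (Real.pi / 2 - x) ≤ Real.pi / 4 := by
    rcases le_total x (Real.pi / 4) with h | h
    · exact (min_le_left _ _).trans h
    · exact (min_le_right _ _).trans (by linarith)
  have h2 := pi_lt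
  calc Real.exp (10 * (min x (Real.pi / 2 - x) - 1 / 5)) ≤ Real.exp 6 := by
        apply Real.exp_le_exp.2
        linarith
    _ = (Real.exp 1) ^ 6 := by rw [← Real.exp_nat_mul]; norm_num
    _ ≤ 3 ^ 6 := by
        apply pow_le_pow_left₀ (Real.exp_pos _).le
        linarith [Real.exp_one_lt_d9]
    _ = 729 := by norm_num

lemma min_lip (x y : ℝ) : |min x (Real.pi / 2 - x) - min y (Real.pi / 2 - y)| ≤ |x - y| := by
  have h := abs_min_sub_min_le_max x (Real.pi / 2 - x) y (Real.pi / 2 - y)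
  refine h.trans (max_le le_rfl ?_)
  rw [show Real.pi / 2 - x - (Real.pi / 2 - y) = -(x - y) by ring, abs_neg]

/-- comparison of nearby weights -/
lemma wt_near {x y : ℝ} (h : |x - y| ≤ s0) : wt x ≤ 1.001 * wt y := by
  have h1 := min_lip x y
  have h2 := s0_le
  have h3 : min x (Real.pi / 2 - x) ≤ min y (Real.pi / 2 - y) + 1 / 10 ^ 6 := by
    have := (abs_le.1 h1).2
    linarith
  unfold wt
  calc Real.exp (10 * (min x (Real.pi / 2 - x) - 1 / 5))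
      ≤ Real.exp (1 / 10 ^ 5 + 10 * (min y (Real.pi / 2 - y) - 1 / 5)) := by
        apply Real.exp_le_exp.2
        linarith
    _ = Real.exp (1 / 10 ^ 5) * Real.exp (10 * (min y (Real.pi / 2 - y) - 1 / 5)) :=
        Real.exp_add _ _
    _ ≤ 1.001 * Real.exp (10 * (min y (Real.pi / 2 - y) - 1 / 5)) := by
        apply mul_le_mul_of_nonneg_right _ (Real.exp_pos _).le
        have h4 : Real.exp (1 / 10 ^ 5) * Real.exp (-(1 / 10 ^ 5)) = 1 := by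
          rw [← Real.exp_add]; simp
        have h5 := Real.add_one_le_exp (-(1 / 10 ^ 5 : ℝ))
        have h6 := Real.exp_pos (1 / 10 ^ 5 : ℝ)
        nlinarith

/-! ### the function `p = 1 / h` -/

/-- `1 + E` -/
noncomputable def hE (y : ℝ → ℝ) (θ : ℝ) : ℝ := Real.sin θ / (Real.sin θ + y θ)

noncomputable def pp (ψ y : ℝ → ℝ) (θ : ℝ) : ℝ := 1 / (hE y θ + ψ θ)

lemma den_ge {y : ℝ → ℝ} {θ : ℝ} (hθ : θ ∈ J) (hy : |y θ| ≤ del) : 0.197 < Real.sin θ + y θ := by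
  have h1 := sin_ge hθ
  have h2 := abs_le.1 hy
  have h3 := del_le
  linarith

lemma hE_sub {y : ℝ → ℝ} {θ : ℝ} (hθ : θ ∈ J) (hy : |y θ| ≤ del) :
    hE y θ - 1 = - y θ / (Real.sin θ + y θ) := by
  have h := den_ge hθ hy
  unfold hE
  field_simp
  ring

lemma hE_bound {y : ℝ → ℝ} {θ : ℝ} (hθ : θ ∈ J) (hy : |y θ| ≤ del) :
    |hE y θ - 1| ≤ 5.1 * del := by
  have h := den_ge hθ hy
  rw [hE_sub hθ hy, abs_div, abs_neg, abs_of_pos (by linarith : 0 < Real.sin θ + y θ),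
    div_le_iff₀ (by linarith)]
  have := del_pos
  nlinarith

lemma hEψ_bound {ψ y : ℝ → ℝ} {θ : ℝ} (hθ : θ ∈ J) (hy : |y θ| ≤ del) (hψ : |ψ θ| ≤ del) :
    |hE y θ + ψ θ - 1| ≤ 6.1 * del := by
  have h := hE_bound hθ hy
  calc |hE y θ + ψ θ - 1| = |(hE y θ - 1) + ψ θ| := by ring_nf
    _ ≤ |hE y θ - 1| + |ψ θ| := abs_add_le _ _
    _ ≤ _ := by linarith

lemma hEψ_pos {ψ y : ℝ → ℝ} {θ : ℝ} (hθ : θ ∈ J) (hy : |y θ| ≤ del) (hψ : |ψ θ| ≤ del) :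
    0.99 < hE y θ + ψ θ := by
  have h := abs_le.1 (hEψ_bound hθ hy hψ)
  have := del_le
  linarith

lemma pp_bound {ψ y : ℝ → ℝ} {θ : ℝ} (hθ : θ ∈ J) (hy : |y θ| ≤ del) (hψ : |ψ θ| ≤ del) :
    |pp ψ y θ - 1| ≤ 7 * del := by
  have h := hEψ_bound hθ hy hψ
  have hp := hEψ_pos hθ hy hψ
  unfold pp
  set q := hE y θ + ψ θ
  have : 1 / q - 1 = -(q - 1) / q := by field_simp; ring
  rw [this, abs_div, abs_neg, abs_of_pos (by linarith : 0 < q), div_le_iff₀ (by linarith)]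
  have hd := del_pos
  nlinarith

lemma pp_le {ψ y : ℝ → ℝ} {θ : ℝ} (hθ : θ ∈ J) (hy : |y θ| ≤ del) (hψ : |ψ θ| ≤ del) :
    0.999 < pp ψ y θ ∧ pp ψ y θ < 1.0001 := by
  have h := abs_le.1 (pp_bound hθ hy hψ)
  have := del_le
  constructor <;> linarith

lemma hE_cont {y : ℝ → ℝ} (hc : Continuous y) (hy : ∀ θ ∈ J, |y θ| ≤ del) :
    ContinuousOn (hE y) J := by
  unfold hE
  apply ContinuousOn.div
  · fun_prop
  · fun_prop
  · intro θ hθ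
    have := den_ge hθ (hy θ hθ)
    linarith

lemma pp_cont {ψ y : ℝ → ℝ} (hc : Continuous y) (hψc : Continuous ψ)
    (hy : ∀ θ ∈ J, |y θ| ≤ del) (hψ : ∀ θ ∈ J, |ψ θ| ≤ del) :
    ContinuousOn (pp ψ y) J := by
  unfold pp
  apply ContinuousOn.div continuousOn_const
  · exact (hE_cont hc hy).add hψc.continuousOn
  · intro θ hθ
    have := hEψ_pos hθ (hy θ hθ) (hψ θ hθ)
    linarith

lemma pp_diff {ψ y1 y2 : ℝ → ℝ} {θ : ℝ} (hθ : θ ∈ J) (hy1 : |y1 θ| ≤ del) (hy2 : |y2 θ| ≤ del)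
    (hψ : |ψ θ| ≤ del) : |pp ψ y1 θ - pp ψ y2 θ| * Real.sin θ ≤ 1.01 * |y1 θ - y2 θ| := by
  have hp1 := pp_le hθ hy1 hψ
  have hp2 := pp_le hθ hy2 hψ
  have hd1 := den_ge hθ hy1
  have hd2 := den_ge hθ hy2
  have hq1 := hEψ_pos hθ hy1 hψ
  have hq2 := hEψ_pos hθ hy2 hψ
  have hs := sin_ge hθ
  have h1 : pp ψ y1 θ - pp ψ y2 θ = (pp ψ y1 θ * pp ψ y2 θ) * (hE y2 θ - hE y1 θ) := by
    unfold pp
    have : hE y1 θ + ψ θ ≠ 0 := by linarith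
    have : hE y2 θ + ψ θ ≠ 0 := by linarith
    field_simp
    ring
  have h2 : (hE y2 θ - hE y1 θ) * Real.sin θ = (hE y1 θ * hE y2 θ) * (y1 θ - y2 θ) := by
    unfold hE
    have : Real.sin θ + y1 θ ≠ 0 := by linarith
    have : Real.sin θ + y2 θ ≠ 0 := by linarith
    field_simp
    ring
  have he1 := abs_le.1 (hE_bound hθ hy1)
  have he2 := abs_le.1 (hE_bound hθ hy2)
  have hdl := del_le
  calc |pp ψ y1 θ - pp ψ y2 θ| * Real.sin θ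
      = |(pp ψ y1 θ - pp ψ y2 θ) * Real.sin θ| := by
        rw [abs_mul, abs_of_pos (by linarith : 0 < Real.sin θ)]
    _ = |(pp ψ y1 θ * pp ψ y2 θ) * (hE y1 θ * hE y2 θ)| * |y1 θ - y2 θ| := by
        rw [h1, mul_assoc, h2, ← mul_assoc, abs_mul]
    _ ≤ 1.01 * |y1 θ - y2 θ| := by
        apply mul_le_mul_of_nonneg_right _ (abs_nonneg _)
        have hA : pp ψ y1 θ * pp ψ y2 θ ≤ 1.001 := by nlinarith
        have hA0 : 0 ≤ pp ψ y1 θ * pp ψ y2 θ := mul_nonneg (by linarith) (by linarith)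
        have hB : hE y1 θ * hE y2 θ ≤ 1.001 := by nlinarith
        have hB0 : 0 ≤ hE y1 θ * hE y2 θ := mul_nonneg (by linarith) (by linarith)
        rw [abs_of_nonneg (mul_nonneg hA0 hB0)]
        nlinarith

lemma pp_diffψ {ψ1 ψ2 y : ℝ → ℝ} {θ : ℝ} (hθ : θ ∈ J) (hy : |y θ| ≤ del)
    (hψ1 : |ψ1 θ| ≤ del) (hψ2 : |ψ2 θ| ≤ del) :
    |pp ψ1 y θ - pp ψ2 y θ| ≤ 1.01 * |ψ1 θ - ψ2 θ| := by
  have hp1 := pp_le hθ hy hψ1
  have hp2 := pp_le hθ hy hψ2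
  have hq1 := hEψ_pos hθ hy hψ1
  have hq2 := hEψ_pos hθ hy hψ2
  have h1 : pp ψ1 y θ - pp ψ2 y θ = (pp ψ1 y θ * pp ψ2 y θ) * (ψ2 θ - ψ1 θ) := by
    unfold pp
    have : hE y θ + ψ1 θ ≠ 0 := by linarith
    have : hE y θ + ψ2 θ ≠ 0 := by linarith
    field_simp
    ring
  rw [h1, abs_mul, abs_sub_comm (ψ2 θ)]
  apply mul_le_mul_of_nonneg_right _ (abs_nonneg _)
  have hA : pp ψ1 y θ * pp ψ2 y θ ≤ 1.001 := by nlinarith
  have hA0 : 0 ≤ pp ψ1 y θ * pp ψ2 y θ := mul_nonneg (by linarith) (by linarith)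
  rw [abs_of_nonneg hA0]
  linarith

/-! ### the cube -/

lemma cube_diff {x y : ℝ} (hx : |x - 1| ≤ 7 * del) (hy : |y - 1| ≤ 7 * del) :
    |x⁻¹ ^ 3 - y⁻¹ ^ 3| ≤ 3.01 * |x - y| := by
  have hd := del_le
  have hx1 := abs_le.1 hx
  have hy1 := abs_le.1 hy
  have hx0 : 0 < x := by linarith
  have hy0 : 0 < y := by linarith
  have h1 : x⁻¹ ^ 3 - y⁻¹ ^ 3 = ((x ^ 2 + x * y + y ^ 2) / (x ^ 3 * y ^ 3)) * (y - x) := by
    field_simp
    ring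
  rw [h1, abs_mul, abs_sub_comm y x]
  apply mul_le_mul_of_nonneg_right _ (abs_nonneg _)
  rw [abs_of_nonneg (by positivity), div_le_iff₀ (by positivity)]
  have hxu : x ≤ 1.0001 := by linarith
  have hyu : y ≤ 1.0001 := by linarith
  have hxl : 0.9999 ≤ x := by linarith
  have hyl : 0.9999 ≤ y := by linarith
  have h2 : x ^ 2 + x * y + y ^ 2 ≤ 1.0001 ^ 2 + 1.0001 * 1.0001 + 1.0001 ^ 2 := by gcongr
  have h3 : (0.9999 : ℝ) ^ 3 * 0.9999 ^ 3 ≤ x ^ 3 * y ^ 3 := by gcongr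
  norm_num at h2 h3 ⊢
  linarith

/-- the averaged quantity -/
noncomputable def gg (ψ y : ℝ → ℝ) (r : ℝ) : ℝ :=
  ((gam (pp ψ y) r)⁻¹ ^ 3 + (gam (pp (fun x => - ψ x) y) r)⁻¹ ^ 3) / 2 - 1

/-- admissible data -/
structure Adm (ψ y : ℝ → ℝ) : Prop where
  hy : Continuous y
  hψ : Continuous ψ
  by' : ∀ θ ∈ J, |y θ| ≤ del
  bψ : ∀ θ ∈ J, |ψ θ| ≤ del

lemma Adm.neg {ψ y : ℝ → ℝ} (h : Adm ψ y) : Adm (fun x => - ψ x) y :=
  ⟨h.hy, h.hψ.neg, h.by', fun θ hθ => by rw [abs_neg]; exact h.bψ θ hθ⟩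

lemma Adm.cont {ψ y : ℝ → ℝ} (h : Adm ψ y) : ContinuousOn (pp ψ y) J :=
  pp_cont h.hy h.hψ h.by' h.bψ

lemma Adm.bd {ψ y : ℝ → ℝ} (h : Adm ψ y) : ∀ θ ∈ J, |pp ψ y θ - 1| ≤ 7 * del :=
  fun θ hθ => pp_bound hθ (h.by' θ hθ) (h.bψ θ hθ)

lemma Adm.gam_near {ψ y : ℝ → ℝ} (h : Adm ψ y) {r : ℝ} (hr : r ∈ J) :
    |gam (pp ψ y) r - 1| ≤ 7 * del := by
  have h1 := gam_le h.cont h.bd r
  have h2 := gam_ge' h.cont h.bd hr
  rw [abs_le]
  constructor <;> linarith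

lemma gam_diff_y {ψ y1 y2 : ℝ → ℝ} (h1 : Adm ψ y1) (h2 : Adm ψ y2) {R : ℝ}
    (hR : ∀ θ ∈ J, |y1 θ - y2 θ| ≤ R * wt θ) {r : ℝ} (hr : r ∈ J) :
    |gam (pp ψ y1) r - gam (pp ψ y2) r| * Real.sin r ≤ 1.1 * R * wt r := by
  obtain ⟨θ, hθ, hs, h⟩ := gam_lip h1.cont h2.cont h1.bd h2.bd hr
  have h3 := pp_diff hθ (h1.by' θ hθ) (h2.by' θ hθ) (h1.bψ θ hθ)
  have h4 := hR θ hθ
  have h5 := wt_near hs
  have hR0 : 0 ≤ R := by
    have := (abs_nonneg _).trans h4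
    by_contra hcon
    push Not at hcon
    have := mul_neg_of_neg_of_pos hcon (wt_pos θ)
    linarith
  have hsin : Real.sin r ≤ 1.001 * Real.sin θ := by
    have h6 : |Real.sin r - Real.sin θ| ≤ |r - θ| := Real.abs_sin_sub_sin_le r θ
    rw [abs_sub_comm r θ] at h6
    have h7 := (abs_le.1 (h6.trans hs)).2
    have h8 := sin_ge hθ
    have h9 := s0_le
    linarith
  have hsr := sin_ge hr
  have hsθ := sin_ge hθ
  calc |gam (pp ψ y1) r - gam (pp ψ y2) r| * Real.sin r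
      ≤ |pp ψ y1 θ - pp ψ y2 θ| * (1.001 * Real.sin θ) :=
        mul_le_mul h hsin (by linarith) (abs_nonneg _)
    _ = 1.001 * (|pp ψ y1 θ - pp ψ y2 θ| * Real.sin θ) := by ring
    _ ≤ 1.001 * (1.01 * |y1 θ - y2 θ|) := by gcongr
    _ ≤ 1.001 * (1.01 * (R * wt θ)) := by gcongr
    _ ≤ 1.001 * (1.01 * (R * (1.001 * wt r))) := by gcongr
    _ ≤ 1.1 * R * wt r := by
        have := mul_nonneg hR0 (wt_pos r).le
        nlinarith

lemma gg_diff {ψ y1 y2 : ℝ → ℝ} (h1 : Adm ψ y1) (h2 : Adm ψ y2) {R : ℝ}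
    (hR : ∀ θ ∈ J, |y1 θ - y2 θ| ≤ R * wt θ) {r : ℝ} (hr : r ∈ J) :
    |gg ψ y1 r - gg ψ y2 r| * Real.sin r ≤ 4 * R * wt r := by
  have a1 := gam_diff_y h1 h2 hR hr
  have a2 := gam_diff_y h1.neg h2.neg hR hr
  have b1 := cube_diff (h1.gam_near hr) (h2.gam_near hr)
  have b2 := cube_diff (h1.neg.gam_near hr) (h2.neg.gam_near hr)
  have hs := sin_ge hr
  have hR0 : 0 ≤ R * wt r := by
    have := mul_nonneg (abs_nonneg (gam (pp ψ y1) r - gam (pp ψ y2) r)) (by linarith : 0 ≤ Real.sin r)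
    linarith
  have e : gg ψ y1 r - gg ψ y2 r = (((gam (pp ψ y1) r)⁻¹ ^ 3 - (gam (pp ψ y2) r)⁻¹ ^ 3) +
      ((gam (pp (fun x => - ψ x) y1) r)⁻¹ ^ 3 - (gam (pp (fun x => - ψ x) y2) r)⁻¹ ^ 3)) / 2 := by
    unfold gg
    ring
  rw [e, abs_div, abs_two]
  have c1 := abs_add_le ((gam (pp ψ y1) r)⁻¹ ^ 3 - (gam (pp ψ y2) r)⁻¹ ^ 3)
      ((gam (pp (fun x => - ψ x) y1) r)⁻¹ ^ 3 - (gam (pp (fun x => - ψ x) y2) r)⁻¹ ^ 3)
  set X1 := |gam (pp ψ y1) r - gam (pp ψ y2) r|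
  set X2 := |gam (pp (fun x => - ψ x) y1) r - gam (pp (fun x => - ψ x) y2) r|
  calc |((gam (pp ψ y1) r)⁻¹ ^ 3 - (gam (pp ψ y2) r)⁻¹ ^ 3) +
      ((gam (pp (fun x => - ψ x) y1) r)⁻¹ ^ 3 - (gam (pp (fun x => - ψ x) y2) r)⁻¹ ^ 3)| / 2
        * Real.sin r
      ≤ (3.01 * X1 + 3.01 * X2) / 2 * Real.sin r := by
        apply mul_le_mul_of_nonneg_right _ (by linarith)
        linarith
    _ = 3.01 / 2 * (X1 * Real.sin r + X2 * Real.sin r) := by ring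
    _ ≤ 3.01 / 2 * (1.1 * R * wt r + 1.1 * R * wt r) := by gcongr
    _ ≤ 4 * R * wt r := by nlinarith

lemma gg_diffψ {ψ1 ψ2 y : ℝ → ℝ} (h1 : Adm ψ1 y) (h2 : Adm ψ2 y) {R : ℝ}
    (hR : ∀ θ ∈ J, |ψ1 θ - ψ2 θ| ≤ R) {r : ℝ} (hr : r ∈ J) :
    |gg ψ1 y r - gg ψ2 y r| ≤ 4 * R := by
  have b1 := cube_diff (h1.gam_near hr) (h2.gam_near hr)
  have b2 := cube_diff (h1.neg.gam_near hr) (h2.neg.gam_near hr)
  obtain ⟨θ, hθ, -, a1⟩ := gam_lip h1.cont h2.cont h1.bd h2.bd hr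
  obtain ⟨θ', hθ', -, a2⟩ := gam_lip h1.neg.cont h2.neg.cont h1.neg.bd h2.neg.bd hr
  have d1 := pp_diffψ hθ (h1.by' θ hθ) (h1.bψ θ hθ) (h2.bψ θ hθ)
  have d2 := pp_diffψ (ψ1 := fun x => - ψ1 x) (ψ2 := fun x => - ψ2 x) hθ' (h1.by' θ' hθ')
    (h1.neg.bψ θ' hθ') (h2.neg.bψ θ' hθ')
  have f1 := hR θ hθ
  have f2 := hR θ' hθ'
  have f3 : |(-ψ1 θ') - (-ψ2 θ')| ≤ R := by
    rw [show (-ψ1 θ') - (-ψ2 θ') = -(ψ1 θ' - ψ2 θ') by ring, abs_neg]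
    exact f2
  have hR0 : 0 ≤ R := (abs_nonneg _).trans f1
  have e : gg ψ1 y r - gg ψ2 y r = (((gam (pp ψ1 y) r)⁻¹ ^ 3 - (gam (pp ψ2 y) r)⁻¹ ^ 3) +
      ((gam (pp (fun x => - ψ1 x) y) r)⁻¹ ^ 3 - (gam (pp (fun x => - ψ2 x) y) r)⁻¹ ^ 3)) / 2 := by
    unfold gg
    ring
  rw [e, abs_div, abs_two]
  have c1 := abs_add_le ((gam (pp ψ1 y) r)⁻¹ ^ 3 - (gam (pp ψ2 y) r)⁻¹ ^ 3)
      ((gam (pp (fun x => - ψ1 x) y) r)⁻¹ ^ 3 - (gam (pp (fun x => - ψ2 x) y) r)⁻¹ ^ 3)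
  linarith

lemma gam_contOn {ψ y : ℝ → ℝ} (h : Adm ψ y) : ContinuousOn (gam (pp ψ y)) J := by
  intro r hr
  rw [Metric.continuousWithinAt_iff]
  intro ε hε
  refine ⟨min 1 (ε / 8), by positivity, ?_⟩
  intro r' hr' hd
  rw [Real.dist_eq] at hd ⊢
  have h1 := gam_lip_r h.cont h.bd hr' hr
  have h2 := s0_le
  have h3 : |r' - r| < 1 := lt_of_lt_of_le hd (min_le_left _ _)
  have h4 : |r' - r| < ε / 8 := lt_of_lt_of_le hd (min_le_right _ _)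
  have h5 := abs_nonneg (r' - r)
  nlinarith [s0_pos]

lemma gg_contOn {ψ y : ℝ → ℝ} (h : Adm ψ y) : ContinuousOn (gg ψ y) J := by
  unfold gg
  have a : ∀ r ∈ J, gam (pp ψ y) r ≠ 0 := fun r hr => by
    have := abs_le.1 (h.gam_near hr)
    have := del_le
    linarith
  have b : ∀ r ∈ J, gam (pp (fun x => - ψ x) y) r ≠ 0 := fun r hr => by
    have := abs_le.1 (h.neg.gam_near hr)
    have := del_le
    linarith
  exact (((((gam_contOn h).inv₀ a).pow 3).add (((gam_contOn h.neg).inv₀ b).pow 3)).div_const 2).sub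
    continuousOn_const

/-- continuous version of `g(r) sin r` -/
noncomputable def Gf (ψ y : ℝ → ℝ) (r : ℝ) : ℝ := gg ψ y (cl r) * Real.sin (cl r)

lemma Gf_cont {ψ y : ℝ → ℝ} (h : Adm ψ y) : Continuous (Gf ψ y) := by
  unfold Gf
  have h1 : Continuous (fun r => gg ψ y (cl r)) :=
    (gg_contOn h).comp_continuous cl_cont cl_mem
  exact h1.mul (Real.continuous_sin.comp cl_cont)

end Pool.Agent.Helper363
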