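import Mathlib

/-! The geometric part (written by helper953): an analytic profile gives the counterexample. -/

open MeasureTheory Set Real

namespace Pool.Agent.Helper363.Geom

/-- Euclidean `n`-space. -/
abbrev E (n : ℕ) : Type := EuclideanSpace ℝ (Fin n)

/-- `K` is a convex body: compact, convex, with nonempty interior. -/
def IsConvexBody {n : ℕ} (K : Set (E n)) : Prop :=
  Convex ℝ K ∧ IsCompact K ∧ (interior K).Nonempty

/-- The hyperplane through the origin orthogonal to `u`. -/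
noncomputable abbrev hyp {n : ℕ} (u : E n) : Submodule ℝ (E n) := (ℝ ∙ u)ᗮ

/-- The `(n-1)`-dimensional volume of the section of `K` by the hyperplane `hyp u`. -/
noncomputable def secVol {n : ℕ} (K : Set (E n)) (u : E n) : ℝ :=
  ((volume : Measure (hyp u)) {y : hyp u | (y : E n) ∈ K}).toReal

/-- The intersection body: the star body with radial function `secVol K` on unit vectors. -/
def interBody {n : ℕ} (K : Set (E n)) : Set (E n) :=
  {x | ∃ u : E n, ‖u‖ = 1 ∧ ∃ r : ℝ, 0 ≤ r ∧ r ≤ secVol K u ∧ x = r • u}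

/-- The polar set. -/
def polarBody {n : ℕ} (A : Set (E n)) : Set (E n) :=
  {x | ∀ y ∈ A, (inner ℝ x y : ℝ) ≤ 1}

/-- The central symmetral `(K + (-K)) / 2`. -/
def symmetral {n : ℕ} (K : Set (E n)) : Set (E n) :=
  {x | ∃ a ∈ K, ∃ b ∈ K, x = (1 / 2 : ℝ) • (a + (-b))}

/-- `A` and `B` are homothetic: `A = x + r B` with `r > 0`. -/
def Homothetic {n : ℕ} (A B : Set (E n)) : Prop :=
  ∃ (x : E n) (r : ℝ), 0 < r ∧ A = (fun b => x + r • b) '' B

/-- A centred ellipsoid: the image of the closed unit ball under an invertible linear map. -/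
def IsCentredEllipsoid {n : ℕ} (K : Set (E n)) : Prop :=
  ∃ T : E n ≃ₗ[ℝ] E n, K = T '' Metric.closedBall (0 : E n) 1

/-- There is a convex body in four-space which refutes the statement. -/
def FinalStatement : Prop :=
  ∃ K : Set (E 4), IsConvexBody K ∧ (0 : E 4) ∈ interior K ∧ (∀ u : E 4, ‖u‖ = 1 → 0 < secVol K u) ∧
    Homothetic (polarBody (interBody K)) (symmetral K) ∧
    (∀ p : E 4, ∃ x ∈ K, (2 : ℝ) • p - x ∉ K) ∧ ¬ IsCentredEllipsoid K

/-- The reciprocal radial function of the profile with support function `h`. -/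
noncomputable def gamma (h : ℝ → ℝ) (r : ℝ) : ℝ :=
  sSup ((fun θ => Real.cos (θ - r) / h θ) '' Set.Icc 0 Real.pi)

/-! ### The function gamma -/

section gam

variable {h : ℝ → ℝ} (hpos : ∀ θ ∈ Icc 0 π, 1 / 2 ≤ h θ ∧ h θ ≤ 2)

include hpos

lemma term_le {θ : ℝ} (hθ : θ ∈ Icc 0 π) (r : ℝ) : Real.cos (θ - r) / h θ ≤ 2 := by
  have h1 := (hpos θ hθ).1
  rw [div_le_iff₀ (by linarith)]
  have := Real.cos_le_one (θ - r)
  linarith

lemma gamma_bdd (r : ℝ) : BddAbove ((fun θ => Real.cos (θ - r) / h θ) '' Icc 0 π) := by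
  refine ⟨2, ?_⟩
  rintro _ ⟨θ, hθ, rfl⟩
  exact term_le hpos hθ r

lemma le_gamma {θ : ℝ} (hθ : θ ∈ Icc 0 π) (r : ℝ) : Real.cos (θ - r) / h θ ≤ gamma h r :=
  le_csSup (gamma_bdd hpos r) ⟨θ, hθ, rfl⟩

omit hpos in
lemma im_nonempty (r : ℝ) : ((fun θ => Real.cos (θ - r) / h θ) '' Icc 0 π).Nonempty :=
  ⟨_, 0, ⟨le_rfl, Real.pi_pos.le⟩, rfl⟩

lemma gamma_le_two (r : ℝ) : gamma h r ≤ 2 := by
  apply csSup_le (im_nonempty r)
  rintro _ ⟨θ, hθ, rfl⟩
  exact term_le hpos hθ r

lemma half_le_gamma {r : ℝ} (hr : r ∈ Icc 0 π) : 1 / 2 ≤ gamma h r := by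
  have h1 := le_gamma hpos hr r
  rw [sub_self, Real.cos_zero] at h1
  have h2 := hpos r hr
  have : (1 : ℝ) / 2 ≤ 1 / h r := one_div_le_one_div_of_le (by linarith) h2.2
  linarith

lemma gamma_sub_le (r s : ℝ) : gamma h r ≤ gamma h s + 2 * |r - s| := by
  apply csSup_le (im_nonempty r)
  rintro _ ⟨θ, hθ, rfl⟩
  have h1 := (hpos θ hθ).1
  have h2 := le_gamma hpos hθ s
  have h3 : Real.cos (θ - r) - Real.cos (θ - s) ≤ |r - s| := by
    have := Real.abs_cos_sub_cos_le (θ - r) (θ - s)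
    have h4 : |θ - r - (θ - s)| = |r - s| := by
      rw [show θ - r - (θ - s) = -(r - s) by ring, abs_neg]
    rw [h4] at this
    exact (le_abs_self _).trans this
  have h5 : Real.cos (θ - r) / h θ ≤ Real.cos (θ - s) / h θ + 2 * |r - s| := by
    have hh : 0 < h θ := by linarith
    rw [div_add' _ _ _ hh.ne', div_le_div_iff_of_pos_right hh]
    nlinarith [abs_nonneg (r - s)]
  simp only
  linarith

lemma gamma_cont : Continuous (gamma h) := by
  have : LipschitzWith 2 (gamma h) := by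
    apply LipschitzWith.of_dist_le_mul
    intro r s
    rw [Real.dist_eq, Real.dist_eq, abs_le]
    have h1 := gamma_sub_le hpos r s
    have h2 := gamma_sub_le hpos s r
    rw [abs_sub_comm s r] at h2
    constructor
    · simp only [NNReal.coe_ofNat]
      linarith
    · simp only [NNReal.coe_ofNat]
      linarith
  exact this.continuous

lemma mem_iff_gamma {R : ℝ} (hR : 0 ≤ R) (r : ℝ) :
    (∀ θ ∈ Icc 0 π, R * Real.cos (θ - r) ≤ h θ) ↔ R * gamma h r ≤ 1 := by
  constructor
  · intro H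
    rcases hR.eq_or_lt with rfl | hR'
    · simp
    have : gamma h r ≤ 1 / R := by
      apply csSup_le (im_nonempty r)
      rintro _ ⟨θ, hθ, rfl⟩
      have h1 := (hpos θ hθ).1
      rw [div_le_div_iff₀ (by linarith) hR']
      have := H θ hθ
      linarith
    rw [le_div_iff₀ hR'] at this
    linarith
  · intro H θ hθ
    have h1 := (hpos θ hθ).1
    have h2 := le_gamma hpos hθ r
    have h3 : R * (Real.cos (θ - r) / h θ) ≤ 1 := (mul_le_mul_of_nonneg_left h2 hR).trans H
    rw [← mul_div_assoc, div_le_one (by linarith)] at h3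
    exact h3

end gam

/-! ### Slicing and polar coordinates -/

lemma exists_basis {F : Type*} [NormedAddCommGroup F] [InnerProductSpace ℝ F]
    [FiniteDimensional ℝ F] {m : ℕ} (hF : Module.finrank ℝ F = m + 1) (v : F) (hv : ‖v‖ = 1) :
    ∃ b : OrthonormalBasis (Fin (m + 1)) ℝ F, b 0 = v := by
  have h : Orthonormal ℝ (({0} : Set (Fin (m + 1))).domRestrict (fun _ => v)) := by
    constructor
    · intro i
      exact hv
    · intro i j hij
      exact absurd (Subsingleton.elim i j) hij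
  obtain ⟨b, hb⟩ := h.exists_orthonormalBasis_extension_of_card_eq
    (card_ι := by rw [hF, Fintype.card_fin])
  exact ⟨b, by simpa using hb 0 (by simp)⟩

lemma vol_slice {m : ℕ} (S : Set (ℝ × ℝ)) (hS : MeasurableSet S) :
    volume {x : EuclideanSpace ℝ (Fin (m + 1)) | (x 0, ‖x‖ ^ 2 - (x 0) ^ 2) ∈ S} =
      ∫⁻ z : ℝ, volume {w : EuclideanSpace ℝ (Fin m) | (z, ‖w‖ ^ 2) ∈ S} := by
  have hA : MeasurableSet {q : ℝ × (Fin m → ℝ) | (q.1, ∑ i, (q.2 i) ^ 2) ∈ S} := by
    apply hS.preimage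
    fun_prop
  have h1 : volume {x : EuclideanSpace ℝ (Fin (m + 1)) | (x 0, ‖x‖ ^ 2 - (x 0) ^ 2) ∈ S} =
      volume {q : ℝ × (Fin m → ℝ) | (q.1, ∑ i, (q.2 i) ^ 2) ∈ S} := by
    rw [← ((volume_preserving_piFinSuccAbove (fun _ : Fin (m + 1) => ℝ) 0).comp
      (PiLp.volume_preserving_ofLp (Fin (m + 1)))).measure_preimage hA.nullMeasurableSet]
    congr 1
    ext x
    simp only [Set.mem_ofPred_eq, Set.mem_preimage, Function.comp_apply]
    rw [EuclideanSpace.norm_sq_eq, Fin.sum_univ_succ]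
    simp [MeasurableEquiv.piFinSuccAbove, Fin.tail]
  rw [h1, Measure.volume_eq_prod, Measure.prod_apply hA]
  apply lintegral_congr
  intro z
  rw [← (PiLp.volume_preserving_ofLp (Fin m)).measure_preimage
    ((hA.preimage (measurable_prodMk_left (x := z))).nullMeasurableSet)]
  congr 1
  ext w
  simp [EuclideanSpace.norm_sq_eq]

/-- Volume of a set of revolution about the axis `v`, by slices orthogonal to the axis. -/
lemma vol_rot {F : Type*} [NormedAddCommGroup F] [InnerProductSpace ℝ F]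
    [FiniteDimensional ℝ F] [MeasurableSpace F] [BorelSpace F] {m : ℕ}
    (hF : Module.finrank ℝ F = m + 1) (v : F) (hv : ‖v‖ = 1)
    (S : Set (ℝ × ℝ)) (hS : MeasurableSet S) :
    volume {y : F | (inner ℝ v y, ‖y‖ ^ 2 - (inner ℝ v y) ^ 2) ∈ S} =
      ∫⁻ z : ℝ, volume {w : EuclideanSpace ℝ (Fin m) | (z, ‖w‖ ^ 2) ∈ S} := by
  obtain ⟨b, hb⟩ := exists_basis hF v hv
  rw [← vol_slice S hS]
  have hB : MeasurableSet {x : EuclideanSpace ℝ (Fin (m + 1)) |
      (x 0, ‖x‖ ^ 2 - (x 0) ^ 2) ∈ S} := by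
    apply hS.preimage
    fun_prop
  rw [← b.measurePreserving_repr.measure_preimage hB.nullMeasurableSet]
  congr 1
  ext y
  simp only [Set.mem_ofPred_eq, Set.mem_preimage, LinearIsometryEquiv.norm_map]
  rw [b.repr_apply_apply, hb]

/-- Area of a rotation invariant planar set. -/
lemma vol_two (A : Set ℝ) (hA : MeasurableSet A) :
    volume {w : E 2 | ‖w‖ ^ 2 ∈ A} =
      ENNReal.ofReal (2 * π) * ∫⁻ r in Ioi (0 : ℝ), ENNReal.ofReal r * (A.indicator 1 (r ^ 2)) := by
  have hmp : MeasurePreserving (fun w : E 2 => (w 0, w 1)) volume volume := by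
    have h1 := (volume_preserving_finTwoArrow ℝ).comp (PiLp.volume_preserving_ofLp (Fin 2))
    exact h1
  have hB : MeasurableSet {p : ℝ × ℝ | p.1 ^ 2 + p.2 ^ 2 ∈ A} := by
    apply hA.preimage
    fun_prop
  have h1 : volume {w : E 2 | ‖w‖ ^ 2 ∈ A} = volume {p : ℝ × ℝ | p.1 ^ 2 + p.2 ^ 2 ∈ A} := by
    rw [← hmp.measure_preimage hB.nullMeasurableSet]
    congr 1
    ext w
    simp [EuclideanSpace.norm_sq_eq, Fin.sum_univ_two]
  rw [h1, ← lintegral_indicator_one hB, ← lintegral_comp_polarCoord_symm]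
  have h2 : ∫⁻ p in polarCoord.target, ENNReal.ofReal p.1 •
      ({p : ℝ × ℝ | p.1 ^ 2 + p.2 ^ 2 ∈ A}.indicator 1 (polarCoord.symm p)) =
      ∫⁻ p in (Ioi (0 : ℝ) ×ˢ Ioo (-π) π), ENNReal.ofReal p.1 * A.indicator 1 (p.1 ^ 2) := by
    rw [polarCoord_target]
    apply setLIntegral_congr_fun (measurableSet_Ioi.prod measurableSet_Ioo)
    intro p hp
    simp only [smul_eq_mul]
    congr 1
    have : (polarCoord.symm p).1 ^ 2 + (polarCoord.symm p).2 ^ 2 = p.1 ^ 2 := by
      rw [polarCoord_symm_apply]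
      have := Real.sin_sq_add_cos_sq p.2
      linear_combination p.1 ^ 2 * this
    by_cases hmem : p.1 ^ 2 ∈ A
    · rw [Set.indicator_of_mem hmem, Set.indicator_of_mem
        (show polarCoord.symm p ∈ {p : ℝ × ℝ | p.1 ^ 2 + p.2 ^ 2 ∈ A} by
          show _ ∈ A
          rw [this]
          exact hmem)]
      rfl
    · rw [Set.indicator_of_notMem hmem, Set.indicator_of_notMem
        (show polarCoord.symm p ∉ {p : ℝ × ℝ | p.1 ^ 2 + p.2 ^ 2 ∈ A} by
          show ¬ (_ ∈ A)
          rw [this]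
          exact hmem)]
  rw [h2, Measure.volume_eq_prod, ← Measure.prod_restrict, lintegral_prod]
  · have h3 : ∀ x : ℝ, ∫⁻ y in Ioo (-π) π, ENNReal.ofReal (x, y).1 * A.indicator 1 ((x, y).1 ^ 2) =
        ENNReal.ofReal (2 * π) * (ENNReal.ofReal x * A.indicator 1 (x ^ 2)) := by
      intro x
      simp only
      rw [lintegral_const, Measure.restrict_apply MeasurableSet.univ, Set.univ_inter,
        Real.volume_Ioo, mul_comm]
      congr 2
      ring
    simp_rw [h3]
    rw [lintegral_const_mul]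
    apply Measurable.mul
    · fun_prop
    · exact (measurable_one.indicator hA).comp (by fun_prop)
  · apply AEMeasurable.mul
    · fun_prop
    · apply Measurable.aemeasurable
      exact (measurable_one.indicator hA).comp (by fun_prop)

/-! ### The section formula -/

section sec

variable {F : Type*} [NormedAddCommGroup F] [InnerProductSpace ℝ F]
    [FiniteDimensional ℝ F] [MeasurableSpace F] [BorelSpace F]

/-- Reduction of the volume of a set of revolution in a three-dimensional space. -/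
lemma vol_three (hF : Module.finrank ℝ F = 3) (v : F) (hv : ‖v‖ = 1)
    (S : Set (ℝ × ℝ)) (hS : MeasurableSet S) :
    volume {y : F | (inner ℝ v y, ‖y‖ ^ 2 - (inner ℝ v y) ^ 2) ∈ S} =
      ENNReal.ofReal (2 * π) * ∫⁻ p : ℝ × ℝ, ENNReal.ofReal p.2 * (S.indicator 1 (p.1, p.2 ^ 2)) := by
  have hm : Measurable (fun p : ℝ × ℝ => ENNReal.ofReal p.2 * (S.indicator 1 (p.1, p.2 ^ 2))) := by
    apply Measurable.mul
    · fun_prop
    · exact (measurable_one.indicator hS).comp (by fun_prop)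
  rw [vol_rot (m := 2) hF v hv S hS, Measure.volume_eq_prod, lintegral_prod _ hm.aemeasurable,
    ← lintegral_const_mul _ hm.lintegral_prod_right']
  apply lintegral_congr
  intro z
  have h1 := vol_two {s : ℝ | (z, s) ∈ S} (hS.preimage (measurable_prodMk_left (x := z)))
  have h2 : {w : E 2 | (z, ‖w‖ ^ 2) ∈ S} = {w : E 2 | ‖w‖ ^ 2 ∈ {s : ℝ | (z, s) ∈ S}} := rfl
  rw [h2, h1]
  congr 1
  have h3 : ∫⁻ y : ℝ, ENNReal.ofReal (z, y).2 * S.indicator 1 ((z, y).1, (z, y).2 ^ 2) =
      ∫⁻ y in Ioi (0 : ℝ), ENNReal.ofReal (z, y).2 * S.indicator 1 ((z, y).1, (z, y).2 ^ 2) := by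
    rw [← lintegral_indicator measurableSet_Ioi]
    apply lintegral_congr
    intro y
    by_cases hy : y ∈ Ioi (0 : ℝ)
    · rw [Set.indicator_of_mem hy]
    · rw [Set.indicator_of_notMem hy, ENNReal.ofReal_of_nonpos (not_lt.mp hy), zero_mul]
  rw [h3]
  rfl

omit [FiniteDimensional ℝ F] [MeasurableSpace F] [BorelSpace F] [InnerProductSpace ℝ F]
  [NormedAddCommGroup F] in
lemma sub_cos (G : ℝ → ℝ) (hG : ContinuousOn G (Icc (-1) 1)) (c : ℝ) (hc : c ∈ Icc (0 : ℝ) 1)
    (a b : ℝ) :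
    ∫ y in a..b, G (c * Real.cos y) * (c * Real.sin y) =
      ∫ u in (c * Real.cos b)..(c * Real.cos a), G u := by
  have h1 := intervalIntegral.integral_comp_mul_deriv' (a := a) (b := b)
    (f := fun y => c * Real.cos y) (f' := fun y => -(c * Real.sin y)) (g := G)
    (fun y _ => by
      have := (Real.hasDerivAt_cos y).const_mul c
      rw [mul_neg] at this
      exact this) (by fun_prop) (hG.mono (by
        rintro _ ⟨y, _, rfl⟩
        have h1 := Real.neg_one_le_cos y
        have h2 := Real.cos_le_one y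
        constructor
        · simp only
          nlinarith [hc.1, hc.2]
        · simp only
          nlinarith [hc.1, hc.2]))
  rw [intervalIntegral.integral_symm (c * Real.cos a) (c * Real.cos b), ← h1,
    ← intervalIntegral.integral_neg]
  congr 1
  ext y
  simp

omit [FiniteDimensional ℝ F] [MeasurableSpace F] [BorelSpace F] [InnerProductSpace ℝ F]
  [NormedAddCommGroup F] in
lemma lint_cube {a : ℝ} (ha : 0 < a) :
    ∫⁻ R in Ioi (0 : ℝ), ENNReal.ofReal (R ^ 2) * ((Iic a).indicator 1 R) =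
      ENNReal.ofReal (a ^ 3 / 3) := by
  have h1 : ∫⁻ R in Ioi (0 : ℝ), ENNReal.ofReal (R ^ 2) * ((Iic a).indicator 1 R) =
      ∫⁻ R in Ioc 0 a, ENNReal.ofReal (R ^ 2) := by
    rw [← lintegral_indicator measurableSet_Ioi, ← lintegral_indicator measurableSet_Ioc]
    apply lintegral_congr
    intro R
    by_cases h0 : 0 < R
    · by_cases h1 : R ≤ a
      · rw [Set.indicator_of_mem (show R ∈ Ioi (0 : ℝ) from h0),
          Set.indicator_of_mem (show R ∈ Iic a from h1),
          Set.indicator_of_mem (show R ∈ Ioc 0 a from ⟨h0, h1⟩)]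
        simp
      · rw [Set.indicator_of_mem (show R ∈ Ioi (0 : ℝ) from h0),
          Set.indicator_of_notMem (show R ∉ Iic a from h1),
          Set.indicator_of_notMem (show R ∉ Ioc 0 a from fun h => h1 h.2)]
        simp
    · rw [Set.indicator_of_notMem (show R ∉ Ioi (0 : ℝ) from h0),
          Set.indicator_of_notMem (show R ∉ Ioc 0 a from fun h => h0 h.1)]
  rw [h1, ← ofReal_integral_eq_lintegral_ofReal]
  · rw [← intervalIntegral.integral_of_le ha.le, integral_pow]
    congr 1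
    norm_num
  · have : IntervalIntegrable (fun R : ℝ => R ^ 2) volume 0 a :=
      (continuous_pow 2).intervalIntegrable _ _
    rwa [intervalIntegrable_iff_integrableOn_Ioc_of_le ha.le] at this
  · filter_upwards with R
    positivity

lemma vol_three_polar (hF : Module.finrank ℝ F = 3) (v : F) (hv : ‖v‖ = 1)
    (g : ℝ → ℝ) (hg : Continuous g) (hg0 : ∀ x ∈ Icc (-1 : ℝ) 1, 0 < g x) :
    volume {y : F | ‖y‖ * g (inner ℝ v y / ‖y‖) ≤ 1} =
      ENNReal.ofReal (2 * π / 3 * ∫ x in (-1 : ℝ)..1, ((g x) ^ 3)⁻¹) := by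
  set S : Set (ℝ × ℝ) := {q | √(q.1 ^ 2 + q.2) * g (q.1 / √(q.1 ^ 2 + q.2)) ≤ 1} with hSdef
  have hS : MeasurableSet S := by
    have hgm := hg.measurable
    apply measurableSet_le
    · apply Measurable.mul
      · fun_prop
      · apply hgm.comp
        fun_prop
    · fun_prop
  have hset : {y : F | ‖y‖ * g (inner ℝ v y / ‖y‖) ≤ 1} =
      {y : F | (inner ℝ v y, ‖y‖ ^ 2 - (inner ℝ v y) ^ 2) ∈ S} := by
    ext y
    simp only [hSdef, Set.mem_ofPred_eq]
    have h1 : √((inner ℝ v y : ℝ) ^ 2 + (‖y‖ ^ 2 - (inner ℝ v y) ^ 2)) = ‖y‖ := by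
      rw [add_sub_cancel, Real.sqrt_sq (norm_nonneg y)]
    rw [h1]
  rw [hset, vol_three hF v hv S hS, ← lintegral_comp_polarCoord_symm]
  have h2 : ∫⁻ p in polarCoord.target, ENNReal.ofReal p.1 •
      (ENNReal.ofReal (polarCoord.symm p).2 *
        S.indicator 1 ((polarCoord.symm p).1, (polarCoord.symm p).2 ^ 2)) =
      ∫⁻ p in (Ioi (0 : ℝ) ×ˢ Ioo (-π) π), ENNReal.ofReal (Real.sin p.2) *
        (ENNReal.ofReal (p.1 ^ 2) * (Iic (g (Real.cos p.2))⁻¹).indicator 1 p.1) := by
    rw [polarCoord_target]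
    apply setLIntegral_congr_fun (measurableSet_Ioi.prod measurableSet_Ioo)
    rintro ⟨R, β⟩ ⟨hR, hβ⟩
    have hR' : 0 < R := hR
    simp only [smul_eq_mul, polarCoord_symm_apply]
    have hcos : Real.cos β ∈ Icc (-1 : ℝ) 1 := ⟨Real.neg_one_le_cos β, Real.cos_le_one β⟩
    have hgp := hg0 _ hcos
    have h3 : (R * Real.cos β, (R * Real.sin β) ^ 2) ∈ S ↔ R ∈ Iic (g (Real.cos β))⁻¹ := by
      have h4 : (R * Real.cos β) ^ 2 + (R * Real.sin β) ^ 2 = R ^ 2 := by
        have := Real.sin_sq_add_cos_sq β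
        linear_combination R ^ 2 * this
      simp only [hSdef, Set.mem_ofPred_eq, h4, Real.sqrt_sq hR'.le, Set.mem_Iic]
      rw [mul_div_cancel_left₀ _ hR'.ne', ← one_div, le_div_iff₀ hgp]
    have h5 : ENNReal.ofReal R * ENNReal.ofReal (R * Real.sin β) =
        ENNReal.ofReal (Real.sin β) * ENNReal.ofReal (R ^ 2) := by
      rw [← ENNReal.ofReal_mul hR'.le, ← ENNReal.ofReal_mul' (sq_nonneg R)]
      congr 1
      ring
    by_cases hm : R ∈ Iic (g (Real.cos β))⁻¹
    · rw [Set.indicator_of_mem hm, Set.indicator_of_mem (h3.mpr hm)]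
      simp only [Pi.one_apply, mul_one]
      exact h5
    · rw [Set.indicator_of_notMem hm, Set.indicator_of_notMem (fun h => hm (h3.mp h))]
      simp
  rw [h2, Measure.volume_eq_prod, ← Measure.prod_restrict]
  have hmeas : Measurable (fun p : ℝ × ℝ => ENNReal.ofReal (Real.sin p.2) *
        (ENNReal.ofReal (p.1 ^ 2) * (Iic (g (Real.cos p.2))⁻¹).indicator 1 p.1)) := by
    have hgm := hg.measurable
    have hs : MeasurableSet {p : ℝ × ℝ | p.1 ≤ (g (Real.cos p.2))⁻¹} := by
      apply measurableSet_le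
      · fun_prop
      · exact (hgm.comp (by fun_prop)).inv
    have h6 : (fun p : ℝ × ℝ => (Iic (g (Real.cos p.2))⁻¹).indicator (1 : ℝ → ENNReal) p.1) =
        ({p : ℝ × ℝ | p.1 ≤ (g (Real.cos p.2))⁻¹}).indicator 1 := by
      ext p
      by_cases h : p.1 ≤ (g (Real.cos p.2))⁻¹
      · rw [Set.indicator_of_mem (show p.1 ∈ Iic _ from h), Set.indicator_of_mem
          (show p ∈ {p : ℝ × ℝ | p.1 ≤ (g (Real.cos p.2))⁻¹} from h)]
        rfl
      · rw [Set.indicator_of_notMem (show p.1 ∉ Iic _ from h), Set.indicator_of_notMem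
          (show p ∉ {p : ℝ × ℝ | p.1 ≤ (g (Real.cos p.2))⁻¹} from h)]
    apply Measurable.mul
    · fun_prop
    · apply Measurable.mul
      · fun_prop
      · rw [h6]
        exact measurable_one.indicator hs
  rw [lintegral_prod_symm _ hmeas.aemeasurable]
  have h7 : ∫⁻ y in Ioo (-π) π, ∫⁻ x in Ioi (0 : ℝ), ENNReal.ofReal (Real.sin (x, y).2) *
        (ENNReal.ofReal ((x, y).1 ^ 2) * (Iic (g (Real.cos (x, y).2))⁻¹).indicator 1 (x, y).1) =
      ∫⁻ y in Ioo 0 π, ENNReal.ofReal (Real.sin y * (((g (Real.cos y)) ^ 3)⁻¹ / 3)) := by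
    rw [← lintegral_indicator measurableSet_Ioo, ← lintegral_indicator measurableSet_Ioo]
    apply lintegral_congr
    intro y
    have hcos : Real.cos y ∈ Icc (-1 : ℝ) 1 := ⟨Real.neg_one_le_cos y, Real.cos_le_one y⟩
    have hgp := hg0 _ hcos
    have hin : ∫⁻ x in Ioi (0 : ℝ), ENNReal.ofReal (Real.sin (x, y).2) *
        (ENNReal.ofReal ((x, y).1 ^ 2) * (Iic (g (Real.cos (x, y).2))⁻¹).indicator 1 (x, y).1) =
        ENNReal.ofReal (Real.sin y) * ENNReal.ofReal (((g (Real.cos y)) ^ 3)⁻¹ / 3) := by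
      simp only
      rw [lintegral_const_mul, lint_cube (inv_pos.mpr hgp), inv_pow]
      apply Measurable.mul
      · fun_prop
      · exact measurable_one.indicator measurableSet_Iic
    by_cases h1 : y ∈ Ioo (-π) π
    · rw [Set.indicator_of_mem h1, hin]
      by_cases h8 : 0 < y
      · have hy : y ∈ Ioo 0 π := ⟨h8, h1.2⟩
        rw [Set.indicator_of_mem hy, ENNReal.ofReal_mul]
        exact (Real.sin_pos_of_pos_of_lt_pi hy.1 hy.2).le
      · have hy : y ∉ Ioo 0 π := fun h => h8 h.1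
        rw [Set.indicator_of_notMem hy, ENNReal.ofReal_of_nonpos, zero_mul]
        exact Real.sin_nonpos_of_nonpos_of_neg_pi_le (not_lt.mp h8) h1.1.le
    · have hy : y ∉ Ioo 0 π := fun h => h1 ⟨by linarith [h.1, Real.pi_pos], h.2⟩
      rw [Set.indicator_of_notMem h1, Set.indicator_of_notMem hy]
  rw [h7]
  have hcont : ContinuousOn (fun y => Real.sin y * (((g (Real.cos y)) ^ 3)⁻¹ / 3)) (uIcc 0 π) := by
    apply ContinuousOn.mul
    · exact Real.continuous_sin.continuousOn
    · apply ContinuousOn.div_const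
      apply ContinuousOn.inv₀
      · exact ((hg.comp Real.continuous_cos).pow 3).continuousOn
      · intro y _
        have := hg0 _ (⟨Real.neg_one_le_cos y, Real.cos_le_one y⟩ : Real.cos y ∈ Icc (-1 : ℝ) 1)
        positivity
  rw [← ofReal_integral_eq_lintegral_ofReal, ← integral_Ioc_eq_integral_Ioo,
    ← intervalIntegral.integral_of_le Real.pi_pos.le, ← ENNReal.ofReal_mul (by positivity)]
  · congr 1
    have hsub : ∫ y in (0 : ℝ)..π, Real.sin y * (((g (Real.cos y)) ^ 3)⁻¹ / 3) =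
        (1 / 3) * ∫ x in (-1 : ℝ)..1, ((g x) ^ 3)⁻¹ := by
      have h10 := sub_cos (fun x => ((g x) ^ 3)⁻¹) (by
        apply ContinuousOn.inv₀ ((hg.pow 3).continuousOn)
        intro x hx
        exact pow_ne_zero 3 (hg0 x hx).ne') 1 ⟨zero_le_one, le_rfl⟩ 0 π
      simp only [one_mul, Real.cos_zero, Real.cos_pi] at h10
      rw [← h10, ← intervalIntegral.integral_const_mul]
      congr 1
      ext y
      ring
    rw [hsub]
    ring
  · have h11 := hcont.intervalIntegrable (μ := volume)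
    rw [intervalIntegrable_iff_integrableOn_Ioc_of_le Real.pi_pos.le] at h11
    exact h11.mono_set Ioo_subset_Ioc_self
  · rw [Filter.EventuallyLE, ae_restrict_iff' measurableSet_Ioo]
    filter_upwards with y hy
    have := hg0 _ (⟨Real.neg_one_le_cos y, Real.cos_le_one y⟩ : Real.cos y ∈ Icc (-1 : ℝ) 1)
    have h9 := Real.sin_pos_of_pos_of_lt_pi hy.1 hy.2
    simp only [Pi.zero_apply]
    positivity

end sec

/-! ### The body of revolution -/

/-- The axis of revolution. -/
noncomputable def ax : E 4 := EuclideanSpace.single 0 1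

lemma norm_ax : ‖ax‖ = 1 := by simp [ax]

lemma inner_ax_ax : (inner ℝ ax ax : ℝ) = 1 := by
  rw [real_inner_self_eq_norm_sq, norm_ax]
  norm_num

/-- The body of revolution with axis `ax` and profile support function `h`. -/
def body (h : ℝ → ℝ) : Set (E 4) :=
  {x | ∀ θ ∈ Icc 0 π, ‖x - (inner ℝ ax x : ℝ) • ax‖ * Real.sin θ + (inner ℝ ax x : ℝ) * Real.cos θ
    ≤ h θ}

lemma norm_perp_sq (x : E 4) :
    ‖x - (inner ℝ ax x : ℝ) • ax‖ ^ 2 = ‖x‖ ^ 2 - (inner ℝ ax x : ℝ) ^ 2 := by
  rw [norm_sub_sq_real, inner_smul_right, norm_smul, norm_ax, real_inner_comm, Real.norm_eq_abs,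
    mul_one, sq_abs]
  ring

lemma abs_inner_ax (x : E 4) : |(inner ℝ ax x : ℝ)| ≤ ‖x‖ := by
  have := abs_real_inner_le_norm ax x
  rwa [norm_ax, one_mul] at this

/-- Polar coordinates of a nonzero vector relative to the axis. -/
lemma polar_form {x : E 4} (hx : x ≠ 0) :
    (inner ℝ ax x : ℝ) = ‖x‖ * Real.cos (Real.arccos (inner ℝ ax x / ‖x‖)) ∧
    ‖x - (inner ℝ ax x : ℝ) • ax‖ = ‖x‖ * Real.sin (Real.arccos (inner ℝ ax x / ‖x‖)) := by
  have hx0 : 0 < ‖x‖ := norm_pos_iff.mpr hx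
  have h1 := abs_le.mp (abs_inner_ax x)
  have h2 : Real.cos (Real.arccos (inner ℝ ax x / ‖x‖)) = inner ℝ ax x / ‖x‖ := by
    apply Real.cos_arccos
    · rw [le_div_iff₀ hx0]
      linarith [h1.1]
    · rw [div_le_one hx0]
      exact h1.2
  constructor
  · rw [h2]
    field_simp
  · have h3 : 0 ≤ Real.sin (Real.arccos (inner ℝ ax x / ‖x‖)) :=
      Real.sin_nonneg_of_mem_Icc ⟨Real.arccos_nonneg _, Real.arccos_le_pi _⟩
    have h4 : ‖x - (inner ℝ ax x : ℝ) • ax‖ ^ 2 =
        (‖x‖ * Real.sin (Real.arccos (inner ℝ ax x / ‖x‖))) ^ 2 := by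
      rw [norm_perp_sq, mul_pow, Real.sin_sq, h2]
      field_simp
    exact (pow_left_inj₀ (norm_nonneg _) (by positivity) (by norm_num)).mp h4

section main

variable {h h' : ℝ → ℝ} (hpos : ∀ θ ∈ Icc 0 π, 1 / 2 ≤ h θ ∧ h θ ≤ 2)

include hpos

lemma mem_body_iff (x : E 4) :
    x ∈ body h ↔ ‖x‖ * gamma h (Real.arccos (inner ℝ ax x / ‖x‖)) ≤ 1 := by
  rcases eq_or_ne x 0 with rfl | hx
  · constructor
    · intro _
      simp
    · intro _ θ hθ
      have := (hpos θ hθ).1
      simp only [inner_zero_right, zero_smul, sub_zero, norm_zero, zero_mul, add_zero]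
      linarith
  · obtain ⟨h1, h2⟩ := polar_form hx
    rw [← mem_iff_gamma hpos (norm_nonneg x)]
    have h3 : ∀ θ : ℝ, ‖x - (inner ℝ ax x : ℝ) • ax‖ * Real.sin θ + (inner ℝ ax x : ℝ) * Real.cos θ =
        ‖x‖ * Real.cos (θ - Real.arccos (inner ℝ ax x / ‖x‖)) := by
      intro θ
      rw [h2, Real.cos_sub]
      nth_rewrite 2 [h1]
      ring
    show (∀ θ ∈ Icc 0 π, _ ≤ _) ↔ _
    simp_rw [h3]

lemma norm_le_two {x : E 4} (hx : x ∈ body h) : ‖x‖ ≤ 2 := by
  rcases eq_or_ne x 0 with rfl | hx0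
  · simp
  · obtain ⟨h1, h2⟩ := polar_form hx0
    have hφ : Real.arccos (inner ℝ ax x / ‖x‖) ∈ Icc 0 π :=
      ⟨Real.arccos_nonneg _, Real.arccos_le_pi _⟩
    have h3 := hx _ hφ
    have h4 := (hpos _ hφ).2
    have h5 := Real.sin_sq_add_cos_sq (Real.arccos (inner ℝ ax x / ‖x‖))
    have h6 : ‖x‖ * Real.sin (Real.arccos (inner ℝ ax x / ‖x‖)) *
        Real.sin (Real.arccos (inner ℝ ax x / ‖x‖)) +
        ‖x‖ * Real.cos (Real.arccos (inner ℝ ax x / ‖x‖)) *
        Real.cos (Real.arccos (inner ℝ ax x / ‖x‖)) ≤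
        h (Real.arccos (inner ℝ ax x / ‖x‖)) := by
      rw [← h2, ← h1]
      exact h3
    nlinarith

omit hpos in
lemma body_closed : IsClosed (body h) := by
  have : body h = ⋂ θ ∈ Icc 0 π, {x : E 4 | ‖x - (inner ℝ ax x : ℝ) • ax‖ * Real.sin θ +
      (inner ℝ ax x : ℝ) * Real.cos θ ≤ h θ} := by
    ext x
    simp only [body, Set.mem_ofPred_eq, Set.mem_iInter]
  rw [this]
  apply isClosed_biInter
  intro θ _
  apply isClosed_le
  · fun_prop
  · fun_prop

lemma body_compact : IsCompact (body h) := by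
  apply Metric.isCompact_of_isClosed_isBounded body_closed
  apply (Metric.isBounded_closedBall (x := (0 : E 4)) (r := 2)).subset
  intro x hx
  rw [Metric.mem_closedBall, dist_zero_right]
  exact norm_le_two hpos hx

omit hpos in
lemma body_convex : Convex ℝ (body h) := by
  intro x hx y hy a b ha hb hab θ hθ
  have h1 := hx θ hθ
  have h2 := hy θ hθ
  have hs : 0 ≤ Real.sin θ := Real.sin_nonneg_of_mem_Icc hθ
  have h3 : a • x + b • y - (inner ℝ ax (a • x + b • y) : ℝ) • ax =
      a • (x - (inner ℝ ax x : ℝ) • ax) + b • (y - (inner ℝ ax y : ℝ) • ax) := by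
    rw [inner_add_right, inner_smul_right, inner_smul_right]
    module
  have h4 : ‖a • x + b • y - (inner ℝ ax (a • x + b • y) : ℝ) • ax‖ ≤
      a * ‖x - (inner ℝ ax x : ℝ) • ax‖ + b * ‖y - (inner ℝ ax y : ℝ) • ax‖ := by
    rw [h3]
    refine (norm_add_le _ _).trans ?_
    rw [norm_smul, norm_smul, Real.norm_of_nonneg ha, Real.norm_of_nonneg hb]
  have h5 : (inner ℝ ax (a • x + b • y) : ℝ) = a * inner ℝ ax x + b * inner ℝ ax y := by
    rw [inner_add_right, inner_smul_right, inner_smul_right]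
  rw [h5] at h4 ⊢
  have h6 := mul_le_mul_of_nonneg_right h4 hs
  have h7 := mul_le_mul_of_nonneg_left h1 ha
  have h8 := mul_le_mul_of_nonneg_left h2 hb
  have h9 : h θ = a * h θ + b * h θ := by rw [← add_mul, hab, one_mul]
  nlinarith

lemma ball_subset_body : Metric.ball (0 : E 4) (1 / 2) ⊆ body h := by
  intro x hx θ hθ
  rw [Metric.mem_ball, dist_zero_right] at hx
  have h1 := (hpos θ hθ).1
  have h2 := norm_perp_sq x
  have h3 := Real.sin_sq_add_cos_sq θ
  have h4 : (‖x - (inner ℝ ax x : ℝ) • ax‖ * Real.sin θ + (inner ℝ ax x : ℝ) * Real.cos θ) ^ 2 ≤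
      ‖x‖ ^ 2 := by
    nlinarith [sq_nonneg (‖x - (inner ℝ ax x : ℝ) • ax‖ * Real.cos θ -
      (inner ℝ ax x : ℝ) * Real.sin θ)]
  have h5 := abs_le_of_sq_le_sq h4 (norm_nonneg x)
  have h6 := (abs_le.mp (abs_le_of_sq_le_sq h4 (norm_nonneg x))).2
  linarith

lemma zero_mem_interior : (0 : E 4) ∈ interior (body h) := by
  apply interior_mono (ball_subset_body hpos)
  rw [Metric.isOpen_ball.interior_eq]
  exact Metric.mem_ball_self (by norm_num)

end main

/-! ### Sections -/

lemma finrank_hyp (u : E 4) (hu : ‖u‖ = 1) : Module.finrank ℝ (hyp u) = 3 := by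
  have hu0 : u ≠ 0 := by
    rintro rfl
    simp at hu
  have h := Submodule.finrank_add_finrank_orthogonal (ℝ ∙ u)
  rw [finrank_span_singleton hu0, finrank_euclideanSpace_fin] at h
  show Module.finrank ℝ (ℝ ∙ u)ᗮ = 3
  omega

lemma mem_hyp_inner (u : E 4) (y : hyp u) : (inner ℝ u (y : E 4) : ℝ) = 0 :=
  (Submodule.mem_orthogonal_singleton_iff_inner_right.mp y.2)

/-- The projection of the axis onto the hyperplane, as a multiple of a unit vector. -/
lemma exists_frame (u : E 4) (hu : ‖u‖ = 1) :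
    ∃ v : hyp u, ‖v‖ = 1 ∧ ax = (inner ℝ ax u : ℝ) • u +
      (Real.sin (Real.arccos (inner ℝ ax u))) • (v : E 4) := by
  set c : ℝ := inner ℝ ax u with hc
  have hca : |c| ≤ 1 := by
    have := abs_inner_ax u
    rwa [hu] at this
  set w : E 4 := ax - c • u with hw
  have hwu : w ∈ hyp u := by
    rw [Submodule.mem_orthogonal_singleton_iff_inner_right, hw, inner_sub_right,
      inner_smul_right, real_inner_self_eq_norm_sq, hu, real_inner_comm, ← hc]
    ring
  have hwn : ‖w‖ ^ 2 = 1 - c ^ 2 := by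
    have h := norm_sub_sq_real ax (c • u)
    rw [← hw, norm_smul, hu, norm_ax, inner_smul_right, ← hc, Real.norm_eq_abs,
      mul_one, sq_abs] at h
    rw [h]
    ring
  have hs : Real.sin (Real.arccos c) = ‖w‖ := by
    rw [Real.sin_arccos, ← hwn, Real.sqrt_sq (norm_nonneg w)]
  rw [hs]
  rcases eq_or_ne w 0 with h0 | h0
  · have hnt : Nontrivial (hyp u) := by
      apply Module.nontrivial_of_finrank_pos (R := ℝ)
      rw [finrank_hyp u hu]
      norm_num
    obtain ⟨v, hv⟩ := exists_norm_eq (E := hyp u) (c := 1) zero_le_one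
    refine ⟨v, hv, ?_⟩
    rw [h0, norm_zero, zero_smul, add_zero]
    exact sub_eq_zero.mp (hw.symm.trans h0)
  · have hs : 0 < ‖w‖ := norm_pos_iff.mpr h0
    refine ⟨⟨(‖w‖)⁻¹ • w, (hyp u).smul_mem _ hwu⟩, ?_, ?_⟩
    · show ‖(‖w‖)⁻¹ • w‖ = 1
      rw [norm_smul, norm_inv, norm_norm, inv_mul_cancel₀ hs.ne']
    · show ax = c • u + ‖w‖ • ((‖w‖)⁻¹ • w)
      rw [smul_smul, mul_inv_cancel₀ hs.ne', one_smul, hw]
      abel

/-- The normalised section integral. -/
noncomputable def Isec (h : ℝ → ℝ) (s : ℝ) : ℝ :=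
  ∫ x in (-1 : ℝ)..1, ((gamma h (Real.arccos (s * x))) ^ 3)⁻¹

section main2

variable {h h' : ℝ → ℝ} (hpos : ∀ θ ∈ Icc 0 π, 1 / 2 ≤ h θ ∧ h θ ≤ 2)

include hpos

lemma secVol_body (u : E 4) (hu : ‖u‖ = 1) :
    secVol (body h) u = 2 * π / 3 * Isec h (Real.sin (Real.arccos (inner ℝ ax u))) := by
  obtain ⟨v, hv, hdec⟩ := exists_frame u hu
  set s : ℝ := Real.sin (Real.arccos (inner ℝ ax u)) with hs
  have hset : {y : hyp u | (y : E 4) ∈ body h} =
      {y : hyp u | ‖y‖ * (fun x => gamma h (Real.arccos (s * x))) (inner ℝ v y / ‖y‖) ≤ 1} := by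
    ext y
    have h1 : (inner ℝ ax (y : E 4) : ℝ) = s * inner ℝ v y := by
      nth_rewrite 1 [hdec]
      rw [inner_add_left, inner_smul_left, inner_smul_left, mem_hyp_inner]
      simp
    rw [Set.mem_ofPred_eq, mem_body_iff hpos, h1, mul_div_assoc]
    rfl
  have hcont : Continuous (fun x => gamma h (Real.arccos (s * x))) :=
    (gamma_cont hpos).comp (Real.continuous_arccos.comp (by fun_prop))
  have hpos' : ∀ x ∈ Icc (-1 : ℝ) 1, 0 < (fun x => gamma h (Real.arccos (s * x))) x := by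
    intro x _
    have := half_le_gamma hpos (r := Real.arccos (s * x))
      ⟨Real.arccos_nonneg _, Real.arccos_le_pi _⟩
    simp only
    linarith
  unfold secVol
  rw [hset, vol_three_polar (finrank_hyp u hu) v hv _ hcont hpos', ENNReal.toReal_ofReal]
  · rfl
  · have : 0 ≤ ∫ x in (-1 : ℝ)..1, (((fun x => gamma h (Real.arccos (s * x))) x) ^ 3)⁻¹ := by
      apply intervalIntegral.integral_nonneg (by norm_num)
      intro x hx
      have := hpos' x hx
      positivity
    positivity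

lemma Isec_eq (heq : ∀ θ ∈ Ioc 0 (π / 2), (h θ + h (π - θ)) *
      ∫ r in (π / 2 - θ)..(π / 2 + θ), (gamma h r) ^ (-3 : ℤ) * Real.sin r = 4 * Real.sin θ)
    (h0 : h 0 = 1) (hpi : h π = 1) (hg : gamma h (π / 2) = 1) {θ : ℝ} (hθ : θ ∈ Icc 0 π) :
    (h θ + h (π - θ)) * Isec h (Real.sin θ) = 4 := by
  have key : ∀ θ ∈ Icc 0 (π / 2), (h θ + h (π - θ)) * Isec h (Real.sin θ) = 4 := by
    intro θ hθ
    rcases hθ.1.eq_or_lt with h1 | h1
    · subst h1
      simp only [Isec, Real.sin_zero, zero_mul, Real.arccos_zero, hg, sub_zero, h0, hpi]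
      norm_num
    · have hs : 0 < Real.sin θ := Real.sin_pos_of_pos_of_lt_pi h1 (by linarith [hθ.2, Real.pi_pos])
      have hcont : Continuous (fun x => ((gamma h (Real.arccos x)) ^ 3)⁻¹) := by
        apply Continuous.inv₀
        · exact ((gamma_cont hpos).comp Real.continuous_arccos).pow 3
        · intro x
          have := half_le_gamma hpos (r := Real.arccos x)
            ⟨Real.arccos_nonneg _, Real.arccos_le_pi _⟩
          exact pow_ne_zero 3 (by linarith)
      have h2 := sub_cos (fun x => ((gamma h (Real.arccos x)) ^ 3)⁻¹) hcont.continuousOn 1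
        ⟨zero_le_one, le_rfl⟩ (π / 2 - θ) (π / 2 + θ)
      have h3 : ∫ r in (π / 2 - θ)..(π / 2 + θ), (gamma h r) ^ (-3 : ℤ) * Real.sin r =
          ∫ x in (-Real.sin θ)..(Real.sin θ), ((gamma h (Real.arccos x)) ^ 3)⁻¹ := by
        have h4 : 1 * Real.cos (π / 2 + θ) = -Real.sin θ := by
          rw [one_mul, add_comm, Real.cos_add_pi_div_two]
        have h5 : 1 * Real.cos (π / 2 - θ) = Real.sin θ := by
          rw [one_mul, Real.cos_pi_div_two_sub]
        rw [h4, h5] at h2
        rw [← h2]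
        apply intervalIntegral.integral_congr
        intro r hr
        rw [Set.uIcc_of_le (by linarith)] at hr
        have h6 : Real.arccos (Real.cos r) = r :=
          Real.arccos_cos (by linarith [hr.1, hθ.2]) (by linarith [hr.2, hθ.2])
        simp only [one_mul]
        rw [h6, zpow_neg]
        rfl
      have h7 : ∫ x in (-Real.sin θ)..(Real.sin θ), ((gamma h (Real.arccos x)) ^ 3)⁻¹ =
          Real.sin θ * Isec h (Real.sin θ) := by
        have h8 := intervalIntegral.mul_integral_comp_mul_left (a := -1) (b := 1)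
          (f := fun x => ((gamma h (Real.arccos x)) ^ 3)⁻¹) (Real.sin θ)
        unfold Isec
        rw [h8, mul_neg, mul_one]
      have h9 := heq θ ⟨h1, hθ.2⟩
      rw [h3, h7] at h9
      have h10 : Real.sin θ * ((h θ + h (π - θ)) * Isec h (Real.sin θ)) = Real.sin θ * 4 := by
        linarith
      exact mul_left_cancel₀ hs.ne' h10
  rcases le_or_gt θ (π / 2) with h1 | h1
  · exact key θ ⟨hθ.1, h1⟩
  · have h2 := key (π - θ) ⟨by linarith [hθ.2], by linarith⟩
    rw [sub_sub_cancel, Real.sin_pi_sub] at h2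
    rw [← h2]
    ring

end main2

/-! ### Support function -/

section supp

variable {h h' : ℝ → ℝ}

/-- The angle between the axis and a unit vector. -/
noncomputable def ang (u : E 4) : ℝ := Real.arccos (inner ℝ ax u)

lemma ang_mem (u : E 4) : ang u ∈ Icc 0 π := ⟨Real.arccos_nonneg _, Real.arccos_le_pi _⟩

lemma cos_ang {u : E 4} (hu : ‖u‖ = 1) : Real.cos (ang u) = inner ℝ ax u := by
  have h1 := abs_le.mp (abs_inner_ax u)
  rw [hu] at h1
  exact Real.cos_arccos h1.1 h1.2

lemma ang_neg (u : E 4) : ang (-u) = π - ang u := by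
  unfold ang
  rw [inner_neg_right, Real.arccos_neg]

lemma perp_norm {u : E 4} (hu : ‖u‖ = 1) :
    ‖u - (inner ℝ ax u : ℝ) • ax‖ = Real.sin (ang u) := by
  have h1 : 0 ≤ Real.sin (ang u) := Real.sin_nonneg_of_mem_Icc (ang_mem u)
  have h2 : ‖u - (inner ℝ ax u : ℝ) • ax‖ ^ 2 = Real.sin (ang u) ^ 2 := by
    rw [norm_perp_sq, hu, Real.sin_sq, cos_ang hu]
    ring
  exact (pow_left_inj₀ (norm_nonneg _) h1 (by norm_num)).mp h2

lemma supp_le {u : E 4} (hu : ‖u‖ = 1) {x : E 4} (hx : x ∈ body h) :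
    (inner ℝ x u : ℝ) ≤ h (ang u) := by
  have h1 := hx _ (ang_mem u)
  rw [cos_ang hu, ← perp_norm hu] at h1
  have h2 : (inner ℝ x u : ℝ) = inner ℝ (x - (inner ℝ ax x : ℝ) • ax) (u - (inner ℝ ax u : ℝ) • ax) +
      (inner ℝ ax x : ℝ) * inner ℝ ax u := by
    rw [inner_sub_left, inner_sub_right, inner_sub_right, inner_smul_left, inner_smul_left,
      inner_smul_right, inner_smul_right, inner_ax_ax, real_inner_comm ax x]
    simp only [conj_trivial]
    ring
  have h3 := real_inner_le_norm (x - (inner ℝ ax x : ℝ) • ax) (u - (inner ℝ ax u : ℝ) • ax)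
  linarith

lemma supp_attained
    (hconv : ∀ θ ∈ Icc 0 π, ∀ φ ∈ Icc 0 π,
      h θ * Real.cos (φ - θ) + h' θ * Real.sin (φ - θ) ≤ h φ)
    (hr : ∀ θ ∈ Icc 0 π, 0 ≤ h θ * Real.sin θ + h' θ * Real.cos θ)
    {u : E 4} (hu : ‖u‖ = 1) : ∃ x ∈ body h, (inner ℝ x u : ℝ) = h (ang u) := by
  set θ := ang u with hθdef
  have hθ : θ ∈ Icc 0 π := ang_mem u
  have hc : Real.cos θ = inner ℝ ax u := cos_ang hu
  have hs : ‖u - (inner ℝ ax u : ℝ) • ax‖ = Real.sin θ := perp_norm hu
  set w : E 4 := u - (inner ℝ ax u : ℝ) • ax with hw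
  have haw : (inner ℝ ax w : ℝ) = 0 := by
    rw [hw, inner_sub_right, inner_smul_right, inner_ax_ax]
    ring
  have hdec : u = Real.cos θ • ax + w := by
    rw [hw, hc]
    abel
  have hww : (inner ℝ w w : ℝ) = Real.sin θ ^ 2 := by
    rw [real_inner_self_eq_norm_sq, hs]
  have hs0 : 0 ≤ Real.sin θ := Real.sin_nonneg_of_mem_Icc hθ
  have hsc := Real.sin_sq_add_cos_sq θ
  rcases hs0.eq_or_lt with h0 | h0
  · -- the poles
    have hw0 : w = 0 := by
      rw [← norm_eq_zero, hs, ← h0]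
    refine ⟨h θ • u, ?_, ?_⟩
    · intro φ hφ
      have h1 : (inner ℝ ax (h θ • u) : ℝ) = h θ * Real.cos θ := by
        rw [inner_smul_right, ← hc]
      have h2 : h θ • u - (inner ℝ ax (h θ • u) : ℝ) • ax = 0 := by
        rw [h1, hdec, hw0]
        simp only [add_zero]
        rw [smul_smul, sub_self]
      rw [h2, h1, norm_zero, zero_mul, zero_add]
      have h3 := hconv θ hθ φ hφ
      have h4 := hr θ hθ
      rw [Real.cos_sub, Real.sin_sub] at h3
      rw [← h0] at h3 h4
      have h5 : 0 ≤ Real.sin φ := Real.sin_nonneg_of_mem_Icc hφ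
      have h6 : 0 ≤ (h' θ * Real.cos θ) * Real.sin φ := mul_nonneg (by linarith) h5
      nlinarith
    · rw [inner_smul_left, real_inner_self_eq_norm_sq, hu]
      simp
  · set x : E 4 := (h θ * Real.cos θ - h' θ * Real.sin θ) • ax +
      ((h θ * Real.sin θ + h' θ * Real.cos θ) / Real.sin θ) • w with hx
    have h1 : (inner ℝ ax x : ℝ) = h θ * Real.cos θ - h' θ * Real.sin θ := by
      rw [hx, inner_add_right, inner_smul_right, inner_smul_right, haw, inner_ax_ax]
      ring
    have h2 : ‖x - (inner ℝ ax x : ℝ) • ax‖ = h θ * Real.sin θ + h' θ * Real.cos θ := by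
      rw [h1, hx, add_sub_cancel_left, norm_smul, hs, Real.norm_of_nonneg
        (div_nonneg (hr θ hθ) hs0)]
      field_simp
    refine ⟨x, ?_, ?_⟩
    · intro φ hφ
      rw [h2, h1]
      have h3 := hconv θ hθ φ hφ
      rw [Real.cos_sub, Real.sin_sub] at h3
      linarith
    · have h3 : (inner ℝ x u : ℝ) = Real.cos θ * inner ℝ ax x +
          ((h θ * Real.sin θ + h' θ * Real.cos θ) / Real.sin θ) * inner ℝ w w := by
        rw [hdec, inner_add_right, inner_smul_right, real_inner_comm ax x]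
        congr 1
        rw [hx, inner_add_left, inner_smul_left, inner_smul_left, haw]
        simp
      rw [h3, h1, hww]
      field_simp
      linear_combination (h θ) * hsc

end supp

/-! ### Central symmetral, polar body and the final statement -/

section final

lemma exists_unit_ang {θ : ℝ} (hθ : θ ∈ Icc 0 π) : ∃ u : E 4, ‖u‖ = 1 ∧ ang u = θ := by
  set f : E 4 := EuclideanSpace.single 1 1 with hf
  have hff : (inner ℝ f f : ℝ) = 1 := by
    rw [real_inner_self_eq_norm_sq, hf]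
    simp
  have haf : (inner ℝ ax f : ℝ) = 0 := by
    rw [hf, ax, EuclideanSpace.inner_single_left]
    simp
  set u : E 4 := Real.cos θ • ax + Real.sin θ • f with hu
  have h1 : (inner ℝ u u : ℝ) = 1 := by
    rw [hu, inner_add_left, inner_add_right, inner_add_right]
    simp only [inner_smul_left, inner_smul_right, inner_ax_ax, hff, haf, real_inner_comm ax f,
      conj_trivial]
    have := Real.sin_sq_add_cos_sq θ
    linear_combination this
  refine ⟨u, ?_, ?_⟩
  · rw [real_inner_self_eq_norm_sq] at h1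
    have h2 : ‖u‖ ^ 2 = 1 ^ 2 := by rw [h1]; norm_num
    exact (pow_left_inj₀ (norm_nonneg _) zero_le_one (by norm_num)).mp h2
  · unfold ang
    have h2 : (inner ℝ ax u : ℝ) = Real.cos θ := by
      rw [hu, inner_add_right, inner_smul_right, inner_smul_right, inner_ax_ax, haf]
      ring
    rw [h2, Real.arccos_cos hθ.1 hθ.2]

variable {h h' : ℝ → ℝ}

lemma mem_symmetral_iff (hpos : ∀ θ ∈ Icc 0 π, 1 / 2 ≤ h θ ∧ h θ ≤ 2)
    (hconv : ∀ θ ∈ Icc 0 π, ∀ φ ∈ Icc 0 π,
      h θ * Real.cos (φ - θ) + h' θ * Real.sin (φ - θ) ≤ h φ)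
    (hr : ∀ θ ∈ Icc 0 π, 0 ≤ h θ * Real.sin θ + h' θ * Real.cos θ) (z : E 4) :
    z ∈ symmetral (body h) ↔
      ∀ u : E 4, ‖u‖ = 1 → (inner ℝ z u : ℝ) ≤ (h (ang u) + h (π - ang u)) / 2 := by
  constructor
  · rintro ⟨a, ha, b, hb, rfl⟩ u hu
    have h1 := supp_le hu ha
    have h2 := supp_le (u := -u) (by rw [norm_neg, hu]) hb
    rw [ang_neg, inner_neg_right] at h2
    rw [inner_smul_left, inner_add_left, inner_neg_left]
    simp only [conj_trivial]
    linarith
  · intro H
    by_contra hz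
    have hKc := body_compact hpos
    have himg : symmetral (body h) =
        (fun p : E 4 × E 4 => (1 / 2 : ℝ) • (p.1 + (-p.2))) '' (body h ×ˢ body h) := by
      ext x
      constructor
      · rintro ⟨a, ha, b, hb, rfl⟩
        exact ⟨(a, b), ⟨ha, hb⟩, rfl⟩
      · rintro ⟨⟨a, b⟩, ⟨ha, hb⟩, rfl⟩
        exact ⟨a, ha, b, hb, rfl⟩
    have hcomp : IsCompact (symmetral (body h)) := by
      rw [himg]
      exact (hKc.prod hKc).image (by fun_prop)
    have hcvx : Convex ℝ (symmetral (body h)) := by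
      rintro _ ⟨a, ha, b, hb, rfl⟩ _ ⟨c, hc, d, hd, rfl⟩ s t hs ht hst
      refine ⟨s • a + t • c, body_convex ha hc hs ht hst, s • b + t • d,
        body_convex hb hd hs ht hst, ?_⟩
      module
    obtain ⟨f, c, hf1, hf2⟩ := geometric_hahn_banach_closed_point hcvx hcomp.isClosed hz
    set w : E 4 := (InnerProductSpace.toDual ℝ (E 4)).symm f with hw
    have hfw : ∀ x, f x = inner ℝ w x := fun x => by
      rw [hw, InnerProductSpace.toDual_symm_apply]
    have hw0 : w ≠ 0 := by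
      intro h0
      obtain ⟨x0, hx0⟩ : (symmetral (body h)).Nonempty := by
        have h00 : (0 : E 4) ∈ body h := interior_subset (zero_mem_interior hpos)
        exact ⟨_, 0, h00, 0, h00, rfl⟩
      have h1 := hf1 x0 hx0
      rw [hfw, h0, inner_zero_left] at h1 hf2
      linarith
    have hwn : 0 < ‖w‖ := norm_pos_iff.mpr hw0
    set u : E 4 := (‖w‖)⁻¹ • w with hu
    have hu1 : ‖u‖ = 1 := by
      rw [hu, norm_smul, norm_inv, norm_norm, inv_mul_cancel₀ hwn.ne']
    have hwu : w = ‖w‖ • u := by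
      rw [hu, smul_smul, mul_inv_cancel₀ hwn.ne', one_smul]
    obtain ⟨a, ha, hau⟩ := supp_attained hconv hr hu1
    obtain ⟨b, hb, hbu⟩ := supp_attained hconv hr (u := -u) (by rw [norm_neg, hu1])
    rw [ang_neg, inner_neg_right] at hbu
    have h1 := hf1 _ ⟨a, ha, b, hb, rfl⟩
    have h2 := H u hu1
    rw [hfw, hwu, real_inner_comm, inner_smul_right, inner_smul_left, inner_add_left,
      inner_neg_left] at h1
    rw [hfw, hwu, real_inner_comm, inner_smul_right] at hf2
    simp only [conj_trivial] at h1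
    have h3 : ‖w‖ * ((1 / 2) * (inner ℝ a u + -(inner ℝ b u : ℝ))) < ‖w‖ * inner ℝ z u :=
      h1.trans hf2
    have h4 := lt_of_mul_lt_mul_left h3 hwn.le
    linarith

lemma no_center
    (hconv : ∀ θ ∈ Icc 0 π, ∀ φ ∈ Icc 0 π,
      h θ * Real.cos (φ - θ) + h' θ * Real.sin (φ - θ) ≤ h φ)
    (hr : ∀ θ ∈ Icc 0 π, 0 ≤ h θ * Real.sin θ + h' θ * Real.cos θ)
    (h0 : h 0 = 1) (hpi : h π = 1)
    (hasym : ∃ θ ∈ Icc 0 π, h θ ≠ h (π - θ)) (p : E 4) :
    ∃ x ∈ body h, (2 : ℝ) • p - x ∉ body h := by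
  by_contra hcon
  push Not at hcon
  have key : ∀ u : E 4, ‖u‖ = 1 → h (ang u) - h (π - ang u) = 2 * inner ℝ p u := by
    intro u hu
    obtain ⟨x, hx, hxu⟩ := supp_attained hconv hr hu
    have h1 := supp_le (u := -u) (by rw [norm_neg, hu]) (hcon x hx)
    rw [ang_neg, inner_neg_right, inner_sub_left, inner_smul_left, hxu] at h1
    obtain ⟨y, hy, hyu⟩ := supp_attained hconv hr (u := -u) (by rw [norm_neg, hu])
    have h2 := supp_le hu (hcon y hy)
    rw [ang_neg, inner_neg_right] at hyu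
    rw [inner_sub_left, inner_smul_left] at h2
    simp only [conj_trivial] at h1 h2
    linarith
  have hax : (inner ℝ p ax : ℝ) = 0 := by
    have h1 := key ax norm_ax
    have h2 : ang ax = 0 := by
      unfold ang
      rw [inner_ax_ax, Real.arccos_one]
    rw [h2, h0, sub_zero, hpi] at h1
    linarith
  have hp0 : p = 0 := by
    by_contra hne
    have hn : 0 < ‖p‖ := norm_pos_iff.mpr hne
    have hu : ‖(‖p‖)⁻¹ • p‖ = 1 := by
      rw [norm_smul, norm_inv, norm_norm, inv_mul_cancel₀ hn.ne']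
    have h1 := key _ hu
    have h2 : ang ((‖p‖)⁻¹ • p) = π / 2 := by
      unfold ang
      rw [inner_smul_right, real_inner_comm, hax, mul_zero, Real.arccos_zero]
    rw [h2, show π - π / 2 = π / 2 by ring, sub_self, inner_smul_right,
      real_inner_self_eq_norm_sq] at h1
    have h3 : 0 < (‖p‖)⁻¹ * ‖p‖ ^ 2 := by positivity
    linarith
  obtain ⟨θ, hθ, hne⟩ := hasym
  obtain ⟨u, hu, hang⟩ := exists_unit_ang hθ
  have h1 := key u hu
  rw [hang, hp0, inner_zero_left, mul_zero] at h1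
  exact hne (by linarith)

/-- The geometric part: an analytic profile gives the counterexample. -/
theorem geometry (h h' : ℝ → ℝ) (_hc : ContinuousOn h (Icc 0 π))
    (hpos : ∀ θ ∈ Icc 0 π, 1 / 2 ≤ h θ ∧ h θ ≤ 2)
    (hconv : ∀ θ ∈ Icc 0 π, ∀ φ ∈ Icc 0 π,
      h θ * Real.cos (φ - θ) + h' θ * Real.sin (φ - θ) ≤ h φ)
    (hr : ∀ θ ∈ Icc 0 π, 0 ≤ h θ * Real.sin θ + h' θ * Real.cos θ)
    (heq : ∀ θ ∈ Ioc 0 (π / 2), (h θ + h (π - θ)) *
      ∫ r in (π / 2 - θ)..(π / 2 + θ), (gamma h r) ^ (-3 : ℤ) * Real.sin r = 4 * Real.sin θ)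
    (h0 : h 0 = 1) (hpi : h π = 1) (hg : gamma h (π / 2) = 1)
    (hasym : ∃ θ ∈ Icc 0 π, h θ ≠ h (π - θ)) : FinalStatement := by
  have hsec : ∀ u : E 4, ‖u‖ = 1 → secVol (body h) u = 8 * π / 3 / (h (ang u) + h (π - ang u)) := by
    intro u hu
    have h1 := Isec_eq hpos heq h0 hpi hg (ang_mem u)
    have h2 := (hpos _ (ang_mem u)).1
    have h3 := (hpos (π - ang u) ⟨by linarith [(ang_mem u).2], by linarith [(ang_mem u).1]⟩).1
    have h4 : 0 < h (ang u) + h (π - ang u) := by linarith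
    rw [secVol_body hpos u hu, eq_div_iff h4.ne']
    show 2 * π / 3 * Isec h (Real.sin (ang u)) * _ = _
    linear_combination (2 * π / 3) * h1
  have hsumpos : ∀ u : E 4, 0 < h (ang u) + h (π - ang u) := by
    intro u
    have h2 := (hpos _ (ang_mem u)).1
    have h3 := (hpos (π - ang u) ⟨by linarith [(ang_mem u).2], by linarith [(ang_mem u).1]⟩).1
    linarith
  have hsecpos : ∀ u : E 4, ‖u‖ = 1 → 0 < secVol (body h) u := by
    intro u hu
    rw [hsec u hu]
    have := hsumpos u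
    positivity
  refine ⟨body h, ⟨body_convex, body_compact hpos, ⟨0, zero_mem_interior hpos⟩⟩,
    zero_mem_interior hpos, hsecpos, ?_, no_center hconv hr h0 hpi hasym, ?_⟩
  · refine ⟨0, 3 / (4 * π), by positivity, ?_⟩
    have hpolar : ∀ z : E 4, z ∈ polarBody (interBody (body h)) ↔
        ∀ u : E 4, ‖u‖ = 1 → secVol (body h) u * (inner ℝ z u : ℝ) ≤ 1 := by
      intro z
      constructor
      · intro H u hu
        have := H (secVol (body h) u • u) ⟨u, hu, _, (hsecpos u hu).le, le_rfl, rfl⟩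
        rwa [inner_smul_right] at this
      · rintro H _ ⟨u, hu, r, hr0, hr1, rfl⟩
        rw [inner_smul_right]
        have h1 := H u hu
        rcases le_or_gt (inner ℝ z u : ℝ) 0 with h2 | h2
        · nlinarith
        · nlinarith
    ext z
    rw [hpolar]
    have hkey : (∀ u : E 4, ‖u‖ = 1 → secVol (body h) u * (inner ℝ z u : ℝ) ≤ 1) ↔
        (4 * π / 3) • z ∈ symmetral (body h) := by
      rw [mem_symmetral_iff hpos hconv hr]
      apply forall_congr'
      intro u
      apply imp_congr_right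
      intro hu
      have h1 := hsumpos u
      rw [hsec u hu, inner_smul_left, div_mul_eq_mul_div, div_le_one h1]
      simp only [conj_trivial]
      constructor
      · intro h2
        linarith
      · intro h2
        linarith
    rw [hkey]
    constructor
    · intro hz
      refine ⟨_, hz, ?_⟩
      simp only [zero_add]
      rw [smul_smul]
      have : 3 / (4 * π) * (4 * π / 3) = 1 := by field_simp
      rw [this, one_smul]
    · rintro ⟨b, hb, rfl⟩
      simp only [zero_add]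
      rw [smul_smul]
      have : 4 * π / 3 * (3 / (4 * π)) = 1 := by field_simp
      rw [this, one_smul]
      exact hb
  · rintro ⟨T, hT⟩
    have hsymm : ∀ x ∈ body h, -x ∈ body h := by
      intro x hx
      rw [hT] at hx ⊢
      obtain ⟨y, hy, rfl⟩ := hx
      refine ⟨-y, ?_, by rw [map_neg]⟩
      rw [Metric.mem_closedBall, dist_zero_right] at hy ⊢
      rwa [norm_neg]
    have hle : ∀ θ ∈ Icc 0 π, h θ ≤ h (π - θ) := by
      intro θ hθ
      obtain ⟨u, hu, hang⟩ := exists_unit_ang hθ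
      obtain ⟨x, hx, hxu⟩ := supp_attained hconv hr hu
      have h1 := supp_le (u := -u) (by rw [norm_neg, hu]) (hsymm x hx)
      rw [ang_neg, inner_neg_neg, hxu, hang] at h1
      exact h1
    obtain ⟨θ, hθ, hne⟩ := hasym
    apply hne
    apply le_antisymm (hle θ hθ)
    have := hle (π - θ) ⟨by linarith [hθ.2], by linarith [hθ.1]⟩
    rwa [sub_sub_cancel] at this

end final

end Pool.Agent.Helper363.Geom

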