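import Pool.Agent.Helper363.Reg
import Pool.Agent.Helper363.Bumps
import Pool.Agent.Helper363.Geom

/-! Final assembly. -/

set_option autoImplicit false

namespace Pool.Agent.Helper363

open Set
open Pool.Agent.Helper363.Geom (gamma le_gamma im_nonempty gamma_cont geometry FinalStatement)

/-- a zero of the residual -/
theorem exists_zero : ∃ (φ φ' : ℝ → ℝ) (h : Bump φ φ'), kap h = 0 ∧ φ al = 0 ∧ φ be = 0 ∧
    ∃ x ∈ J, φ x ≠ 0 := by
  obtain ⟨φN, φN', φQ, φQ', hN, hQ, sN, sQ, iN, iQ, Na, Nb, Qa, Qb, N0, Q0, cN, cQ⟩ := bumps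
  -- the family
  set c : ℝ → ℝ := fun τ => max 0 (min 1 τ) with hc
  have c0 : ∀ τ, 0 ≤ c τ := fun τ => le_max_left _ _
  have c1 : ∀ τ, c τ ≤ 1 := fun τ => max_le (by norm_num) (min_le_left _ _)
  have cl1 : ∀ τ σ, |c τ - c σ| ≤ |τ - σ| := by
    intro τ σ
    have h1 := abs_max_sub_max_le_max 0 (min 1 τ) 0 (min 1 σ)
    have h2 := abs_min_sub_min_le_max 1 τ 1 σ
    simp only [sub_self, abs_zero] at h1 h2
    exact h1.trans (max_le (abs_nonneg _) (h2.trans (max_le (abs_nonneg _) le_rfl)))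
  let H : ∀ τ : ℝ, Bump (fun x => (1 - c τ) * φN x + c τ * φQ x)
    (fun x => (1 - c τ) * φN' x + c τ * φQ' x) := fun τ => Bump.mix hN hQ (c0 τ) (c1 τ)
  let K : ℝ → ℝ := fun τ => kap (H τ)
  have Kc : Continuous K := by
    have : LipschitzWith (2 * 10 ^ 5) K := by
      apply LipschitzWith.of_dist_le_mul
      intro τ σ
      have h1 := kap_dist (H τ) (H σ) (R := 2 * |τ - σ|) (fun θ _ => by
        unfold dl
        have e : del * ((1 - c τ) * φN θ + c τ * φQ θ) - del * ((1 - c σ) * φN θ + c σ * φQ θ) =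
          del * ((c τ - c σ) * (φQ θ - φN θ)) := by ring
        rw [e, abs_mul, abs_mul, abs_of_pos del_pos]
        have h2 := cl1 τ σ
        have h3 : |φQ θ - φN θ| ≤ 2 := by
          have a1 := abs_le.1 (hN.b θ)
          have a2 := abs_le.1 (hQ.b θ)
          rw [abs_le]
          constructor <;> linarith
        have h4 := del_pos
        have h5 : del ≤ 1 := del_le.trans (by norm_num)
        have h6 := abs_nonneg (τ - σ)
        calc del * (|c τ - c σ| * |φQ θ - φN θ|) ≤ 1 * (|τ - σ| * 2) := by gcongr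
          _ = 2 * |τ - σ| := by ring)
      rw [Real.dist_eq, Real.dist_eq]
      refine h1.trans (le_of_eq ?_)
      simp only [NNReal.coe_mul, NNReal.coe_ofNat, NNReal.coe_pow]
      ring
    exact this.continuous
  have e0 : c 0 = 0 := by simp [hc]
  have e1 : c 1 = 1 := by simp [hc]
  have K0 : K 0 < 0 := by
    apply DDw_upper (H 0)
    · intro r hr h3
      obtain ⟨a1, a2⟩ := sN r hr h3
      simp [e0, a1, a2]
    · simp only [e0]
      simpa using iN
    · simp only [e0]
      simpa using cN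
  have K1 : 0 < K 1 := by
    apply DDw_lower (H 1)
    · intro r hr h3
      obtain ⟨a1, a2⟩ := sQ r hr h3
      simp [e1, a1, a2]
    · simp only [e1]
      simpa using iQ
    · simp only [e1]
      simpa using cQ
  obtain ⟨τ, -, hτ⟩ := intermediate_value_Icc (by norm_num : (0 : ℝ) ≤ 1) Kc.continuousOn
    (show (0 : ℝ) ∈ Icc (K 0) (K 1) from ⟨K0.le, K1.le⟩)
  refine ⟨_, _, H τ, hτ, by simp [Na, Qa], by simp [Nb, Qb], ?_⟩
  have hpi := pi_gt
  have hpi2 := pi_lt
  have m1 : (7 / 20 : ℝ) ∈ J := ⟨by unfold al; norm_num, by unfold be; linarith⟩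
  have m2 : Real.pi / 2 - 7 / 20 ∈ J := refl_mem m1
  by_cases hcτ : c τ = 1
  · refine ⟨Real.pi / 2 - 7 / 20, m2, ?_⟩
    simp only [hcτ]
    simpa using Q0.ne'
  · refine ⟨7 / 20, m1, ?_⟩
    have z := (sQ _ m1 (by linarith)).1
    simp only [z, mul_zero, add_zero]
    apply mul_ne_zero _ N0.ne'
    intro hcon
    exact hcτ (by linarith)

lemma cl_low {x : ℝ} (h : x ≤ al) : cl x = al := by
  unfold cl
  rw [max_eq_left]
  exact (min_le_left _ _).trans h

lemma cl_high {x : ℝ} (h : be ≤ x) : cl x = be := by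
  unfold cl
  rw [min_eq_right h, max_eq_right al_lt_be.le]

lemma hpos_of {H : ℝ → ℝ} (hs : ∀ θ ∈ Icc 0 Real.pi, |H θ - 1| ≤ 1 / 10 ^ 3) :
    ∀ θ ∈ Icc 0 Real.pi, 1 / 2 ≤ H θ ∧ H θ ≤ 2 := by
  intro θ hθ
  have := abs_le.1 (hs θ hθ)
  constructor
  · norm_num at this ⊢
    linarith
  · norm_num at this ⊢
    linarith

lemma J_sub {x : ℝ} (hx : x ∈ J) : x ∈ Icc 0 Real.pi :=
  ⟨(J_pos hx).le, by have := J_lt hx; have := pi_gt; linarith⟩

lemma gamma_ident {H p : ℝ → ℝ} (hp : ContinuousOn p J) (hb : ∀ θ ∈ J, |p θ - 1| ≤ 7 * del)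
    (hpa : p al = 1) (hpb : p be = 1) (hJ : ∀ θ ∈ J, 1 / H θ = p θ)
    (h1 : ∀ θ, θ ≤ al → H θ = 1) (h2 : ∀ θ, be ≤ θ → θ ≤ Real.pi - be → H θ = 1)
    (hs : ∀ θ ∈ Icc 0 Real.pi, |H θ - 1| ≤ 1 / 10 ^ 3) {r : ℝ} (hr : r ∈ J) :
    gamma H r = gam p r := by
  have hpos := hpos_of hs
  have hpi := pi_gt
  have hpi2 := pi_lt
  have hr1 := J_pos hr
  have hr2 := J_lt hr
  apply le_antisymm
  · apply csSup_le (im_nonempty r)
    rintro _ ⟨θ, hθ, rfl⟩
    simp only
    rcases le_total θ al with ha | ha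
    · rw [h1 θ ha, div_one]
      have k1 := le_gam hp r al_mem
      rw [hpa, one_mul] at k1
      refine le_trans ?_ k1
      rw [← Real.cos_neg (θ - r), ← Real.cos_neg (al - r)]
      apply Real.cos_le_cos_of_nonneg_of_le_pi
      · have := hr.1; linarith
      · have := hθ.1; linarith
      · linarith
    · rcases le_total θ be with hb' | hb'
      · have hθJ : θ ∈ J := ⟨ha, hb'⟩
        have k1 := le_gam hp r hθJ
        rw [← hJ θ hθJ] at k1
        rw [one_div_mul_eq_div] at k1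
        exact k1
      · rcases le_total θ (Real.pi - be) with hc | hc
        · rw [h2 θ hb' hc, div_one]
          have k1 := le_gam hp r be_mem
          rw [hpb, one_mul] at k1
          refine le_trans ?_ k1
          apply Real.cos_le_cos_of_nonneg_of_le_pi
          · have := hr.2; linarith
          · have := hθ.2; linarith
          · linarith
        · have k0 : Real.cos (θ - r) ≤ Real.cos (2 / 5) := by
            apply Real.cos_le_cos_of_nonneg_of_le_pi
            · norm_num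
            · have := hθ.2; linarith
            · have := hr.2
              unfold be at hc this
              linarith
          have k1 : Real.cos (2 / 5) ≤ 1 - 0.2 * (2 / 5) ^ 2 :=
            cos_le_02 (by rw [abs_of_pos (by norm_num)]; linarith)
          have k2 := gam_ge' hp hb hr
          have k3 := abs_le.1 (hs θ hθ)
          have k4 := del_le
          have k5 : 0 < H θ := by have := (hpos θ hθ).1; linarith
          rw [div_le_iff₀ k5]
          have k6 : 0.99 * 0.99 ≤ gam p r * H θ := by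
            apply mul_le_mul
            · linarith
            · linarith
            · norm_num
            · linarith
          norm_num at k1 k6
          linarith
  · have hne : ((fun θ => p θ * Real.cos (θ - r)) '' J).Nonempty := J_nonempty.image _
    apply csSup_le hne
    rintro _ ⟨θ, hθ, rfl⟩
    have k1 := le_gamma hpos (J_sub hθ) r
    simp only
    rw [← hJ θ hθ, one_div_mul_eq_div]
    exact k1

lemma gamma_refl (H : ℝ → ℝ) (r : ℝ) :
    gamma (fun θ => H (Real.pi - θ)) r = gamma H (Real.pi - r) := by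
  unfold gamma
  congr 1
  ext z
  constructor
  · rintro ⟨θ, hθ, rfl⟩
    refine ⟨Real.pi - θ, ⟨by linarith [hθ.2], by linarith [hθ.1]⟩, ?_⟩
    simp only
    rw [show Real.pi - θ - (Real.pi - r) = -(θ - r) by ring, Real.cos_neg]
  · rintro ⟨θ, hθ, rfl⟩
    refine ⟨Real.pi - θ, ⟨by linarith [hθ.2], by linarith [hθ.1]⟩, ?_⟩
    simp only
    rw [show Real.pi - θ - r = -(θ - (Real.pi - r)) by ring, Real.cos_neg,
      show Real.pi - (Real.pi - θ) = θ by ring]

section
variable {φ φ' : ℝ → ℝ} (h : Bump φ φ') (hk : kap h = 0) (ha : φ al = 0) (hb : φ be = 0)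
include hk ha hb

lemma hh_low {θ : ℝ} (hθ : θ ≤ Real.pi - be) : hh h θ = 1 + ff h 1 (cl θ) := by
  unfold hh
  rw [cl_high (by linarith : be ≤ Real.pi - θ), (ff_ends h hk ha hb (-1)).2.1, add_zero]

lemma hh_high {θ : ℝ} (hθ : be ≤ θ) : hh h θ = 1 + ff h (-1) (cl (Real.pi - θ)) := by
  unfold hh
  rw [cl_high hθ, (ff_ends h hk ha hb 1).2.1, add_zero]

lemma be_lt : be < Real.pi - be := by
  have := pi_gt
  unfold be
  linarith

lemma hh_J {θ : ℝ} (hθ : θ ∈ J) : hh h θ = hE (ys h) θ + dl φ θ := by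
  have hb1 := be_lt h hk ha hb
  rw [hh_low h hk ha hb (by linarith [hθ.2]), cl_of_mem hθ]
  unfold ff
  rw [EY_eq h hk hθ]
  ring

lemma hh_J' {θ : ℝ} (hθ : θ ∈ J) : hh h (Real.pi - θ) = hE (ys h) θ + - dl φ θ := by
  have hb1 := be_lt h hk ha hb
  rw [hh_high h hk ha hb (by linarith [hθ.2]), show Real.pi - (Real.pi - θ) = θ by ring,
    cl_of_mem hθ]
  unfold ff
  rw [EY_eq h hk hθ]
  ring

lemma hh_one1 {θ : ℝ} (hθ : θ ≤ al) : hh h θ = 1 := by
  have hb1 := be_lt h hk ha hb
  have := al_lt_be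
  rw [hh_low h hk ha hb (by linarith), cl_low hθ, (ff_ends h hk ha hb 1).1, add_zero]

lemma hh_one2 {θ : ℝ} (h1 : be ≤ θ) (h2 : θ ≤ Real.pi - be) : hh h θ = 1 := by
  rw [hh_low h hk ha hb h2, cl_high h1, (ff_ends h hk ha hb 1).2.1, add_zero]

lemma hh_one3 {θ : ℝ} (hθ : Real.pi - al ≤ θ) : hh h θ = 1 := by
  have hb1 := be_lt h hk ha hb
  have := al_lt_be
  rw [hh_high h hk ha hb (by linarith), cl_low (by linarith), (ff_ends h hk ha hb (-1)).1, add_zero]

lemma hh'_zero {θ : ℝ} (hθ : θ ≤ al ∨ (be ≤ θ ∧ θ ≤ Real.pi - be) ∨ Real.pi - al ≤ θ) :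
    hh' h θ = 0 := by
  have hb1 := be_lt h hk ha hb
  have := al_lt_be
  obtain ⟨-, -, z1, z2⟩ := ff_ends h hk ha hb 1
  obtain ⟨-, -, z3, z4⟩ := ff_ends h hk ha hb (-1)
  unfold hh'
  rcases hθ with hθ | ⟨h1, h2⟩ | hθ
  · rw [cl_low hθ, cl_high (by linarith : be ≤ Real.pi - θ), z1, z4, sub_zero]
  · rw [cl_high h1, cl_high (by linarith : be ≤ Real.pi - θ), z2, z4, sub_zero]
  · rw [cl_high (by linarith : be ≤ θ), cl_low (by linarith : Real.pi - θ ≤ al), z2, z3, sub_zero]

lemma pp_ends : pp (dl φ) (ys h) al = 1 ∧ pp (dl φ) (ys h) be = 1 ∧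
    pp (fun x => - dl φ x) (ys h) al = 1 ∧ pp (fun x => - dl φ x) (ys h) be = 1 := by
  have e1 := EY_eq h hk al_mem
  have e2 := EY_eq h hk be_mem
  rw [EY_al] at e1
  rw [EY_be h hk] at e2
  have f1 : hE (ys h) al = 1 := by linarith
  have f2 : hE (ys h) be = 1 := by linarith
  simp [pp, dl, f1, f2, ha, hb]

lemma gamma_up {r : ℝ} (hr : r ∈ J) : gamma (hh h) r = gam (pp (dl φ) (ys h)) r := by
  obtain ⟨p1, p2, -, -⟩ := pp_ends h hk ha hb
  apply gamma_ident (ys_adm h).cont (ys_adm h).bd p1 p2 _ _ _ _ hr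
  · intro θ hθ
    rw [hh_J h hk ha hb hθ]
    rfl
  · intro θ hθ
    exact hh_one1 h hk ha hb hθ
  · intro θ h1 h2
    exact hh_one2 h hk ha hb h1 h2
  · intro θ _
    exact hh_small h hk θ

lemma gamma_low {r : ℝ} (hr : r ∈ J) :
    gamma (hh h) (Real.pi - r) = gam (pp (fun x => - dl φ x) (ys h)) r := by
  obtain ⟨-, -, p1, p2⟩ := pp_ends h hk ha hb
  rw [← gamma_refl]
  apply gamma_ident (ys_adm h).neg.cont (ys_adm h).neg.bd p1 p2 _ _ _ _ hr
  · intro θ hθ
    rw [hh_J' h hk ha hb hθ]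
    rfl
  · intro θ hθ
    exact hh_one3 h hk ha hb (by linarith)
  · intro θ h1 h2
    exact hh_one2 h hk ha hb (by linarith) (by linarith)
  · intro θ _
    exact hh_small h hk _

lemma hconv_hh : ∀ θ ∈ Icc 0 Real.pi, ∀ ϕ ∈ Icc 0 Real.pi,
    hh h θ * Real.cos (ϕ - θ) + hh' h θ * Real.sin (ϕ - θ) ≤ hh h ϕ := by
  intro θ hθ ϕ hϕ
  apply conv_ineq (hh_d h hk ha hb) (hh'_lip h hk) (hh_small h hk) (hh'_small h hk)
  rw [abs_le]
  constructor <;> linarith [hθ.1, hθ.2, hϕ.1, hϕ.2]

lemma gamma_out {r : ℝ} (hr0 : r ∈ Icc 0 Real.pi) (h1 : hh h r = 1) (h2 : hh' h r = 0) :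
    gamma (hh h) r = 1 := by
  have hpos := hpos_of (fun θ _ => hh_small h hk θ)
  apply le_antisymm
  · apply csSup_le (im_nonempty r)
    rintro _ ⟨θ, hθ, rfl⟩
    simp only
    have k := hconv_hh h hk ha hb r hr0 θ hθ
    rw [h1, h2, one_mul, zero_mul, add_zero] at k
    have k5 : 0 < hh h θ := by have := (hpos θ hθ).1; linarith
    rw [div_le_one k5]
    exact k
  · have k := le_gamma hpos hr0 r
    rw [sub_self, Real.cos_zero, h1] at k
    simpa using k

/-- the symmetrised integrand -/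
lemma integrand {r : ℝ} (hr0 : 0 ≤ r) (hr1 : r ≤ Real.pi / 2) :
    (gamma (hh h) r) ^ (-3 : ℤ) * Real.sin r +
      (gamma (hh h) (Real.pi - r)) ^ (-3 : ℤ) * Real.sin (Real.pi - r) =
      2 * Real.sin r + 2 * Gf (dl φ) (ys h) r := by
  have hb1 := be_lt h hk ha hb
  have hlt := al_lt_be
  have hpi := pi_gt
  rw [Real.sin_pi_sub]
  have conv : ∀ x : ℝ, x ^ (-3 : ℤ) = x⁻¹ ^ 3 := by
    intro x
    rw [zpow_neg, inv_pow]
    norm_cast
  obtain ⟨g1, g2⟩ := gg_ends h hk ha hb
  by_cases hJ : r ∈ J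
  · rw [gamma_up h hk ha hb hJ, gamma_low h hk ha hb hJ, conv, conv]
    unfold Gf gg
    rw [cl_of_mem hJ]
    ring
  · have hcase : r < al ∨ be < r := by
      by_contra hcon
      push Not at hcon
      exact hJ ⟨hcon.1, hcon.2⟩
    rcases hcase with hc | hc
    · have o1 : gamma (hh h) r = 1 := gamma_out h hk ha hb ⟨hr0, by linarith⟩
        (hh_one1 h hk ha hb hc.le) (hh'_zero h hk ha hb (Or.inl hc.le))
      have o2 : gamma (hh h) (Real.pi - r) = 1 := gamma_out h hk ha hb
        ⟨by linarith, by linarith⟩ (hh_one3 h hk ha hb (by linarith))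
        (hh'_zero h hk ha hb (Or.inr (Or.inr (by linarith))))
      rw [o1, o2]
      unfold Gf
      rw [cl_low hc.le, g1]
      norm_num
      ring
    · have hbe : r ≤ Real.pi - be := by
        have : be ≤ Real.pi / 2 := by unfold be; linarith
        linarith
      have hbe2 : Real.pi - r ≤ Real.pi - be := by linarith
      have hbe3 : be ≤ Real.pi - r := by
        have : be ≤ Real.pi / 2 := by unfold be; linarith
        linarith
      have o1 : gamma (hh h) r = 1 := gamma_out h hk ha hb ⟨hr0, by linarith⟩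
        (hh_one2 h hk ha hb hc.le hbe) (hh'_zero h hk ha hb (Or.inr (Or.inl ⟨hc.le, hbe⟩)))
      have o2 : gamma (hh h) (Real.pi - r) = 1 := gamma_out h hk ha hb
        ⟨by linarith, by linarith⟩ (hh_one2 h hk ha hb hbe3 hbe2)
        (hh'_zero h hk ha hb (Or.inr (Or.inl ⟨hbe3, hbe2⟩)))
      rw [o1, o2]
      unfold Gf
      rw [cl_high hc.le, g2]
      norm_num
      ring

lemma Gf_low {r : ℝ} (hr : r ≤ al) : Gf (dl φ) (ys h) r = 0 := by
  unfold Gf
  rw [cl_low hr, (gg_ends h hk ha hb).1, zero_mul]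

lemma Gf_high {r : ℝ} (hr : be ≤ r) : Gf (dl φ) (ys h) r = 0 := by
  unfold Gf
  rw [cl_high hr, (gg_ends h hk ha hb).2, zero_mul]

lemma int_total {θ : ℝ} (h0 : 0 ≤ θ) (h1 : θ ≤ Real.pi / 2) :
    ∫ r in (Real.pi / 2 - θ)..(Real.pi / 2 + θ), (gamma (hh h) r) ^ (-3 : ℤ) * Real.sin r =
      2 * (Real.sin θ + YY h θ) := by
  have hpi := Real.pi_pos
  have hpos := hpos_of (fun θ _ => hh_small h hk θ)
  set Γ : ℝ → ℝ := fun r => (gamma (hh h) r) ^ (-3 : ℤ) * Real.sin r with hΓ
  have hGc := Gf_cont (ys_adm h)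
  have Γc : ContinuousOn Γ (Icc 0 Real.pi) := by
    apply ContinuousOn.mul _ Real.continuous_sin.continuousOn
    apply ContinuousOn.zpow₀ (gamma_cont hpos).continuousOn
    intro r hr
    left
    have := Pool.Agent.Helper363.Geom.half_le_gamma hpos hr
    linarith
  have i1 : IntervalIntegrable Γ MeasureTheory.volume (Real.pi / 2 - θ) (Real.pi / 2) := by
    apply ContinuousOn.intervalIntegrable
    apply Γc.mono
    rw [uIcc_of_le (by linarith)]
    intro x hx
    exact ⟨by linarith [hx.1], by linarith [hx.2]⟩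
  have i2 : IntervalIntegrable Γ MeasureTheory.volume (Real.pi / 2) (Real.pi / 2 + θ) := by
    apply ContinuousOn.intervalIntegrable
    apply Γc.mono
    rw [uIcc_of_le (by linarith)]
    intro x hx
    exact ⟨by linarith [hx.1], by linarith [hx.2]⟩
  have i3 : IntervalIntegrable (fun r => Γ (Real.pi - r)) MeasureTheory.volume
      (Real.pi / 2 - θ) (Real.pi / 2) := by
    have := i2.comp_sub_left Real.pi
    rw [show Real.pi - Real.pi / 2 = Real.pi / 2 by ring,
      show Real.pi - (Real.pi / 2 + θ) = Real.pi / 2 - θ by ring] at this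
    exact this.symm
  have e2 : ∫ r in (Real.pi / 2)..(Real.pi / 2 + θ), Γ r =
      ∫ r in (Real.pi / 2 - θ)..(Real.pi / 2), Γ (Real.pi - r) := by
    rw [intervalIntegral.integral_comp_sub_left (fun r => Γ r) Real.pi]
    rw [show Real.pi - Real.pi / 2 = Real.pi / 2 by ring,
      show Real.pi - (Real.pi / 2 - θ) = Real.pi / 2 + θ by ring]
  rw [← intervalIntegral.integral_add_adjacent_intervals i1 i2, e2,
    ← intervalIntegral.integral_add i1 i3]
  have e3 : ∫ r in (Real.pi / 2 - θ)..(Real.pi / 2), (Γ r + Γ (Real.pi - r)) =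
      ∫ r in (Real.pi / 2 - θ)..(Real.pi / 2), (2 * Real.sin r + 2 * Gf (dl φ) (ys h) r) := by
    apply intervalIntegral.integral_congr
    intro r hr
    rw [uIcc_of_le (by linarith)] at hr
    exact integrand h hk ha hb (by linarith [hr.1]) hr.2
  rw [e3, intervalIntegral.integral_add ((by fun_prop : Continuous _).intervalIntegrable _ _)
    ((by fun_prop : Continuous _).intervalIntegrable _ _), intervalIntegral.integral_const_mul,
    intervalIntegral.integral_const_mul, integral_sin]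
  rw [Real.cos_pi_div_two_sub, Real.cos_pi_div_two]
  have e4 : ∫ r in (Real.pi / 2 - θ)..(Real.pi / 2), Gf (dl φ) (ys h) r = YY h θ := by
    unfold YY
    rw [← intervalIntegral.integral_add_adjacent_intervals
      (hGc.intervalIntegrable (Real.pi / 2 - θ) be) (hGc.intervalIntegrable be (Real.pi / 2))]
    have : ∫ r in be..(Real.pi / 2), Gf (dl φ) (ys h) r = ∫ r in be..(Real.pi / 2), (0 : ℝ) := by
      apply intervalIntegral.integral_congr
      intro r hr
      rw [uIcc_of_le (by unfold be; linarith)] at hr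
      exact Gf_high h hk ha hb hr.1
    rw [this, intervalIntegral.integral_zero, add_zero]
  rw [e4]
  ring

lemma YY_low {θ : ℝ} (h1 : θ ≤ al) : YY h θ = 0 := by
  unfold YY
  have : ∫ r in (Real.pi / 2 - θ)..be, Gf (dl φ) (ys h) r =
      ∫ r in (Real.pi / 2 - θ)..be, (0 : ℝ) := by
    apply intervalIntegral.integral_congr
    intro r hr
    have e := refl_al
    rw [uIcc_of_ge (by linarith)] at hr
    exact Gf_high h hk ha hb hr.1
  rw [this, intervalIntegral.integral_zero]

lemma YY_high {θ : ℝ} (h1 : be ≤ θ) : YY h θ = 0 := by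
  unfold YY
  have hGc := Gf_cont (ys_adm h)
  rw [← intervalIntegral.integral_add_adjacent_intervals
      (hGc.intervalIntegrable (Real.pi / 2 - θ) al) (hGc.intervalIntegrable al be)]
  have : ∫ r in (Real.pi / 2 - θ)..al, Gf (dl φ) (ys h) r =
      ∫ r in (Real.pi / 2 - θ)..al, (0 : ℝ) := by
    apply intervalIntegral.integral_congr
    intro r hr
    have e := refl_be
    rw [uIcc_of_le (by linarith)] at hr
    exact Gf_low h hk ha hb hr.2
  rw [this, intervalIntegral.integral_zero, zero_add]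
  exact hk

lemma hh_sum {θ : ℝ} (h0 : 0 < θ) (h1 : θ ≤ Real.pi / 2) :
    0 < Real.sin θ + YY h θ ∧
      hh h θ + hh h (Real.pi - θ) = 2 * Real.sin θ / (Real.sin θ + YY h θ) := by
  have hpi := Real.pi_pos
  have hsin : 0 < Real.sin θ := Real.sin_pos_of_pos_of_lt_pi h0 (by linarith)
  by_cases hJ : θ ∈ J
  · have hd := YY_den h hk hJ
    refine ⟨by linarith, ?_⟩
    rw [hh_J h hk ha hb hJ, hh_J' h hk ha hb hJ]
    unfold hE
    rw [YY_eq h hk hJ]
    ring
  · have hcase : θ < al ∨ be < θ := by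
      by_contra hcon
      push Not at hcon
      exact hJ ⟨hcon.1, hcon.2⟩
    have hbe : be ≤ Real.pi / 2 := by unfold be; linarith
    rcases hcase with hc | hc
    · rw [YY_low h hk ha hb hc.le, add_zero, hh_one1 h hk ha hb hc.le,
        hh_one3 h hk ha hb (by linarith)]
      refine ⟨hsin, ?_⟩
      field_simp
      norm_num
    · rw [YY_high h hk ha hb hc.le, add_zero, hh_one2 h hk ha hb hc.le (by linarith),
        hh_one2 h hk ha hb (by linarith) (by linarith)]
      refine ⟨hsin, ?_⟩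
      field_simp
      norm_num

end

theorem final : FinalStatement := by
  obtain ⟨φ, φ', h, hk, ha, hb, x, hx, hne⟩ := exists_zero
  have hpi := Real.pi_pos
  have hpi3 := pi_gt
  have hbe : be ≤ Real.pi / 2 := by unfold be; linarith
  have hlt := al_lt_be
  have hb1 := be_lt h hk ha hb
  apply geometry (hh h) (hh' h)
  · intro z _
    exact (hh_d h hk ha hb z).continuousAt.continuousWithinAt
  · exact hpos_of (fun θ _ => hh_small h hk θ)
  · exact hconv_hh h hk ha hb
  · intro θ hθ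
    have hs := abs_le.1 (hh_small h hk θ)
    have hs' := hh'_small h hk θ
    have hsin0 := Real.sin_nonneg_of_nonneg_of_le_pi hθ.1 hθ.2
    by_cases hcase : θ ≤ al ∨ (be ≤ θ ∧ θ ≤ Real.pi - be) ∨ Real.pi - al ≤ θ
    · rw [hh'_zero h hk ha hb hcase, zero_mul, add_zero]
      exact mul_nonneg (by linarith) hsin0
    · have hsin : 0.198 < Real.sin θ := by
        push Not at hcase
        obtain ⟨c1, c2, c3⟩ := hcase
        rcases le_total θ be with hc | hc
        · exact sin_ge ⟨c1.le, hc⟩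
        · rw [← Real.sin_pi_sub]
          apply sin_ge
          exact ⟨by linarith, by linarith [c2 hc]⟩
      have hc := Real.abs_cos_le_one θ
      have h5 : |hh' h θ * Real.cos θ| ≤ 1 / 10 ^ 3 * 1 := by
        rw [abs_mul]
        exact mul_le_mul hs' hc (abs_nonneg _) (by norm_num)
      have h6 := (abs_le.1 h5).1
      have h7 : 0.9 * 0.198 ≤ hh h θ * Real.sin θ := by
        apply mul_le_mul
        · linarith
        · exact hsin.le
        · norm_num
        · linarith
      norm_num at h6 h7 ⊢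
      linarith
  · intro θ hθ
    obtain ⟨p1, p2⟩ := hh_sum h hk ha hb hθ.1 hθ.2
    rw [int_total h hk ha hb hθ.1.le hθ.2, p2]
    field_simp
    ring
  · exact hh_one1 h hk ha hb (by unfold al; norm_num)
  · exact hh_one3 h hk ha hb (by unfold al; linarith)
  · apply gamma_out h hk ha hb ⟨by linarith, by linarith⟩
    · exact hh_one2 h hk ha hb hbe (by linarith)
    · exact hh'_zero h hk ha hb (Or.inr (Or.inl ⟨hbe, by linarith⟩))
  · refine ⟨x, J_sub hx, ?_⟩
    rw [hh_J h hk ha hb hx, hh_J' h hk ha hb hx]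
    intro hcon
    have h1 : dl φ x = 0 := by linarith
    unfold dl at h1
    rcases mul_eq_zero.1 h1 with h2 | h2
    · exact del_pos.ne' h2
    · exact hne h2

end Pool.Agent.Helper363
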