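import Mathlib

/-! The polar radial transform on the interval `J = [1/5, π/2 - 1/5]`. -/

set_option autoImplicit false

namespace Pool.Agent.Helper363

open Set

noncomputable def al : ℝ := 1 / 5
noncomputable def be : ℝ := Real.pi / 2 - 1 / 5
/-- amplitude -/
noncomputable def del : ℝ := 1 / 10 ^ 60
/-- shift bound -/
noncomputable def s0 : ℝ := 9 / 10 ^ 30

lemma del_pos : 0 < del := by unfold del; positivity
lemma del_small : del ≤ 1 / 10 ^ 60 := le_rfl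
lemma s0_pos : 0 < s0 := by unfold s0; positivity
lemma s0_sq : s0 ^ 2 = 81 * del := by unfold s0 del; norm_num
lemma s0_small : s0 ≤ 1 / 10 ^ 29 := by unfold s0; norm_num
lemma del_le : del ≤ 1 / 10 ^ 6 := del_small.trans (by norm_num)
lemma s0_le : s0 ≤ 1 / 10 ^ 6 := s0_small.trans (by norm_num)

lemma pi_gt : (3.1415 : ℝ) < Real.pi := Real.pi_gt_d4
lemma pi_lt : Real.pi < (3.1416 : ℝ) := Real.pi_lt_d4

lemma al_lt_be : al < be := by
  unfold al be
  have := pi_gt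
  linarith

/-- the interval -/
noncomputable def J : Set ℝ := Icc al be

lemma J_compact : IsCompact J := isCompact_Icc
lemma al_mem : al ∈ J := ⟨le_rfl, al_lt_be.le⟩
lemma be_mem : be ∈ J := ⟨al_lt_be.le, le_rfl⟩
lemma J_nonempty : J.Nonempty := ⟨al, al_mem⟩

lemma mem_J {x : ℝ} : x ∈ J ↔ al ≤ x ∧ x ≤ be := Iff.rfl

lemma refl_mem {x : ℝ} (hx : x ∈ J) : Real.pi / 2 - x ∈ J := by
  obtain ⟨h1, h2⟩ := hx
  constructor
  · unfold be at h2; unfold al; linarith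
  · unfold be; unfold al at h1; linarith

lemma J_pos {x : ℝ} (hx : x ∈ J) : 0 < x := by
  have h1 := hx.1
  unfold al at h1
  linarith

lemma J_lt {x : ℝ} (hx : x ∈ J) : x < Real.pi / 2 := by
  have h1 := hx.2
  unfold be at h1
  linarith

lemma sin_al : (0.198 : ℝ) < Real.sin al := by
  unfold al
  have h := Real.sin_gt_sub_cube (x := 1 / 5) (by norm_num)
  have h2 : (0.198 : ℝ) < 1 / 5 - (1 / 5) ^ 3 / 6 := by norm_num
  linarith

lemma sin_ge {x : ℝ} (hx : x ∈ J) : (0.198 : ℝ) < Real.sin x := by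
  have h1 := hx.1
  have h2 := J_lt hx
  have h3 : Real.sin al ≤ Real.sin x := by
    apply Real.sin_le_sin_of_le_of_le_pi_div_two _ h2.le h1
    unfold al
    have := Real.pi_pos
    linarith
  exact sin_al.trans_le h3

lemma abs_sub_J {x y : ℝ} (hx : x ∈ J) (hy : y ∈ J) : |x - y| ≤ Real.pi := by
  have h1 := hx.1
  have h2 := hx.2
  have h3 := hy.1
  have h4 := hy.2
  have := pi_gt
  unfold al at h1 h3
  unfold be at h2 h4
  rw [abs_le]
  constructor <;> linarith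

/-- the transform: `sup_θ p(θ) cos(θ - r)` -/
noncomputable def gam (p : ℝ → ℝ) (r : ℝ) : ℝ := sSup ((fun θ => p θ * Real.cos (θ - r)) '' J)

lemma gam_cont {p : ℝ → ℝ} (hp : ContinuousOn p J) (r : ℝ) :
    ContinuousOn (fun θ => p θ * Real.cos (θ - r)) J := by
  apply hp.mul
  fun_prop

lemma gam_bdd {p : ℝ → ℝ} (hp : ContinuousOn p J) (r : ℝ) :
    BddAbove ((fun θ => p θ * Real.cos (θ - r)) '' J) :=
  (J_compact.image_of_continuousOn (gam_cont hp r)).bddAbove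

lemma le_gam {p : ℝ → ℝ} (hp : ContinuousOn p J) (r : ℝ) {θ : ℝ} (hθ : θ ∈ J) :
    p θ * Real.cos (θ - r) ≤ gam p r :=
  le_csSup (gam_bdd hp r) ⟨θ, hθ, rfl⟩

lemma exists_gam {p : ℝ → ℝ} (hp : ContinuousOn p J) (r : ℝ) :
    ∃ θ ∈ J, gam p r = p θ * Real.cos (θ - r) := by
  have h := (J_compact.image_of_continuousOn (gam_cont hp r)).sSup_mem (J_nonempty.image _)
  obtain ⟨θ, hθ, h⟩ := h
  exact ⟨θ, hθ, h.symm⟩

lemma gam_ge {p : ℝ → ℝ} (hp : ContinuousOn p J) {r : ℝ} (hr : r ∈ J) : p r ≤ gam p r := by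
  have := le_gam hp r hr
  simpa using this

lemma near_max {p : ℝ → ℝ} (hp : ContinuousOn p J) (h1 : ∀ θ ∈ J, |p θ - 1| ≤ 7 * del) {r : ℝ}
    (hr : r ∈ J) : ∃ θ ∈ J, |θ - r| ≤ s0 ∧ gam p r = p θ * Real.cos (θ - r) := by
  obtain ⟨θ, hθ, h⟩ := exists_gam hp r
  refine ⟨θ, hθ, ?_, h⟩
  have h2 := gam_ge hp hr
  rw [h] at h2
  have h3 := abs_le.1 (h1 θ hθ)
  have h4 := abs_le.1 (h1 r hr)
  have h5 := Real.cos_le_one_sub_mul_cos_sq (abs_sub_J hθ hr)
  have hd := del_pos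
  have hd2 := del_le
  have hpi := pi_lt
  have hpi0 := pi_gt
  set x := θ - r with hx
  set c := 2 / Real.pi ^ 2 * x ^ 2 with hc
  have h6 : (1 + 7 * del) * (1 - c) ≥ 1 - 7 * del := by
    have hp0 : 0 < p θ := by linarith
    have h7 : p θ * Real.cos x ≤ p θ * (1 - c) := mul_le_mul_of_nonneg_left h5 hp0.le
    have h8 : 0 < 1 - c := by
      by_contra hcon
      push Not at hcon
      have : p θ * (1 - c) ≤ 0 := mul_nonpos_of_nonneg_of_nonpos hp0.le hcon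
      linarith
    have h9 : p θ * (1 - c) ≤ (1 + 7 * del) * (1 - c) :=
      mul_le_mul_of_nonneg_right (by linarith) h8.le
    linarith
  have hc0 : 0 ≤ c := by rw [hc]; positivity
  have h7 : c ≤ 14 * del := by nlinarith
  have h8 : x ^ 2 ≤ s0 ^ 2 := by
    rw [s0_sq]
    have h9 : x ^ 2 = c * (Real.pi ^ 2 / 2) := by
      rw [hc]; field_simp
    have h10 : Real.pi ^ 2 / 2 ≤ 5 := by nlinarith
    rw [h9]
    nlinarith [Real.pi_pos]
  exact abs_le_of_sq_le_sq h8 s0_pos.le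

lemma gam_le {p : ℝ → ℝ} (hp : ContinuousOn p J) (h1 : ∀ θ ∈ J, |p θ - 1| ≤ 7 * del) (r : ℝ) :
    gam p r ≤ 1 + 7 * del := by
  obtain ⟨θ, hθ, h⟩ := exists_gam hp r
  rw [h]
  have h3 := abs_le.1 (h1 θ hθ)
  have h4 := Real.cos_le_one (θ - r)
  have h5 : 0 ≤ p θ := by linarith [del_le]
  nlinarith

lemma gam_ge' {p : ℝ → ℝ} (hp : ContinuousOn p J) (h1 : ∀ θ ∈ J, |p θ - 1| ≤ 7 * del) {r : ℝ}
    (hr : r ∈ J) : 1 - 7 * del ≤ gam p r := by
  have h2 := gam_ge hp hr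
  have h3 := abs_le.1 (h1 r hr)
  linarith

lemma gam_sub_le {p q : ℝ → ℝ} (hp : ContinuousOn p J) (hq : ContinuousOn q J)
    (h1 : ∀ θ ∈ J, |p θ - 1| ≤ 7 * del) {r : ℝ} (hr : r ∈ J) :
    ∃ θ ∈ J, |θ - r| ≤ s0 ∧ gam p r - gam q r ≤ |p θ - q θ| := by
  obtain ⟨θ, hθ, hs, h⟩ := near_max hp h1 hr
  refine ⟨θ, hθ, hs, ?_⟩
  have h2 := le_gam hq r hθ
  rw [h]
  calc p θ * Real.cos (θ - r) - gam q r ≤ (p θ - q θ) * Real.cos (θ - r) := by linarith
    _ ≤ |(p θ - q θ) * Real.cos (θ - r)| := le_abs_self _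
    _ = |p θ - q θ| * |Real.cos (θ - r)| := abs_mul _ _
    _ ≤ |p θ - q θ| * 1 := mul_le_mul_of_nonneg_left (Real.abs_cos_le_one _) (abs_nonneg _)
    _ = _ := mul_one _

lemma gam_lip {p q : ℝ → ℝ} (hp : ContinuousOn p J) (hq : ContinuousOn q J)
    (h1 : ∀ θ ∈ J, |p θ - 1| ≤ 7 * del) (h2 : ∀ θ ∈ J, |q θ - 1| ≤ 7 * del) {r : ℝ} (hr : r ∈ J) :
    ∃ θ ∈ J, |θ - r| ≤ s0 ∧ |gam p r - gam q r| ≤ |p θ - q θ| := by
  rcases le_total (gam q r) (gam p r) with h | h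
  · obtain ⟨θ, hθ, hs, h3⟩ := gam_sub_le hp hq h1 hr
    exact ⟨θ, hθ, hs, by rwa [abs_of_nonneg (by linarith)]⟩
  · obtain ⟨θ, hθ, hs, h3⟩ := gam_sub_le hq hp h2 hr
    refine ⟨θ, hθ, hs, ?_⟩
    rw [abs_of_nonpos (by linarith), abs_sub_comm]
    linarith

lemma cos_sub_cos_le (a b : ℝ) : |Real.cos a - Real.cos b| ≤ |a - b| * (|a| + |a - b|) := by
  rw [Real.cos_sub_cos, abs_mul, abs_mul, abs_neg, abs_two]
  have h1 : |Real.sin ((a + b) / 2)| ≤ |(a + b) / 2| := Real.abs_sin_le_abs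
  have h2 : |Real.sin ((a - b) / 2)| ≤ |(a - b) / 2| := Real.abs_sin_le_abs
  have h3 : |(a + b) / 2| ≤ |a| + |a - b| / 2 := by
    have : (a + b) / 2 = a + -((a - b) / 2) := by ring
    rw [this]
    refine (abs_add_le _ _).trans ?_
    rw [abs_neg, abs_div, abs_two]
  have h4 : |(a - b) / 2| = |a - b| / 2 := by rw [abs_div, abs_two]
  have h5 := abs_nonneg (a - b)
  have h6 := abs_nonneg a
  have h7 := abs_nonneg (Real.sin ((a + b) / 2))
  have h8 := abs_nonneg (Real.sin ((a - b) / 2))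
  rw [h4] at h2
  calc 2 * |Real.sin ((a + b) / 2)| * |Real.sin ((a - b) / 2)|
      ≤ 2 * (|a| + |a - b| / 2) * (|a - b| / 2) := by
        apply mul_le_mul _ h2 h8 (by positivity)
        linarith
    _ ≤ |a - b| * (|a| + |a - b|) := by nlinarith

lemma gam_lip_r {p : ℝ → ℝ} (hp : ContinuousOn p J)
    (h1 : ∀ θ ∈ J, |p θ - 1| ≤ 7 * del) {r r' : ℝ} (hr : r ∈ J) (hr' : r' ∈ J) :
    |gam p r - gam p r'| ≤ 2 * (|r - r'| * (s0 + |r - r'|)) := by
  have key : ∀ r r' : ℝ, r ∈ J → r' ∈ J →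
      gam p r - gam p r' ≤ 2 * (|r - r'| * (s0 + |r - r'|)) := by
    intro r r' hr hr'
    obtain ⟨θ, hθ, hs, h⟩ := near_max hp h1 hr
    have h2 := le_gam hp r' hθ
    have h3 := abs_le.1 (h1 θ hθ)
    have h4 := cos_sub_cos_le (θ - r) (θ - r')
    have h5 : θ - r - (θ - r') = -(r - r') := by ring
    rw [h5, abs_neg] at h4
    have hd := del_le
    have h6 : p θ * (Real.cos (θ - r) - Real.cos (θ - r'))
        ≤ 2 * (|r - r'| * (|θ - r| + |r - r'|)) := by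
      calc p θ * (Real.cos (θ - r) - Real.cos (θ - r'))
          ≤ p θ * |Real.cos (θ - r) - Real.cos (θ - r')| :=
            mul_le_mul_of_nonneg_left (le_abs_self _) (by linarith)
        _ ≤ 2 * (|r - r'| * (|θ - r| + |r - r'|)) :=
            mul_le_mul (by linarith) h4 (abs_nonneg _) (by norm_num)
    have h7 : |r - r'| * (|θ - r| + |r - r'|) ≤ |r - r'| * (s0 + |r - r'|) :=
      mul_le_mul_of_nonneg_left (by linarith) (abs_nonneg _)
    rw [h]
    linarith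
  rw [abs_le]
  constructor
  · have := key r' r hr' hr
    rw [abs_sub_comm r' r] at this
    linarith
  · exact key r r' hr hr'

end Pool.Agent.Helper363
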