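import Pool.Agent.Helper363.Est

/-! The one-step operator and its fixed point. -/

set_option autoImplicit false

namespace Pool.Agent.Helper363

open Set

/-- a bump profile with derivative -/
structure Bump (φ φ' : ℝ → ℝ) : Prop where
  d : ∀ x, HasDerivAt φ (φ' x) x
  b : ∀ x, |φ x| ≤ 1
  b' : ∀ x, |φ' x| ≤ 1
  lip' : ∀ x y, |φ' x - φ' y| ≤ |x - y|
  e1 : ∀ x ∈ J, |φ' x| ≤ x - al
  e2 : ∀ x ∈ J, |φ' x| ≤ be - x

variable {φ φ' : ℝ → ℝ}

lemma Bump.cont (h : Bump φ φ') : Continuous φ :=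
  continuous_iff_continuousAt.2 fun x => (h.d x).continuousAt

lemma Bump.lip (h : Bump φ φ') (x y : ℝ) : |φ x - φ y| ≤ |x - y| := by
  have := Convex.norm_image_sub_le_of_norm_hasDerivWithin_le (f := φ) (f' := φ') (C := 1)
    (s := univ) (x := y) (y := x) (fun x _ => (h.d x).hasDerivWithinAt)
    (fun x _ => by simpa using h.b' x) convex_univ (mem_univ _) (mem_univ _)
  simpa using this

/-- first order Taylor bound -/
lemma Bump.taylor (h : Bump φ φ') (r t : ℝ) : |φ (r + t) - φ r - φ' r * t| ≤ t ^ 2 := by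
  have := Convex.norm_image_sub_le_of_norm_hasDerivWithin_le
    (f := fun x => φ (r + x) - φ' r * x) (f' := fun x => φ' (r + x) - φ' r) (C := |t|)
    (s := uIcc 0 t) (x := 0) (y := t) (fun x _ => by
      have h1 : HasDerivAt (fun x => φ (r + x)) (φ' (r + x)) x := by
        have := (h.d (r + x)).comp_const_add r x
        exact this
      have h2 : HasDerivAt (fun x => φ' r * x) (φ' r) x := by
        simpa using (hasDerivAt_id x).const_mul (φ' r)
      exact (h1.sub h2).hasDerivWithinAt)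
    (fun x hx => by
      have h1 := h.lip' (r + x) r
      rw [Real.norm_eq_abs]
      refine h1.trans ?_
      rw [show r + x - r = x by ring]
      have h2 := abs_sub_left_of_mem_uIcc hx
      simpa using h2) (convex_uIcc 0 t) left_mem_uIcc right_mem_uIcc
  simp only [add_zero, mul_zero, sub_zero, Real.norm_eq_abs] at this
  rw [abs_mul_abs_self, ← pow_two] at this
  have e : φ (r + t) - φ r - φ' r * t = φ (r + t) - φ' r * t - φ r := by ring
  rw [e]
  exact this

/-- the perturbation -/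
noncomputable def dl (φ : ℝ → ℝ) (x : ℝ) : ℝ := del * φ x

lemma dl_bd (h : Bump φ φ') (x : ℝ) : |dl φ x| ≤ del := by
  unfold dl
  rw [abs_mul, abs_of_pos del_pos]
  have := h.b x
  have := del_pos
  nlinarith

lemma dl_lip (h : Bump φ φ') (x y : ℝ) : |dl φ x - dl φ y| ≤ del * |x - y| := by
  unfold dl
  rw [← mul_sub, abs_mul, abs_of_pos del_pos]
  exact mul_le_mul_of_nonneg_left (h.lip x y) del_pos.le

lemma adm (h : Bump φ φ') {y : ℝ → ℝ} (hy : Continuous y) (hb : ∀ θ ∈ J, |y θ| ≤ del) :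
    Adm (dl φ) y :=
  ⟨hy, by unfold dl; exact continuous_const.mul h.cont, hb, fun θ _ => dl_bd h θ⟩

lemma cos_le_02 {x : ℝ} (hx : |x| ≤ Real.pi) : Real.cos x ≤ 1 - 0.2 * x ^ 2 := by
  have h := Real.cos_le_one_sub_mul_cos_sq hx
  have h1 : (0.2 : ℝ) ≤ 2 / Real.pi ^ 2 := by
    rw [le_div_iff₀ (by positivity)]
    have := pi_lt
    have := Real.pi_pos
    nlinarith
  nlinarith [sq_nonneg x]

lemma cube_approx {z : ℝ} (hz : |z| ≤ 0.01) : |(1 + z)⁻¹ ^ 3 - (1 - 3 * z)| ≤ 7 * z ^ 2 := by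
  have h := abs_le.1 hz
  have h0 : 0 < 1 + z := by linarith
  have e : (1 + z)⁻¹ ^ 3 - (1 - 3 * z) = z ^ 2 * (6 + 8 * z + 3 * z ^ 2) / (1 + z) ^ 3 := by
    field_simp
    ring
  have hp : 0 ≤ 6 + 8 * z + 3 * z ^ 2 := by nlinarith
  rw [e, abs_of_nonneg (by positivity), div_le_iff₀ (by positivity)]
  have h1 : (0.97 : ℝ) ≤ (1 + z) ^ 3 := by
    have : (0.99 : ℝ) ^ 3 ≤ (1 + z) ^ 3 := by
      apply pow_le_pow_left₀ (by norm_num)
      linarith
    norm_num at this ⊢
    linarith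
  have h2 : 6 + 8 * z + 3 * z ^ 2 ≤ 6.1 := by nlinarith
  have h3 := sq_nonneg z
  nlinarith [mul_nonneg h3 (by linarith : 0 ≤ (1 + z) ^ 3 - 0.97)]

lemma gam_zero (h : Bump φ φ') {r : ℝ} (hr : r ∈ J) :
    1 - dl φ r ≤ gam (pp (dl φ) (fun _ => 0)) r ∧
      gam (pp (dl φ) (fun _ => 0)) r ≤ 1 - dl φ r + 4 * del ^ 2 := by
  have hA : Adm (dl φ) (fun _ => 0) := adm h continuous_const (fun θ _ => by simpa using del_pos.le)
  have hE : ∀ θ ∈ J, hE (fun _ => 0) θ = 1 := by
    intro θ hθ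
    unfold Helper363.hE
    have := sin_ge hθ
    rw [add_zero, div_self (by linarith)]
  have hd := del_pos
  have hd2 := del_le
  constructor
  · refine le_trans ?_ (gam_ge hA.cont hr)
    unfold pp
    rw [hE r hr]
    have h1 := abs_le.1 (dl_bd h r)
    rw [le_div_iff₀ (by linarith)]
    nlinarith [sq_nonneg (dl φ r)]
  · obtain ⟨θ, hθ, hs, e⟩ := near_max hA.cont hA.bd hr
    rw [e]
    unfold pp
    rw [hE θ hθ]
    have h1 := abs_le.1 (dl_bd h r)
    have h2 := abs_le.1 (dl_bd h θ)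
    have h3 := abs_le.1 (dl_lip h θ r)
    have h4 := cos_le_02 (abs_sub_J hθ hr)
    rw [div_mul_eq_mul_div, one_mul, div_le_iff₀ (by linarith)]
    refine h4.trans ?_
    set a := dl φ r
    set b := dl φ θ
    have hx : (θ - r) ^ 2 = |θ - r| ^ 2 := (sq_abs _).symm
    rw [hx]
    set t := |θ - r|
    have ht : 0 ≤ t := abs_nonneg _
    have h5 : a * b ≤ del ^ 2 := by
      have : |a * b| ≤ del * del := by
        rw [abs_mul]
        exact mul_le_mul (abs_le.2 h1) (abs_le.2 h2) (abs_nonneg _) hd.le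
      have := (abs_le.1 this).2
      linarith [pow_two del]
    have h6 : - del ^ 2 ≤ 4 * del ^ 2 * b := by
      have : 0 ≤ del ^ 2 := sq_nonneg _
      nlinarith
    nlinarith [sq_nonneg (0.4 * t - del), sq_nonneg (t - del)]

lemma gg_zero (h : Bump φ φ') {r : ℝ} (hr : r ∈ J) :
    |gg (dl φ) (fun _ => 0) r| ≤ 30 * del ^ 2 := by
  have hneg : Bump (fun x => - φ x) (fun x => - φ' x) :=
    ⟨fun x => (h.d x).neg, fun x => by rw [abs_neg]; exact h.b x,
      fun x => by rw [abs_neg]; exact h.b' x,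
      fun x y => by
        rw [show - φ' x - - φ' y = -(φ' x - φ' y) by ring, abs_neg]; exact h.lip' x y,
      fun x hx => by rw [abs_neg]; exact h.e1 x hx, fun x hx => by rw [abs_neg]; exact h.e2 x hx⟩
  have e : (fun x => - dl φ x) = dl (fun x => - φ x) := by
    funext x; unfold dl; ring
  have h1 := gam_zero h hr
  have h2 := gam_zero hneg hr
  rw [← e] at h2
  beta_reduce at h2
  have hb := abs_le.1 (dl_bd h r)
  have hd := del_pos
  have hd2 := del_le
  unfold gg
  set g1 := gam (pp (dl φ) (fun _ => 0)) r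
  set g2 := gam (pp (fun x => - dl φ x) (fun _ => 0)) r
  set a := dl φ r
  have hdd : del ^ 2 ≤ del / 10 ^ 6 := by nlinarith
  have k1 := cube_approx (z := g1 - 1) (by rw [abs_le]; constructor <;> linarith)
  have k2 := cube_approx (z := g2 - 1) (by rw [abs_le]; constructor <;> linarith)
  rw [show 1 + (g1 - 1) = g1 by ring] at k1
  rw [show 1 + (g2 - 1) = g2 by ring] at k2
  have s1 : (g1 - 1) ^ 2 ≤ 1.1 * del ^ 2 := by
    have : |g1 - 1| ≤ 1.04 * del := by rw [abs_le]; constructor <;> linarith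
    have := sq_le_sq' (abs_le.1 this).1 (abs_le.1 this).2
    nlinarith
  have s2 : (g2 - 1) ^ 2 ≤ 1.1 * del ^ 2 := by
    have : |g2 - 1| ≤ 1.04 * del := by rw [abs_le]; constructor <;> linarith
    have := sq_le_sq' (abs_le.1 this).1 (abs_le.1 this).2
    nlinarith
  have k1' := abs_le.1 k1
  have k2' := abs_le.1 k2
  have hsq : 0 ≤ del ^ 2 := sq_nonneg _
  rw [abs_le]
  constructor <;> linarith

/-! ### the linear part -/

noncomputable def om (θ : ℝ) : ℝ := max 0 (min 1 (200 * (θ - Real.pi / 4)))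

lemma om_cont : Continuous om := by unfold om; fun_prop

lemma om_nonneg (θ : ℝ) : 0 ≤ om θ := le_max_left _ _
lemma om_le (θ : ℝ) : om θ ≤ 1 := max_le (by norm_num) (min_le_left _ _)
lemma om_low {θ : ℝ} (h : θ ≤ Real.pi / 4) : om θ = 0 := by
  unfold om
  apply max_eq_left
  exact (min_le_right _ _).trans (by linarith)
lemma om_high {θ : ℝ} (h : Real.pi / 4 + 1 / 200 ≤ θ) : om θ = 1 := by
  unfold om
  rw [min_eq_left (by linarith), max_eq_right (by norm_num)]

noncomputable def YG (G : ℝ → ℝ) (θ : ℝ) : ℝ :=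
  (∫ r in (Real.pi / 2 - θ)..be, G r) - (∫ r in al..be, G r) * om θ

lemma YG_cont {G : ℝ → ℝ} (hG : Continuous G) : Continuous (YG G) := by
  unfold YG
  have h1 : Continuous (fun θ => ∫ r in (Real.pi / 2 - θ)..be, G r) := by
    have h2 : (fun θ => ∫ r in (Real.pi / 2 - θ)..be, G r) =
        fun θ => - ∫ r in be..(Real.pi / 2 - θ), G r := by
      funext θ
      rw [intervalIntegral.integral_symm]
    rw [h2]
    apply Continuous.neg
    have h3 : Continuous (fun b => ∫ r in be..b, G r) :=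
      intervalIntegral.continuous_primitive (fun a b => hG.intervalIntegrable a b) be
    exact h3.comp (by fun_prop)
  exact h1.sub (continuous_const.mul om_cont)

lemma YG_sub {G H : ℝ → ℝ} (hG : Continuous G) (hH : Continuous H) (θ : ℝ) :
    YG G θ - YG H θ = YG (fun r => G r - H r) θ := by
  unfold YG
  rw [intervalIntegral.integral_sub (hG.intervalIntegrable _ _) (hH.intervalIntegrable _ _),
    intervalIntegral.integral_sub (hG.intervalIntegrable _ _) (hH.intervalIntegrable _ _)]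
  ring

lemma int_exp_dec (c a b : ℝ) : ∫ r in a..b, Real.exp (10 * (c - r)) =
    (Real.exp (10 * (c - a)) - Real.exp (10 * (c - b))) / 10 := by
  rw [intervalIntegral.integral_eq_sub_of_hasDerivAt
    (f := fun r => - (Real.exp (10 * (c - r)) / 10)) (f' := fun r => Real.exp (10 * (c - r)))]
  · ring
  · intro x _
    have h1 : HasDerivAt (fun r : ℝ => 10 * (c - r)) (10 * (0 - 1)) x :=
      ((hasDerivAt_const x c).sub (hasDerivAt_id x)).const_mul 10
    have h2 := (h1.exp.div_const 10).neg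
    exact h2.congr_deriv (by ring)
  · apply Continuous.intervalIntegrable
    fun_prop

lemma int_exp_inc (c a b : ℝ) : ∫ r in a..b, Real.exp (10 * (r - c)) =
    (Real.exp (10 * (b - c)) - Real.exp (10 * (a - c))) / 10 := by
  rw [intervalIntegral.integral_eq_sub_of_hasDerivAt
    (f := fun r => (Real.exp (10 * (r - c)) / 10)) (f' := fun r => Real.exp (10 * (r - c)))]
  · ring
  · intro x _
    have h1 : HasDerivAt (fun r : ℝ => 10 * (r - c)) (10 * (1 - 0)) x :=
      ((hasDerivAt_id x).sub (hasDerivAt_const x c)).const_mul 10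
    have h2 := (h1.exp.div_const 10)
    exact h2.congr_deriv (by ring)
  · apply Continuous.intervalIntegrable
    fun_prop

lemma A_low {G : ℝ → ℝ} {M : ℝ} (hM : ∀ r ∈ J, |G r| ≤ M * wt r)
    {θ : ℝ} (hθ : θ ∈ J) (h : θ ≤ Real.pi / 4 + 1 / 200) :
    |∫ r in (Real.pi / 2 - θ)..be, G r| ≤ M / 9 * wt θ := by
  have hM0 : 0 ≤ M := by
    have := (abs_nonneg _).trans (hM θ hθ)
    by_contra hcon
    push Not at hcon
    have := mul_neg_of_neg_of_pos hcon (wt_pos θ)
    linarith
  have hr := refl_mem hθ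
  have h1 : ‖∫ r in (Real.pi / 2 - θ)..be, G r‖ ≤
      ∫ r in (Real.pi / 2 - θ)..be, M * Real.exp (10 * ((Real.pi / 2 - 1 / 5) - r)) := by
    apply intervalIntegral.norm_integral_le_of_norm_le hr.2
    · filter_upwards with r hr2
      have hrJ : r ∈ J := ⟨hr.1.trans hr2.1.le, hr2.2⟩
      rw [Real.norm_eq_abs]
      refine (hM r hrJ).trans ?_
      apply mul_le_mul_of_nonneg_left _ hM0
      unfold wt
      apply Real.exp_le_exp.2
      have := min_le_right r (Real.pi / 2 - r)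
      linarith
    · apply Continuous.intervalIntegrable
      fun_prop
  rw [intervalIntegral.integral_const_mul, int_exp_dec, Real.norm_eq_abs] at h1
  refine h1.trans ?_
  have h2 : Real.exp (10 * (Real.pi / 2 - 1 / 5 - (Real.pi / 2 - θ))) ≤ 1 / 0.9 * wt θ := by
    have h3 : Real.exp (10 * (Real.pi / 2 - 1 / 5 - (Real.pi / 2 - θ))) ≤
        Real.exp (1 / 10) * wt θ := by
      unfold wt
      rw [← Real.exp_add]
      apply Real.exp_le_exp.2
      rcases le_total θ (Real.pi / 2 - θ) with h4 | h4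
      · rw [min_eq_left h4]; linarith
      · rw [min_eq_right h4]; linarith
    have h5 : Real.exp (1 / 10) ≤ 1 / 0.9 := by
      have h4 : Real.exp (1 / 10) * Real.exp (-(1 / 10)) = 1 := by
        rw [← Real.exp_add]; simp
      have h5 := Real.add_one_le_exp (-(1 / 10 : ℝ))
      have h6 := Real.exp_pos (1 / 10 : ℝ)
      rw [le_div_iff₀ (by norm_num)]
      nlinarith
    exact h3.trans (mul_le_mul_of_nonneg_right h5 (wt_pos θ).le)
  have h6 := Real.exp_pos (10 * (Real.pi / 2 - 1 / 5 - be))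
  calc M * ((Real.exp (10 * (Real.pi / 2 - 1 / 5 - (Real.pi / 2 - θ))) -
        Real.exp (10 * (Real.pi / 2 - 1 / 5 - be))) / 10)
      ≤ M * ((1 / 0.9 * wt θ) / 10) := by
        apply mul_le_mul_of_nonneg_left _ hM0
        linarith
    _ = M / 9 * wt θ := by ring

lemma A_high {G : ℝ → ℝ} {M : ℝ} (hM : ∀ r ∈ J, |G r| ≤ M * wt r)
    {θ : ℝ} (hθ : θ ∈ J) (h : Real.pi / 4 ≤ θ) :
    |∫ r in al..(Real.pi / 2 - θ), G r| ≤ M / 9 * wt θ := by
  have hM0 : 0 ≤ M := by
    have := (abs_nonneg _).trans (hM θ hθ)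
    by_contra hcon
    push Not at hcon
    have := mul_neg_of_neg_of_pos hcon (wt_pos θ)
    linarith
  have hr := refl_mem hθ
  have h1 : ‖∫ r in al..(Real.pi / 2 - θ), G r‖ ≤
      ∫ r in al..(Real.pi / 2 - θ), M * Real.exp (10 * (r - 1 / 5)) := by
    apply intervalIntegral.norm_integral_le_of_norm_le hr.1
    · filter_upwards with r hr2
      have hrJ : r ∈ J := ⟨hr2.1.le, hr2.2.trans hr.2⟩
      rw [Real.norm_eq_abs]
      refine (hM r hrJ).trans ?_
      apply mul_le_mul_of_nonneg_left _ hM0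
      unfold wt
      apply Real.exp_le_exp.2
      have := min_le_left r (Real.pi / 2 - r)
      linarith
    · apply Continuous.intervalIntegrable
      fun_prop
  rw [intervalIntegral.integral_const_mul, int_exp_inc, Real.norm_eq_abs] at h1
  refine h1.trans ?_
  have h2 : Real.exp (10 * (Real.pi / 2 - θ - 1 / 5)) = wt θ := by
    unfold wt
    rw [min_eq_right (by linarith)]
  rw [h2]
  have h6 := Real.exp_pos (10 * (al - 1 / 5))
  have := mul_nonneg hM0 (wt_pos θ).le
  nlinarith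

lemma YG_bound {G : ℝ → ℝ} (hG : Continuous G) {M : ℝ} (hM : ∀ r ∈ J, |G r| ≤ M * wt r)
    {θ : ℝ} (hθ : θ ∈ J) : |YG G θ| ≤ M / 9 * wt θ := by
  have e : (∫ r in (Real.pi / 2 - θ)..be, G r) - (∫ r in al..be, G r) =
      - ∫ r in al..(Real.pi / 2 - θ), G r := by
    rw [← intervalIntegral.integral_add_adjacent_intervals (hG.intervalIntegrable al (Real.pi / 2 - θ))
      (hG.intervalIntegrable (Real.pi / 2 - θ) be)]
    ring
  unfold YG
  rcases le_total θ (Real.pi / 4) with h | h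
  · rw [om_low h]
    have := A_low hM hθ (by linarith)
    simpa using this
  · have a2 := A_high hM hθ h
    rcases le_total θ (Real.pi / 4 + 1 / 200) with h' | h'
    · have a1 := A_low hM hθ h'
      set A := ∫ r in (Real.pi / 2 - θ)..be, G r
      set B := ∫ r in al..(Real.pi / 2 - θ), G r
      set k := ∫ r in al..be, G r
      have e2 : A - k * om θ = (1 - om θ) * A + om θ * (-B) := by
        rw [← e]; ring
      rw [e2]
      have o1 := om_nonneg θ
      have o2 := om_le θ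
      calc |(1 - om θ) * A + om θ * (-B)| ≤ |(1 - om θ) * A| + |om θ * (-B)| := abs_add_le _ _
        _ = (1 - om θ) * |A| + om θ * |B| := by
            rw [abs_mul, abs_mul, abs_neg, abs_of_nonneg o1, abs_of_nonneg (by linarith : 0 ≤ 1 - om θ)]
        _ ≤ (1 - om θ) * (M / 9 * wt θ) + om θ * (M / 9 * wt θ) := by
            gcongr
        _ = M / 9 * wt θ := by ring
    · rw [om_high h', mul_one, e, abs_neg]
      exact a2

/-! ### the operator -/

noncomputable def rho : ℝ := 20 * del ^ 2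

lemma rho_pos : 0 < rho := by unfold rho; have := del_pos; positivity

noncomputable def clip (x : ℝ) : ℝ := max (-rho) (min x rho)

lemma clip_abs (x : ℝ) : |clip x| ≤ rho := by
  have := rho_pos
  unfold clip
  rw [abs_le]
  exact ⟨le_max_left _ _, max_le (by linarith) (min_le_right _ _)⟩

lemma clip_lip (x y : ℝ) : |clip x - clip y| ≤ |x - y| := by
  unfold clip
  have h1 := abs_max_sub_max_le_max (-rho) (min x rho) (-rho) (min y rho)
  have h2 := abs_min_sub_min_le_max x rho y rho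
  simp only [sub_self, abs_zero] at h1 h2
  refine h1.trans (max_le (abs_nonneg _) (h2.trans (max_le le_rfl (abs_nonneg _))))

lemma clip_eq {x : ℝ} (h : |x| ≤ rho) : clip x = x := by
  have h1 := abs_le.1 h
  unfold clip
  rw [min_eq_left h1.2, max_eq_right h1.1]

lemma clip_cont : Continuous clip := by unfold clip; fun_prop

noncomputable def yof (u : ℝ → ℝ) (θ : ℝ) : ℝ := clip (u θ) * wt θ

lemma yof_cont {u : ℝ → ℝ} (hu : Continuous u) : Continuous (yof u) :=
  (clip_cont.comp hu).mul wt_cont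

lemma yof_bd (u : ℝ → ℝ) (θ : ℝ) : |yof u θ| ≤ rho * wt θ := by
  unfold yof
  rw [abs_mul, abs_of_pos (wt_pos θ)]
  exact mul_le_mul_of_nonneg_right (clip_abs _) (wt_pos θ).le

lemma yof_bd2 (u : ℝ → ℝ) (θ : ℝ) : |yof u θ| ≤ 20000 * del ^ 2 := by
  refine (yof_bd u θ).trans ?_
  have h1 := wt_le θ
  have h2 := wt_pos θ
  unfold rho
  have : 0 ≤ del ^ 2 := sq_nonneg _
  nlinarith

lemma yof_le_del (u : ℝ → ℝ) (θ : ℝ) : |yof u θ| ≤ del := by
  refine (yof_bd2 u θ).trans ?_
  have h1 := del_pos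
  have h2 := del_le
  nlinarith

lemma yof_adm (h : Bump φ φ') {u : ℝ → ℝ} (hu : Continuous u) : Adm (dl φ) (yof u) :=
  adm h (yof_cont hu) (fun θ _ => yof_le_del u θ)

lemma Gf_bound (h : Bump φ φ') {u : ℝ → ℝ} (hu : Continuous u) {r : ℝ} (hr : r ∈ J) :
    |Gf (dl φ) (yof u) r| ≤ 110 * del ^ 2 * wt r := by
  have hA : Adm (dl φ) (fun _ => 0) := adm h continuous_const (fun θ _ => by simpa using del_pos.le)
  have h1 := gg_diff (yof_adm h hu) hA (R := rho)
    (fun θ _ => by simpa using yof_bd u θ) hr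
  have h2 := gg_zero h hr
  have hs := sin_ge hr
  have hs1 := Real.sin_le_one r
  unfold Gf
  rw [cl_of_mem hr, abs_mul, abs_of_pos (by linarith : 0 < Real.sin r)]
  have h3 : |gg (dl φ) (yof u) r| ≤
      |gg (dl φ) (yof u) r - gg (dl φ) (fun _ => 0) r| + |gg (dl φ) (fun _ => 0) r| := by
    have := abs_add_le (gg (dl φ) (yof u) r - gg (dl φ) (fun _ => 0) r) (gg (dl φ) (fun _ => 0) r)
    simpa using this
  have h4 := one_le_wt hr
  have h5 : 0 ≤ del ^ 2 := sq_nonneg _
  calc |gg (dl φ) (yof u) r| * Real.sin r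
      ≤ (|gg (dl φ) (yof u) r - gg (dl φ) (fun _ => 0) r| + |gg (dl φ) (fun _ => 0) r|) * Real.sin r := by
        gcongr
    _ = |gg (dl φ) (yof u) r - gg (dl φ) (fun _ => 0) r| * Real.sin r +
        |gg (dl φ) (fun _ => 0) r| * Real.sin r := by ring
    _ ≤ 4 * rho * wt r + (30 * del ^ 2) * 1 := by
        gcongr
    _ ≤ 110 * del ^ 2 * wt r := by
        unfold rho
        nlinarith

open BoundedContinuousFunction

lemma TT_bound (h : Bump φ φ') {u : ℝ → ℝ} (hu : Continuous u) (θ : ℝ) :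
    ‖YG (Gf (dl φ) (yof u)) (cl θ) / wt (cl θ)‖ ≤ 110 * del ^ 2 / 9 := by
  have h1 := YG_bound (Gf_cont (yof_adm h hu)) (fun r hr => Gf_bound h hu hr) (cl_mem θ)
  rw [Real.norm_eq_abs, abs_div, abs_of_pos (wt_pos _), div_le_iff₀ (wt_pos _)]
  exact h1

noncomputable def TT (h : Bump φ φ') (u : ℝ →ᵇ ℝ) : ℝ →ᵇ ℝ :=
  BoundedContinuousFunction.ofNormedAddCommGroup
    (fun θ => YG (Gf (dl φ) (yof u)) (cl θ) / wt (cl θ))
    (((YG_cont (Gf_cont (yof_adm h u.continuous))).comp cl_cont).div (wt_cont.comp cl_cont)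
      (fun _ => (wt_pos _).ne'))
    (110 * del ^ 2 / 9) (TT_bound h u.continuous)

lemma TT_apply (h : Bump φ φ') (u : ℝ →ᵇ ℝ) (θ : ℝ) :
    TT h u θ = YG (Gf (dl φ) (yof u)) (cl θ) / wt (cl θ) := rfl

lemma yof_diff (u v : ℝ →ᵇ ℝ) (θ : ℝ) : |yof u θ - yof v θ| ≤ dist u v * wt θ := by
  unfold yof
  rw [← sub_mul, abs_mul, abs_of_pos (wt_pos θ)]
  apply mul_le_mul_of_nonneg_right _ (wt_pos θ).le
  refine (clip_lip _ _).trans ?_
  rw [← Real.dist_eq]
  exact BoundedContinuousFunction.dist_coe_le_dist θ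

lemma TT_contr (h : Bump φ φ') : ContractingWith (1 / 2) (TT h) := by
  refine ⟨by norm_num, LipschitzWith.of_dist_le_mul fun u v => ?_⟩
  have hD : 0 ≤ dist u v := dist_nonneg
  rw [BoundedContinuousFunction.dist_le (by positivity)]
  intro θ
  rw [TT_apply, TT_apply, Real.dist_eq, ← sub_div,
    YG_sub (Gf_cont (yof_adm h u.continuous)) (Gf_cont (yof_adm h v.continuous)),
    abs_div, abs_of_pos (wt_pos _), div_le_iff₀ (wt_pos _)]
  have h1 := YG_bound (G := fun r => Gf (dl φ) (yof u) r - Gf (dl φ) (yof v) r)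
    ((Gf_cont (yof_adm h u.continuous)).sub (Gf_cont (yof_adm h v.continuous)))
    (M := 4 * dist u v) (fun r hr => by
      have h2 := gg_diff (yof_adm h u.continuous) (yof_adm h v.continuous) (R := dist u v)
        (fun θ _ => yof_diff u v θ) hr
      have hs := sin_ge hr
      unfold Gf
      rw [cl_of_mem hr, ← sub_mul, abs_mul, abs_of_pos (by linarith : 0 < Real.sin r)]
      exact h2) (cl_mem θ)
  refine h1.trans ?_
  have h3 := mul_nonneg hD (wt_pos (cl θ)).le
  simp only [NNReal.coe_div, NNReal.coe_one, NNReal.coe_ofNat]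
  nlinarith

lemma TT_diff {φ2 φ2' : ℝ → ℝ} (h : Bump φ φ') (h2 : Bump φ2 φ2') {R : ℝ}
    (hR : ∀ θ ∈ J, |dl φ θ - dl φ2 θ| ≤ R) (u : ℝ →ᵇ ℝ) : dist (TT h u) (TT h2 u) ≤ R := by
  have hR0 : 0 ≤ R := (abs_nonneg _).trans (hR al al_mem)
  rw [BoundedContinuousFunction.dist_le hR0]
  intro θ
  rw [TT_apply, TT_apply, Real.dist_eq, ← sub_div,
    YG_sub (Gf_cont (yof_adm h u.continuous)) (Gf_cont (yof_adm h2 u.continuous)),
    abs_div, abs_of_pos (wt_pos _), div_le_iff₀ (wt_pos _)]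
  have h1 := YG_bound (G := fun r => Gf (dl φ) (yof u) r - Gf (dl φ2) (yof u) r)
    ((Gf_cont (yof_adm h u.continuous)).sub (Gf_cont (yof_adm h2 u.continuous)))
    (M := 4 * R) (fun r hr => by
      have h2 := gg_diffψ (yof_adm h u.continuous) (yof_adm h2 u.continuous) (R := R) hR hr
      have hs := sin_ge hr
      have hs1 := Real.sin_le_one r
      have hw := one_le_wt hr
      unfold Gf
      rw [cl_of_mem hr, ← sub_mul, abs_mul, abs_of_pos (by linarith : 0 < Real.sin r)]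
      calc _ ≤ 4 * R * 1 := mul_le_mul h2 hs1 (by linarith) (by positivity)
        _ ≤ 4 * R * wt r := by gcongr) (cl_mem θ)
  refine h1.trans ?_
  have h3 := mul_nonneg hR0 (wt_pos (cl θ)).le
  nlinarith

/-- the fixed point -/
noncomputable def fx (h : Bump φ φ') : ℝ →ᵇ ℝ := ContractingWith.fixedPoint (TT h) (TT_contr h)

lemma fx_fixed (h : Bump φ φ') : TT h (fx h) = fx h :=
  ContractingWith.fixedPoint_isFixedPt (TT_contr h)

lemma fx_dist {φ2 φ2' : ℝ → ℝ} (h : Bump φ φ') (h2 : Bump φ2 φ2') {R : ℝ}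
    (hR : ∀ θ ∈ J, |dl φ θ - dl φ2 θ| ≤ R) : dist (fx h) (fx h2) ≤ 2 * R := by
  have := ContractingWith.fixedPoint_lipschitz_in_map (TT_contr h) (TT_contr h2)
    (C := R) (fun z => TT_diff h h2 hR z)
  simp only [NNReal.coe_div, NNReal.coe_one, NNReal.coe_ofNat] at this
  unfold fx
  refine this.trans ?_
  rw [div_le_iff₀ (by norm_num)]
  linarith

/-- the solution function -/
noncomputable def ys (h : Bump φ φ') : ℝ → ℝ := yof (fx h)

lemma ys_cont (h : Bump φ φ') : Continuous (ys h) := yof_cont (fx h).continuous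
lemma ys_adm (h : Bump φ φ') : Adm (dl φ) (ys h) := yof_adm h (fx h).continuous
lemma ys_bd (h : Bump φ φ') (θ : ℝ) : |ys h θ| ≤ 20000 * del ^ 2 := yof_bd2 _ θ

lemma fx_small (h : Bump φ φ') (θ : ℝ) : |fx h θ| ≤ rho := by
  have h1 := TT_bound h (fx h).continuous θ
  rw [← TT_apply h, fx_fixed h, Real.norm_eq_abs] at h1
  refine h1.trans ?_
  unfold rho
  have : 0 ≤ del ^ 2 := sq_nonneg _
  nlinarith

/-- the fixed point equation -/
lemma ys_eq (h : Bump φ φ') {θ : ℝ} (hθ : θ ∈ J) :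
    ys h θ = YG (Gf (dl φ) (ys h)) θ := by
  have h1 : fx h θ = YG (Gf (dl φ) (yof (fx h))) (cl θ) / wt (cl θ) := by
    rw [← TT_apply h, fx_fixed h]
  rw [cl_of_mem hθ] at h1
  have h2 : ys h θ = clip (fx h θ) * wt θ := rfl
  rw [h2, clip_eq (fx_small h θ), h1, div_mul_cancel₀ _ (wt_pos θ).ne']
  rfl

noncomputable def kap (h : Bump φ φ') : ℝ := ∫ r in al..be, Gf (dl φ) (ys h) r

lemma kap_dist {φ2 φ2' : ℝ → ℝ} (h : Bump φ φ') (h2 : Bump φ2 φ2') {R : ℝ}
    (hR : ∀ θ ∈ J, |dl φ θ - dl φ2 θ| ≤ R) : |kap h - kap h2| ≤ 10 ^ 5 * R := by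
  have hR0 : 0 ≤ R := (abs_nonneg _).trans (hR al al_mem)
  unfold kap
  rw [← intervalIntegral.integral_sub ((Gf_cont (ys_adm h)).intervalIntegrable _ _)
    ((Gf_cont (ys_adm h2)).intervalIntegrable _ _)]
  have h1 : ‖∫ r in al..be, (Gf (dl φ) (ys h) r - Gf (dl φ2) (ys h2) r)‖ ≤
      (10 ^ 4 * R) * |be - al| := by
    apply intervalIntegral.norm_integral_le_of_norm_le_const
    intro r hr
    rw [uIoc_of_le al_lt_be.le] at hr
    have hrJ : r ∈ J := ⟨hr.1.le, hr.2⟩
    have hs := sin_ge hrJ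
    have hs1 := Real.sin_le_one r
    have hw := wt_le r
    have hw0 := wt_pos r
    have m : Adm (dl φ2) (ys h) := yof_adm h2 (fx h).continuous
    have k1 := gg_diffψ (ys_adm h) m hR hrJ
    have k2 := gg_diff m (ys_adm h2) (R := 2 * R) (fun θ _ =>
      (yof_diff (fx h) (fx h2) θ).trans
        (mul_le_mul_of_nonneg_right (fx_dist h h2 hR) (wt_pos θ).le)) hrJ
    unfold Gf
    rw [cl_of_mem hrJ, Real.norm_eq_abs, ← sub_mul, abs_mul,
      abs_of_pos (by linarith : 0 < Real.sin r)]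
    have k3 : |gg (dl φ) (ys h) r - gg (dl φ2) (ys h2) r| ≤
        |gg (dl φ) (ys h) r - gg (dl φ2) (ys h) r| + |gg (dl φ2) (ys h) r - gg (dl φ2) (ys h2) r| :=
      abs_sub_le _ _ _
    calc |gg (dl φ) (ys h) r - gg (dl φ2) (ys h2) r| * Real.sin r
        ≤ (|gg (dl φ) (ys h) r - gg (dl φ2) (ys h) r| +
          |gg (dl φ2) (ys h) r - gg (dl φ2) (ys h2) r|) * Real.sin r := by gcongr
      _ = |gg (dl φ) (ys h) r - gg (dl φ2) (ys h) r| * Real.sin r +
          |gg (dl φ2) (ys h) r - gg (dl φ2) (ys h2) r| * Real.sin r := by ring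
      _ ≤ (4 * R) * 1 + 4 * (2 * R) * wt r := by gcongr
      _ ≤ 10 ^ 4 * R := by nlinarith
  rw [Real.norm_eq_abs] at h1
  refine h1.trans ?_
  have h3 : |be - al| ≤ 10 := by
    have := pi_lt
    have := pi_gt
    unfold be al
    rw [abs_le]
    constructor <;> linarith
  nlinarith

end Pool.Agent.Helper363
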