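import Pool.Agent.Helper363.Sign2

/-! Regularity at a zero of `κ`. -/

set_option autoImplicit false

namespace Pool.Agent.Helper363

open Set

variable {φ φ' : ℝ → ℝ}

noncomputable def YY (h : Bump φ φ') (θ : ℝ) : ℝ :=
  ∫ r in (Real.pi / 2 - θ)..be, Gf (dl φ) (ys h) r

lemma YY_eq (h : Bump φ φ') (hk : kap h = 0) {θ : ℝ} (hθ : θ ∈ J) : YY h θ = ys h θ := by
  rw [ys_eq h hθ]
  unfold YG
  unfold kap at hk
  rw [hk]
  unfold YY
  ring

lemma F_d {G : ℝ → ℝ} (hG : Continuous G) (θ : ℝ) :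
    HasDerivAt (fun θ => ∫ r in (Real.pi / 2 - θ)..be, G r) (G (Real.pi / 2 - θ)) θ := by
  have h1 : HasDerivAt (fun b => ∫ r in be..b, G r) (G (Real.pi / 2 - θ)) (Real.pi / 2 - θ) :=
    intervalIntegral.integral_hasDerivAt_right (hG.intervalIntegrable _ _)
      (hG.stronglyMeasurableAtFilter _ _) hG.continuousAt
  have h2 : HasDerivAt (fun θ : ℝ => Real.pi / 2 - θ) (-1) θ := by
    simpa using (hasDerivAt_id θ).const_sub (Real.pi / 2)
  have h3 := (h1.comp θ h2).neg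
  have e : (fun θ => ∫ r in (Real.pi / 2 - θ)..be, G r) =
      fun θ => - ((fun b => ∫ r in be..b, G r) ∘ fun θ : ℝ => Real.pi / 2 - θ) θ := by
    funext θ
    simp only [Function.comp]
    rw [intervalIntegral.integral_symm]
  rw [e]
  exact h3.congr_deriv (by ring)

lemma YY_d (h : Bump φ φ') (θ : ℝ) :
    HasDerivAt (YY h) (Gf (dl φ) (ys h) (Real.pi / 2 - θ)) θ :=
  F_d (Gf_cont (ys_adm h)) θ

noncomputable def EY (h : Bump φ φ') (θ : ℝ) : ℝ := Real.sin θ / (Real.sin θ + YY h θ) - 1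

noncomputable def E1 (h : Bump φ φ') (θ : ℝ) : ℝ :=
  (YY h θ * Real.cos θ - Gf (dl φ) (ys h) (Real.pi / 2 - θ) * Real.sin θ) /
    (Real.sin θ + YY h θ) ^ 2

lemma EY_d (h : Bump φ φ') {θ : ℝ} (hne : Real.sin θ + YY h θ ≠ 0) :
    HasDerivAt (EY h) (E1 h θ) θ := by
  have h1 := Real.hasDerivAt_sin θ
  have h2 := (h1.div (h1.add (YY_d h θ)) hne).sub_const 1
  refine h2.congr_deriv ?_
  unfold E1
  rw [Pi.add_apply]
  congr 1
  ring

lemma YY_den (h : Bump φ φ') (hk : kap h = 0) {θ : ℝ} (hθ : θ ∈ J) :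
    0.197 < Real.sin θ + YY h θ := by
  rw [YY_eq h hk hθ]
  exact den_ge hθ ((ys_adm h).by' θ hθ)

lemma EY_eq (h : Bump φ φ') (hk : kap h = 0) {θ : ℝ} (hθ : θ ∈ J) : EY h θ = hE (ys h) θ - 1 := by
  unfold EY hE
  rw [YY_eq h hk hθ]

lemma cl_lip (x y : ℝ) : |cl x - cl y| ≤ |x - y| := by
  unfold cl
  have h1 := abs_max_sub_max_le_max al (min x be) al (min y be)
  have h2 := abs_min_sub_min_le_max x be y be
  simp only [sub_self, abs_zero] at h1 h2
  exact h1.trans (max_le (abs_nonneg _) (h2.trans (max_le le_rfl (abs_nonneg _))))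

lemma gg_lip (h : Bump φ φ') {r r' : ℝ} (hr : r ∈ J) (hr' : r' ∈ J) :
    |gg (dl φ) (ys h) r - gg (dl φ) (ys h) r'| ≤ 13 * s0 * |r - r'| := by
  have hs := s0_pos
  have h0 := abs_nonneg (r - r')
  rcases le_total |r - r'| s0 with hle | hle
  · have hA := ys_adm h
    have a1 := gam_lip_r hA.cont hA.bd hr hr'
    have a2 := gam_lip_r hA.neg.cont hA.neg.bd hr hr'
    have b1 := cube_diff (hA.gam_near hr) (hA.gam_near hr')
    have b2 := cube_diff (hA.neg.gam_near hr) (hA.neg.gam_near hr')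
    have e : gg (dl φ) (ys h) r - gg (dl φ) (ys h) r' =
        (((gam (pp (dl φ) (ys h)) r)⁻¹ ^ 3 - (gam (pp (dl φ) (ys h)) r')⁻¹ ^ 3) +
        ((gam (pp (fun x => - dl φ x) (ys h)) r)⁻¹ ^ 3 -
          (gam (pp (fun x => - dl φ x) (ys h)) r')⁻¹ ^ 3)) / 2 := by
      unfold gg
      ring
    rw [e, abs_div, abs_two]
    have c1 := abs_add_le ((gam (pp (dl φ) (ys h)) r)⁻¹ ^ 3 - (gam (pp (dl φ) (ys h)) r')⁻¹ ^ 3)
        ((gam (pp (fun x => - dl φ x) (ys h)) r)⁻¹ ^ 3 -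
          (gam (pp (fun x => - dl φ x) (ys h)) r')⁻¹ ^ 3)
    have d1 : |r - r'| * (s0 + |r - r'|) ≤ |r - r'| * (2 * s0) := by
      apply mul_le_mul_of_nonneg_left _ h0
      linarith
    have d2 := mul_nonneg hs.le h0
    nlinarith
  · have a1 := gg_small h hr
    have a2 := gg_small h hr'
    have a3 : |gg (dl φ) (ys h) r - gg (dl φ) (ys h) r'| ≤
        |gg (dl φ) (ys h) r| + |gg (dl φ) (ys h) r'| := by
      have := abs_add_le (gg (dl φ) (ys h) r) (-gg (dl φ) (ys h) r')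
      rwa [abs_neg, ← sub_eq_add_neg] at this
    have a4 : 12 * 10 ^ 5 * del ^ 2 ≤ s0 ^ 2 := by
      rw [s0_sq]
      have := del_sq
      have := del_pos
      linarith
    nlinarith [mul_le_mul_of_nonneg_left hle hs.le]

lemma Gf_lip (h : Bump φ φ') {r r' : ℝ} (hr : r ∈ J) (hr' : r' ∈ J) :
    |Gf (dl φ) (ys h) r - Gf (dl φ) (ys h) r'| ≤ 14 * s0 * |r - r'| := by
  unfold Gf
  rw [cl_of_mem hr, cl_of_mem hr']
  have h1 := gg_lip h hr hr'
  have h2 := gg_small h hr'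
  have h3 : |Real.sin r - Real.sin r'| ≤ |r - r'| := Real.abs_sin_sub_sin_le r r'
  have h0 := abs_nonneg (r - r')
  have e : gg (dl φ) (ys h) r * Real.sin r - gg (dl φ) (ys h) r' * Real.sin r' =
      (gg (dl φ) (ys h) r - gg (dl φ) (ys h) r') * Real.sin r +
      gg (dl φ) (ys h) r' * (Real.sin r - Real.sin r') := by ring
  rw [e]
  refine (abs_add_le _ _).trans ?_
  rw [abs_mul, abs_mul]
  have hs := s0_pos
  have a4 : 6 * 10 ^ 5 * del ^ 2 ≤ s0 := by
    have h5 : 6 * 10 ^ 5 * del ^ 2 ≤ s0 ^ 2 := by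
      rw [s0_sq]
      have := del_sq
      have := del_pos
      linarith
    have h6 : s0 ^ 2 ≤ s0 := by
      have := s0_le
      nlinarith
    linarith
  calc |gg (dl φ) (ys h) r - gg (dl φ) (ys h) r'| * |Real.sin r| +
        |gg (dl φ) (ys h) r'| * |Real.sin r - Real.sin r'|
      ≤ (13 * s0 * |r - r'|) * 1 + (6 * 10 ^ 5 * del ^ 2) * |r - r'| := by
        gcongr
        exact Real.abs_sin_le_one r
    _ ≤ 14 * s0 * |r - r'| := by nlinarith

lemma E1_small (h : Bump φ φ') (hk : kap h = 0) {x : ℝ} (hx : x ∈ J) :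
    |E1 h x| ≤ 1 / 10 ^ 20 := by
  have hd := YY_den h hk hx
  unfold E1
  have h1 : |YY h x| ≤ 20000 * del ^ 2 := by
    rw [YY_eq h hk hx]; exact ys_bd h x
  have h2 := Gf_small h (Real.pi / 2 - x)
  have hp : 0.0388 ≤ (Real.sin x + YY h x) ^ 2 := by nlinarith
  rw [abs_div, abs_of_pos (by linarith : 0 < (Real.sin x + YY h x) ^ 2), div_le_iff₀ (by linarith)]
  have h3 : |YY h x * Real.cos x - Gf (dl φ) (ys h) (Real.pi / 2 - x) * Real.sin x| ≤
      |YY h x| * |Real.cos x| + |Gf (dl φ) (ys h) (Real.pi / 2 - x)| * |Real.sin x| := by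
    rw [← abs_mul, ← abs_mul]
    have := abs_add_le (YY h x * Real.cos x) (-(Gf (dl φ) (ys h) (Real.pi / 2 - x) * Real.sin x))
    rwa [abs_neg, ← sub_eq_add_neg] at this
  refine h3.trans ?_
  have h4 := Real.abs_cos_le_one x
  have h5 := Real.abs_sin_le_one x
  calc |YY h x| * |Real.cos x| + |Gf (dl φ) (ys h) (Real.pi / 2 - x)| * |Real.sin x|
      ≤ (20000 * del ^ 2) * 1 + (10 ^ 5 * del ^ 2) * 1 := by gcongr
    _ ≤ 1 / 10 ^ 20 * 0.0388 := by unfold del; norm_num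
    _ ≤ _ := by gcongr

lemma quot_lip {Nx Ny Sx Sy t : ℝ} (hSx : 0.197 < Sx) (hSy : 0.197 < Sy) (Sx1 : Sx ≤ 1.001)
    (Sy1 : Sy ≤ 1.001) (n1 : |Nx - Ny| ≤ 15 * s0 * t) (n2 : |Ny| ≤ s0)
    (s1 : |Sy ^ 2 - Sx ^ 2| ≤ 3 * t) (ht0 : 0 ≤ t) :
    |Nx / Sx ^ 2 - Ny / Sy ^ 2| ≤ 1 / 10 ^ 20 * t := by
  have hs := s0_pos
  have hs18 : 18.15 * s0 ≤ 1 / 10 ^ 20 * 0.0015 := by
    have := s0_small
    norm_num at this ⊢
    linarith
  have px : 0.0388 ≤ Sx ^ 2 := by nlinarith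
  have py : 0.0388 ≤ Sy ^ 2 := by nlinarith
  have e : Nx / Sx ^ 2 - Ny / Sy ^ 2 =
      ((Nx - Ny) * Sy ^ 2 + Ny * (Sy ^ 2 - Sx ^ 2)) / (Sx ^ 2 * Sy ^ 2) := by
    have : Sx ≠ 0 := by linarith
    have : Sy ≠ 0 := by linarith
    field_simp
    ring
  have hpp : 0.0015 ≤ Sx ^ 2 * Sy ^ 2 := by nlinarith
  rw [e, abs_div, abs_of_pos (by linarith : 0 < Sx ^ 2 * Sy ^ 2), div_le_iff₀ (by linarith)]
  have hSy2 : |Sy ^ 2| ≤ 1.01 := by
    rw [abs_of_nonneg (sq_nonneg _)]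
    nlinarith
  calc |(Nx - Ny) * Sy ^ 2 + Ny * (Sy ^ 2 - Sx ^ 2)|
      ≤ |Nx - Ny| * |Sy ^ 2| + |Ny| * |Sy ^ 2 - Sx ^ 2| := by
        refine (abs_add_le _ _).trans ?_
        rw [abs_mul, abs_mul]
    _ ≤ (15 * s0 * t) * 1.01 + s0 * (3 * t) := by gcongr
    _ = (18.15 * s0) * t := by ring
    _ ≤ (1 / 10 ^ 20 * 0.0015) * t := mul_le_mul_of_nonneg_right hs18 ht0
    _ = 1 / 10 ^ 20 * t * 0.0015 := by ring
    _ ≤ 1 / 10 ^ 20 * t * (Sx ^ 2 * Sy ^ 2) := by gcongr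

lemma E1_lip (h : Bump φ φ') (hk : kap h = 0) {x y : ℝ} (hx : x ∈ J) (hy : y ∈ J) :
    |E1 h x - E1 h y| ≤ 1 / 10 ^ 20 * |x - y| := by
  have hdx := YY_den h hk hx
  have hdy := YY_den h hk hy
  have yx : |YY h x| ≤ 20000 * del ^ 2 := by
    rw [YY_eq h hk hx]; exact ys_bd h x
  have yy : |YY h y| ≤ 20000 * del ^ 2 := by
    rw [YY_eq h hk hy]; exact ys_bd h y
  have yl : |YY h x - YY h y| ≤ 10 ^ 8 * del ^ 2 * |x - y| := by
    rw [YY_eq h hk hx, YY_eq h hk hy]; exact ys_lip h hx hy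
  have gx := Gf_small h (Real.pi / 2 - x)
  have gy := Gf_small h (Real.pi / 2 - y)
  have gl := Gf_lip h (refl_mem hx) (refl_mem hy)
  rw [show Real.pi / 2 - x - (Real.pi / 2 - y) = -(x - y) by ring, abs_neg] at gl
  have sl : |Real.sin x - Real.sin y| ≤ |x - y| := Real.abs_sin_sub_sin_le x y
  have cl' : |Real.cos x - Real.cos y| ≤ |x - y| := Real.abs_cos_sub_cos_le x y
  have sx := Real.abs_sin_le_one x
  have cx := Real.abs_cos_le_one x
  have sy := Real.abs_sin_le_one y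
  have cy := Real.abs_cos_le_one y
  unfold E1
  set A := YY h x
  set B := YY h y
  set P := Gf (dl φ) (ys h) (Real.pi / 2 - x)
  set Q := Gf (dl φ) (ys h) (Real.pi / 2 - y)
  set t := |x - y| with ht
  have ht0 : 0 ≤ t := abs_nonneg _
  set Nx := A * Real.cos x - P * Real.sin x with hNx
  set Ny := B * Real.cos y - Q * Real.sin y with hNy
  set Sx := Real.sin x + A with hSx
  set Sy := Real.sin y + B with hSy
  have hs := s0_pos
  have hds : 10 ^ 9 * del ^ 2 ≤ s0 := by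
    have h5 : 10 ^ 9 * del ^ 2 ≤ s0 ^ 2 := by
      rw [s0_sq]
      have := del_sq
      have := del_pos
      linarith
    have h6 : s0 ^ 2 ≤ s0 := by
      have := s0_le
      nlinarith
    linarith
  have hd2 : 0 ≤ del ^ 2 := sq_nonneg _
  have n1 : |Nx - Ny| ≤ 15 * s0 * t := by
    have e : Nx - Ny = (A - B) * Real.cos x + B * (Real.cos x - Real.cos y) +
        (-((P - Q) * Real.sin x)) + (-(Q * (Real.sin x - Real.sin y))) := by
      rw [hNx, hNy]; ring
    rw [e]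
    refine (abs_add_le _ _).trans ?_
    refine (add_le_add_left (abs_add_le _ _) _).trans ?_
    refine (add_le_add_left (add_le_add_left (abs_add_le _ _) _) _).trans ?_
    rw [abs_neg, abs_neg, abs_mul, abs_mul, abs_mul, abs_mul]
    calc |A - B| * |Real.cos x| + |B| * |Real.cos x - Real.cos y| + |P - Q| * |Real.sin x| +
          |Q| * |Real.sin x - Real.sin y|
        ≤ (10 ^ 8 * del ^ 2 * t) * 1 + (20000 * del ^ 2) * t + (14 * s0 * t) * 1 +
          (10 ^ 5 * del ^ 2) * t := by gcongr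
      _ ≤ 15 * s0 * t := by nlinarith
  have n2 : |Ny| ≤ s0 := by
    have h3 : |Ny| ≤ |B| * |Real.cos y| + |Q| * |Real.sin y| := by
      rw [hNy, ← abs_mul, ← abs_mul]
      have := abs_add_le (B * Real.cos y) (-(Q * Real.sin y))
      rwa [abs_neg, ← sub_eq_add_neg] at this
    refine h3.trans ?_
    calc |B| * |Real.cos y| + |Q| * |Real.sin y|
        ≤ (20000 * del ^ 2) * 1 + (10 ^ 5 * del ^ 2) * 1 := by gcongr
      _ ≤ s0 := by linarith
  have hdel2 : 20000 * del ^ 2 ≤ 0.001 := by unfold del; norm_num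
  have Sx1 : Sx ≤ 1.001 := by
    have := (abs_le.1 yx).2
    have := (abs_le.1 sx).2
    linarith
  have Sy1 : Sy ≤ 1.001 := by
    have := (abs_le.1 yy).2
    have := (abs_le.1 sy).2
    linarith
  have s1 : |Sy ^ 2 - Sx ^ 2| ≤ 3 * t := by
    have e : Sy ^ 2 - Sx ^ 2 = (Sx + Sy) * (-((Real.sin x - Real.sin y) + (A - B))) := by
      rw [hSx, hSy]; ring
    rw [e, abs_mul, abs_neg]
    have h7 : |Sx + Sy| ≤ 2.002 := by
      rw [abs_of_pos (by linarith)]; linarith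
    have h8 : |(Real.sin x - Real.sin y) + (A - B)| ≤ 1.001 * t := by
      refine (abs_add_le _ _).trans ?_
      have : 10 ^ 8 * del ^ 2 ≤ 0.001 := by unfold del; norm_num
      nlinarith
    calc |Sx + Sy| * |(Real.sin x - Real.sin y) + (A - B)| ≤ 2.002 * (1.001 * t) := by gcongr
      _ ≤ 3 * t := by nlinarith
  exact quot_lip hdx hdy Sx1 Sy1 n1 n2 s1 ht0

/-- Taylor bound on the interval `J` -/
lemma taylorJ {f f' : ℝ → ℝ} {L : ℝ} (hd : ∀ x ∈ J, HasDerivAt f (f' x) x)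
    (hl : ∀ x ∈ J, ∀ y ∈ J, |f' x - f' y| ≤ L * |x - y|) (hL : 0 ≤ L) {r x : ℝ} (hr : r ∈ J) (hx : x ∈ J) :
    |f x - f r - f' r * (x - r)| ≤ L * (x - r) ^ 2 := by
  have hsub : uIcc r x ⊆ J := by
    intro z hz
    have := uIcc_subset_Icc hr hx hz
    exact this
  have := Convex.norm_image_sub_le_of_norm_hasDerivWithin_le
    (f := fun z => f z - f' r * z) (f' := fun z => f' z - f' r) (C := L * |x - r|)
    (s := uIcc r x) (x := r) (y := x) (fun z hz => by
      have h2 : HasDerivAt (fun x => f' r * x) (f' r) z := by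
        simpa using (hasDerivAt_id z).const_mul (f' r)
      exact ((hd z (hsub hz)).sub h2).hasDerivWithinAt)
    (fun z hz => by
      have h1 := hl z (hsub hz) r hr
      rw [Real.norm_eq_abs]
      refine h1.trans ?_
      apply mul_le_mul_of_nonneg_left _ hL
      exact abs_sub_left_of_mem_uIcc hz) (convex_uIcc r x) left_mem_uIcc right_mem_uIcc
  rw [Real.norm_eq_abs, Real.norm_eq_abs] at this
  have e : f x - f r - f' r * (x - r) = f x - f' r * x - (f r - f' r * r) := by ring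
  rw [e]
  refine this.trans ?_
  rw [mul_assoc, abs_mul_abs_self, pow_two]

lemma EY_taylor (h : Bump φ φ') (hk : kap h = 0) {r x : ℝ} (hr : r ∈ J) (hx : x ∈ J) :
    |EY h x - EY h r - E1 h r * (x - r)| ≤ 1 / 10 ^ 20 * (x - r) ^ 2 :=
  taylorJ (fun z hz => EY_d h (by have := YY_den h hk hz; linarith))
    (fun z hz w hw => E1_lip h hk hz hw) (by norm_num) hr hx

/-- the value of `1/γ` at a point where everything vanishes to first order -/
lemma slope_gam {ys' : ℝ → ℝ} (h : Bump φ φ') (hA : Adm (dl φ) ys') {b r : ℝ} (hr : r ∈ J)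
    (h0 : φ r = 0) (h0' : φ' r = 0) (hb : |b| ≤ 1 / 10 ^ 3) (hE0 : hE ys' r = 1)
    (hEt : ∀ θ ∈ J, - (|b| * |θ - r|) - 1 / 10 ^ 3 * |θ - r| ^ 2 ≤ hE ys' θ - 1) :
    1 - 3 * b ^ 2 ≤ (gam (pp (dl φ) ys') r)⁻¹ ∧ (gam (pp (dl φ) ys') r)⁻¹ ≤ 1 := by
  have z1 : dl φ r = 0 := by unfold dl; rw [h0, mul_zero]
  have z2 : dl φ' r = 0 := by unfold dl; rw [h0', mul_zero]
  have hb2 : b ^ 2 ≤ 1 / 10 ^ 6 := by
    rw [← sq_abs]
    have := pow_le_pow_left₀ (abs_nonneg b) hb 2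
    norm_num at this ⊢
    exact this
  constructor
  · obtain ⟨θ, hθ, hs, e⟩ := near_max hA.cont hA.bd hr
    have hp := pp_le hθ (hA.by' _ hθ) (hA.bψ _ hθ)
    have hq := hEψ_pos hθ (hA.by' _ hθ) (hA.bψ _ hθ)
    have h1 := hEt θ hθ
    have h2 := (abs_le.1 (dl_taylor h r (θ - r))).1
    rw [z1, z2, show r + (θ - r) = θ by ring] at h2
    have h3 := cos_le_02 (abs_sub_J hθ hr)
    have hg : 0 < gam (pp (dl φ) ys') r := by
      have := abs_le.1 (hA.gam_near hr)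
      have := del_le
      linarith
    rw [e] at hg ⊢
    have hpos : 0 < 1 - 3 * b ^ 2 := by linarith
    rw [← inv_inv (1 - 3 * b ^ 2)]
    apply inv_anti₀ hg
    unfold pp
    rw [one_div_mul_eq_div, div_le_iff₀ (by linarith), inv_mul_eq_div, le_div_iff₀ hpos]
    set x := θ - r
    have hx2 : x ^ 2 = |x| ^ 2 := (sq_abs x).symm
    have hb2' : b ^ 2 = |b| ^ 2 := (sq_abs b).symm
    rw [hx2] at h2 h3
    rw [hb2'] at hb2 hpos ⊢
    set t := |x|
    set c := |b|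
    have ht0 : 0 ≤ t := abs_nonneg _
    have hc0 : 0 ≤ c := abs_nonneg _
    have hd1 := del_le
    have hd0 := del_pos
    have h4 : 1 - c * t - 0.002 * t ^ 2 ≤ hE ys' θ + dl φ θ := by
      have : del * t ^ 2 ≤ 0.001 * t ^ 2 := by
        apply mul_le_mul_of_nonneg_right _ (sq_nonneg _)
        exact hd1.trans (by norm_num)
      linarith
    refine le_trans ?_ h4
    calc Real.cos x * (1 - 3 * c ^ 2) ≤ (1 - 0.2 * t ^ 2) * (1 - 3 * c ^ 2) :=
          mul_le_mul_of_nonneg_right h3 hpos.le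
      _ ≤ 1 - c * t - 0.002 * t ^ 2 := by
          have h6 : 0.2 * t ^ 2 * (3 * c ^ 2) ≤ 0.001 * t ^ 2 := by
            have : 3 * c ^ 2 ≤ 0.005 := by linarith
            nlinarith [sq_nonneg t]
          nlinarith [sq_nonneg (2 * 0.19 * t - c), sq_nonneg t, sq_nonneg c]
  · have h1 := gam_ge hA.cont hr
    have h2 : pp (dl φ) ys' r = 1 := by
      unfold pp
      rw [hE0, z1]
      norm_num
    rw [h2] at h1
    exact inv_le_one_of_one_le₀ h1

lemma dl_neg_eq : (fun x => - dl φ x) = dl (fun x => - φ x) := by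
  funext x; unfold dl; ring

lemma slope_data (h : Bump φ φ') (hk : kap h = 0) {r : ℝ} (hr : r ∈ J)
    (h0 : φ r = 0) (h0' : φ' r = 0) (hY : EY h r = 0) :
    (1 - 3 * E1 h r ^ 2 ≤ (gam (pp (dl φ) (ys h)) r)⁻¹ ∧ (gam (pp (dl φ) (ys h)) r)⁻¹ ≤ 1) ∧
    (1 - 3 * E1 h r ^ 2 ≤ (gam (pp (fun x => - dl φ x) (ys h)) r)⁻¹ ∧
      (gam (pp (fun x => - dl φ x) (ys h)) r)⁻¹ ≤ 1) := by
  have hE0 : hE (ys h) r = 1 := by
    have := EY_eq h hk hr
    linarith
  have hEt : ∀ θ ∈ J, - (|E1 h r| * |θ - r|) - 1 / 10 ^ 3 * |θ - r| ^ 2 ≤ hE (ys h) θ - 1 := by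
    intro θ hθ
    have h1 := (abs_le.1 (EY_taylor h hk hr hθ)).1
    rw [hY, EY_eq h hk hθ] at h1
    have h2 : - (|E1 h r| * |θ - r|) ≤ E1 h r * (θ - r) := by
      rw [← abs_mul]; exact neg_abs_le _
    rw [sq_abs]
    have h3 : 1 / 10 ^ 20 * (θ - r) ^ 2 ≤ 1 / 10 ^ 3 * (θ - r) ^ 2 := by
      apply mul_le_mul_of_nonneg_right _ (sq_nonneg _)
      norm_num
    linarith
  have hb : |E1 h r| ≤ 1 / 10 ^ 3 := (E1_small h hk hr).trans (by norm_num)
  refine ⟨slope_gam h (ys_adm h) hr h0 h0' hb hE0 hEt, ?_⟩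
  have hneg := (ys_adm h).neg
  rw [dl_neg_eq] at hneg ⊢
  exact slope_gam h.neg hneg hr (by simp [h0]) (by simp [h0']) hb hE0 hEt

lemma gg_slope (h : Bump φ φ') (hk : kap h = 0) {r : ℝ} (hr : r ∈ J)
    (h0 : φ r = 0) (h0' : φ' r = 0) (hY : EY h r = 0) :
    |gg (dl φ) (ys h) r| ≤ 9 * E1 h r ^ 2 := by
  obtain ⟨⟨a1, a2⟩, b1, b2⟩ := slope_data h hk hr h0 h0' hY
  have hs : E1 h r ^ 2 ≤ 1 / 10 ^ 6 := by
    rw [← sq_abs]
    have := pow_le_pow_left₀ (abs_nonneg _) (E1_small h hk hr) 2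
    refine this.trans (by norm_num)
  unfold gg
  set A := (gam (pp (dl φ) (ys h)) r)⁻¹
  set B := (gam (pp (fun x => - dl φ x) (ys h)) r)⁻¹
  set c := E1 h r ^ 2
  have hc : 0 ≤ c := sq_nonneg _
  have k : 1 - 9 * c ≤ (1 - 3 * c) ^ 3 := by
    have : (1 - 3 * c) ^ 3 = 1 - 9 * c + c ^ 2 * (27 - 27 * c) := by ring
    rw [this]
    have : 0 ≤ c ^ 2 * (27 - 27 * c) := mul_nonneg (sq_nonneg _) (by linarith)
    linarith
  have q1 : (1 - 3 * c) ^ 3 ≤ A ^ 3 := pow_le_pow_left₀ (by linarith) a1 3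
  have q2 : (1 - 3 * c) ^ 3 ≤ B ^ 3 := pow_le_pow_left₀ (by linarith) b1 3
  have q3 : A ^ 3 ≤ 1 := pow_le_one₀ (by linarith) a2
  have q4 : B ^ 3 ≤ 1 := pow_le_one₀ (by linarith) b2
  rw [abs_le]
  constructor <;> linarith

lemma bump_al (h : Bump φ φ') : φ' al = 0 := by
  have := h.e1 al al_mem
  rw [sub_self] at this
  exact abs_nonpos_iff.1 this

lemma bump_be (h : Bump φ φ') : φ' be = 0 := by
  have := h.e2 be be_mem
  rw [sub_self] at this
  exact abs_nonpos_iff.1 this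

lemma refl_al : Real.pi / 2 - al = be := by unfold al be; ring
lemma refl_be : Real.pi / 2 - be = al := by unfold al be; ring

lemma YY_al (h : Bump φ φ') : YY h al = 0 := by
  unfold YY
  rw [refl_al, intervalIntegral.integral_same]

lemma YY_be (h : Bump φ φ') (hk : kap h = 0) : YY h be = 0 := by
  unfold YY
  rw [refl_be]
  exact hk

lemma EY_al (h : Bump φ φ') : EY h al = 0 := by
  unfold EY
  rw [YY_al, add_zero, div_self, sub_self]
  have := sin_ge al_mem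
  linarith

lemma EY_be (h : Bump φ φ') (hk : kap h = 0) : EY h be = 0 := by
  unfold EY
  rw [YY_be h hk, add_zero, div_self, sub_self]
  have := sin_ge be_mem
  linarith

/-- the slopes at the ends vanish -/
lemma slopes (h : Bump φ φ') (hk : kap h = 0) (ha : φ al = 0) (hb : φ be = 0) :
    E1 h al = 0 ∧ E1 h be = 0 := by
  have s1 := gg_slope h hk al_mem ha (bump_al h) (EY_al h)
  have s2 := gg_slope h hk be_mem hb (bump_be h) (EY_be h hk)
  have sa := sin_ge al_mem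
  have sb := sin_ge be_mem
  have sa1 := Real.sin_le_one al
  have sb1 := Real.sin_le_one be
  have e1 : E1 h al * Real.sin al = - (gg (dl φ) (ys h) be * Real.sin be) := by
    unfold E1 Gf
    rw [YY_al, refl_al, cl_of_mem be_mem]
    have : Real.sin al ≠ 0 := by linarith
    field_simp
    ring
  have e2 : E1 h be * Real.sin be = - (gg (dl φ) (ys h) al * Real.sin al) := by
    unfold E1 Gf
    rw [YY_be h hk, refl_be, cl_of_mem al_mem]
    have : Real.sin be ≠ 0 := by linarith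
    field_simp
    ring
  have m1 : |E1 h al| ≤ 50 * E1 h be ^ 2 := by
    have : |E1 h al| * Real.sin al = |gg (dl φ) (ys h) be| * Real.sin be := by
      have e := congrArg abs e1
      rwa [abs_mul, abs_neg, abs_mul, abs_of_pos (by linarith : 0 < Real.sin al),
        abs_of_pos (by linarith : 0 < Real.sin be)] at e
    have h3 := abs_nonneg (E1 h al)
    have h4 := abs_nonneg (gg (dl φ) (ys h) be)
    nlinarith
  have m2 : |E1 h be| ≤ 50 * E1 h al ^ 2 := by
    have : |E1 h be| * Real.sin be = |gg (dl φ) (ys h) al| * Real.sin al := by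
      have e := congrArg abs e2
      rwa [abs_mul, abs_neg, abs_mul, abs_of_pos (by linarith : 0 < Real.sin al),
        abs_of_pos (by linarith : 0 < Real.sin be)] at e
    have h3 := abs_nonneg (E1 h be)
    have h4 := abs_nonneg (gg (dl φ) (ys h) al)
    nlinarith
  have t1 := E1_small h hk al_mem
  have t2 := E1_small h hk be_mem
  rw [← sq_abs] at m1 m2
  set a := |E1 h al|
  set b := |E1 h be|
  have ha0 : 0 ≤ a := abs_nonneg _
  have hb0 : 0 ≤ b := abs_nonneg _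
  have m3 : a ≤ 0.01 * b := by nlinarith
  have m4 : b ≤ 0.01 * a := by nlinarith
  have ha' : a = 0 := by linarith
  have hb' : b = 0 := by linarith
  exact ⟨abs_eq_zero.1 ha', abs_eq_zero.1 hb'⟩

lemma gg_ends (h : Bump φ φ') (hk : kap h = 0) (ha : φ al = 0) (hb : φ be = 0) :
    gg (dl φ) (ys h) al = 0 ∧ gg (dl φ) (ys h) be = 0 := by
  have s1 := gg_slope h hk al_mem ha (bump_al h) (EY_al h)
  have s2 := gg_slope h hk be_mem hb (bump_be h) (EY_be h hk)
  obtain ⟨z1, z2⟩ := slopes h hk ha hb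
  rw [z1] at s1
  rw [z2] at s2
  constructor
  · exact abs_nonpos_iff.1 (by simpa using s1)
  · exact abs_nonpos_iff.1 (by simpa using s2)

/-! ### the global support function -/

lemma clamp_deriv {f f' : ℝ → ℝ} (hd : ∀ x ∈ J, HasDerivAt f (f' x) x) (ha : f' al = 0)
    (hb : f' be = 0) (x : ℝ) : HasDerivAt (fun x => f (cl x)) (f' (cl x)) x := by
  by_cases hx : al < x ∧ x < be
  · have hxJ : x ∈ J := ⟨hx.1.le, hx.2.le⟩
    rw [cl_of_mem hxJ]
    apply (hd x hxJ).congr_of_eventuallyEq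
    filter_upwards [Ioo_mem_nhds hx.1 hx.2] with y hy
    rw [cl_of_mem ⟨hy.1.le, hy.2.le⟩]
  · have h0 : f' (cl x) = 0 := by
      rw [not_and_or, not_lt, not_lt] at hx
      rcases hx with hx | hx
      · have : cl x = al := by
          unfold cl
          rw [max_eq_left]
          exact (min_le_left _ _).trans hx
        rw [this, ha]
      · have : cl x = be := by
          unfold cl
          rw [min_eq_right hx, max_eq_right al_lt_be.le]
        rw [this, hb]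
    have h1 := hd (cl x) (cl_mem x)
    rw [h0] at h1 ⊢
    rw [hasDerivAt_iff_isLittleO] at h1 ⊢
    have h2 : Filter.Tendsto cl (nhds x) (nhds (cl x)) := cl_cont.continuousAt
    have h3 := h1.comp_tendsto h2
    simp only [smul_zero, sub_zero] at h3 ⊢
    refine h3.trans_isBigO ?_
    apply Asymptotics.IsBigO.of_bound 1
    filter_upwards with y
    simp only [Function.comp, Real.norm_eq_abs, one_mul]
    exact cl_lip y x

noncomputable def ff (h : Bump φ φ') (s θ : ℝ) : ℝ := EY h θ + s * dl φ θ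
noncomputable def ff' (h : Bump φ φ') (s θ : ℝ) : ℝ := E1 h θ + s * dl φ' θ

noncomputable def hh (h : Bump φ φ') (θ : ℝ) : ℝ := 1 + ff h 1 (cl θ) + ff h (-1) (cl (Real.pi - θ))
noncomputable def hh' (h : Bump φ φ') (θ : ℝ) : ℝ := ff' h 1 (cl θ) - ff' h (-1) (cl (Real.pi - θ))

lemma ff_d (h : Bump φ φ') (hk : kap h = 0) (s : ℝ) {x : ℝ} (hx : x ∈ J) :
    HasDerivAt (ff h s) (ff' h s x) x := by
  have h1 := EY_d h (θ := x) (by have := YY_den h hk hx; linarith)
  have h2 : HasDerivAt (dl φ) (dl φ' x) x := by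
    unfold dl
    exact (h.d x).const_mul del
  exact h1.add (h2.const_mul s)

lemma ff_ends (h : Bump φ φ') (hk : kap h = 0) (ha : φ al = 0) (hb : φ be = 0) (s : ℝ) :
    ff h s al = 0 ∧ ff h s be = 0 ∧ ff' h s al = 0 ∧ ff' h s be = 0 := by
  obtain ⟨z1, z2⟩ := slopes h hk ha hb
  unfold ff ff'
  rw [EY_al, EY_be h hk, z1, z2]
  unfold dl
  rw [ha, hb, bump_al h, bump_be h]
  simp

lemma ff'_lip (h : Bump φ φ') (hk : kap h = 0) {s : ℝ} (hs : |s| ≤ 1) {x y : ℝ} (hx : x ∈ J)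
    (hy : y ∈ J) : |ff' h s x - ff' h s y| ≤ 1 / 10 ^ 4 * |x - y| := by
  have h1 := E1_lip h hk hx hy
  have h2 := h.lip' x y
  have e : ff' h s x - ff' h s y = (E1 h x - E1 h y) + s * (del * (φ' x - φ' y)) := by
    unfold ff' dl; ring
  rw [e]
  refine (abs_add_le _ _).trans ?_
  rw [abs_mul, abs_mul, abs_of_pos del_pos]
  have h3 := abs_nonneg (x - y)
  have hd := del_pos
  calc |E1 h x - E1 h y| + |s| * (del * |φ' x - φ' y|)
      ≤ 1 / 10 ^ 20 * |x - y| + 1 * (del * |x - y|) := by gcongr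
    _ = (1 / 10 ^ 20 + del) * |x - y| := by ring
    _ ≤ 1 / 10 ^ 4 * |x - y| := by
        gcongr
        unfold del; norm_num

lemma ff'_small (h : Bump φ φ') (hk : kap h = 0) {s : ℝ} (hs : |s| ≤ 1) {x : ℝ} (hx : x ∈ J) :
    |ff' h s x| ≤ 1 / 10 ^ 4 := by
  have h1 := E1_small h hk hx
  have h2 := h.b' x
  unfold ff' dl
  refine (abs_add_le _ _).trans ?_
  rw [abs_mul, abs_mul, abs_of_pos del_pos]
  have hd := del_pos
  calc |E1 h x| + |s| * (del * |φ' x|)
      ≤ 1 / 10 ^ 20 + 1 * (del * 1) := by gcongr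
    _ ≤ 1 / 10 ^ 4 := by unfold del; norm_num

lemma ff_small (h : Bump φ φ') (hk : kap h = 0) {s : ℝ} (hs : |s| ≤ 1) {x : ℝ} (hx : x ∈ J) :
    |ff h s x| ≤ 1 / 10 ^ 4 := by
  have h1 : |EY h x| ≤ 2 * 10 ^ 5 * del ^ 2 := by
    rw [EY_eq h hk hx]; exact EE_small h hx
  have h2 := h.b x
  unfold ff dl
  refine (abs_add_le _ _).trans ?_
  rw [abs_mul, abs_mul, abs_of_pos del_pos]
  have hd := del_pos
  calc |EY h x| + |s| * (del * |φ x|)
      ≤ 2 * 10 ^ 5 * del ^ 2 + 1 * (del * 1) := by gcongr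
    _ ≤ 1 / 10 ^ 4 := by unfold del; norm_num

section
variable (h : Bump φ φ') (hk : kap h = 0) (ha : φ al = 0) (hb : φ be = 0)
include hk

lemma hh'_small (x : ℝ) : |hh' h x| ≤ 1 / 10 ^ 3 := by
  unfold hh'
  have h1 := ff'_small h hk (s := 1) (by norm_num) (cl_mem x)
  have h2 := ff'_small h hk (s := -1) (by norm_num) (cl_mem (Real.pi - x))
  have h3 := abs_le.1 h1
  have h4 := abs_le.1 h2
  rw [abs_le]
  constructor <;> linarith

lemma hh_small (x : ℝ) : |hh h x - 1| ≤ 1 / 10 ^ 3 := by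
  unfold hh
  have h1 := ff_small h hk (s := 1) (by norm_num) (cl_mem x)
  have h2 := ff_small h hk (s := -1) (by norm_num) (cl_mem (Real.pi - x))
  have h3 := abs_le.1 h1
  have h4 := abs_le.1 h2
  rw [abs_le]
  constructor <;> linarith

lemma hh'_lip (x y : ℝ) : |hh' h x - hh' h y| ≤ 1 / 10 ^ 3 * |x - y| := by
  unfold hh'
  have h1 := ff'_lip h hk (s := 1) (by norm_num) (cl_mem x) (cl_mem y)
  have h2 := ff'_lip h hk (s := -1) (by norm_num) (cl_mem (Real.pi - x)) (cl_mem (Real.pi - y))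
  have c1 := cl_lip x y
  have c2 := cl_lip (Real.pi - x) (Real.pi - y)
  rw [show Real.pi - x - (Real.pi - y) = -(x - y) by ring, abs_neg] at c2
  have h3 := abs_le.1 h1
  have h4 := abs_le.1 h2
  rw [abs_le]
  constructor <;> linarith

include ha hb

lemma hh_d (x : ℝ) : HasDerivAt (hh h) (hh' h x) x := by
  unfold hh hh'
  obtain ⟨-, -, z1, z2⟩ := ff_ends h hk ha hb 1
  obtain ⟨-, -, z3, z4⟩ := ff_ends h hk ha hb (-1)
  have h1 := clamp_deriv (f := ff h 1) (f' := ff' h 1) (fun z hz => ff_d h hk 1 hz) z1 z2 x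
  have h2 := clamp_deriv (f := ff h (-1)) (f' := ff' h (-1)) (fun z hz => ff_d h hk (-1) hz) z3 z4
    (Real.pi - x)
  have h3 : HasDerivAt (fun x : ℝ => Real.pi - x) (-1) x := by
    simpa using (hasDerivAt_id x).const_sub Real.pi
  have h4 := h2.comp x h3
  have h5 := (h1.const_add 1).add h4
  exact h5.congr_deriv (by ring)

end

/-- support function inequality -/
lemma conv_ineq {H H' : ℝ → ℝ} (hd : ∀ x, HasDerivAt H (H' x) x)
    (hl : ∀ x y, |H' x - H' y| ≤ 1 / 10 ^ 3 * |x - y|) (hs : ∀ x, |H x - 1| ≤ 1 / 10 ^ 3)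
    (hs' : ∀ x, |H' x| ≤ 1 / 10 ^ 3) {θ ϕ : ℝ} (hx : |ϕ - θ| ≤ Real.pi) :
    H θ * Real.cos (ϕ - θ) + H' θ * Real.sin (ϕ - θ) ≤ H ϕ := by
  have ht : |H ϕ - H θ - H' θ * (ϕ - θ)| ≤ 1 / 10 ^ 3 * (ϕ - θ) ^ 2 := by
    have := Convex.norm_image_sub_le_of_norm_hasDerivWithin_le
      (f := fun z => H z - H' θ * z) (f' := fun z => H' z - H' θ) (C := 1 / 10 ^ 3 * |ϕ - θ|)
      (s := uIcc θ ϕ) (x := θ) (y := ϕ) (fun z hz => by
        have h2 : HasDerivAt (fun x => H' θ * x) (H' θ) z := by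
          simpa using (hasDerivAt_id z).const_mul (H' θ)
        exact ((hd z).sub h2).hasDerivWithinAt)
      (fun z hz => by
        have h1 := hl z θ
        rw [Real.norm_eq_abs]
        refine h1.trans ?_
        apply mul_le_mul_of_nonneg_left _ (by norm_num)
        exact abs_sub_left_of_mem_uIcc hz) (convex_uIcc θ ϕ) left_mem_uIcc right_mem_uIcc
    rw [Real.norm_eq_abs, Real.norm_eq_abs] at this
    have e : H ϕ - H θ - H' θ * (ϕ - θ) = H ϕ - H' θ * ϕ - (H θ - H' θ * θ) := by ring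
    rw [e]
    refine this.trans ?_
    rw [mul_assoc, abs_mul_abs_self, pow_two]
  have h1 := (abs_le.1 ht).1
  have h2 := cos_le_02 hx
  have h3 := abs_le.1 (hs θ)
  have h4 := hs' θ
  set x := ϕ - θ
  have h5 : |x - Real.sin x| ≤ x ^ 2 := by
    have key : ∀ y : ℝ, 0 ≤ y → y ≤ Real.pi → |y - Real.sin y| ≤ y ^ 2 := by
      intro y hy hyp
      rcases hy.eq_or_lt with rfl | hy0
      · simp
      have a1 := Real.sin_gt_sub_cube hy0
      have a2 := Real.sin_le hy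
      rw [abs_of_nonneg (by linarith)]
      have := pi_lt
      have : y ^ 3 / 6 ≤ y ^ 2 := by
        have e : y ^ 3 / 6 = y ^ 2 * (y / 6) := by ring
        rw [e]
        have : y / 6 ≤ 1 := by linarith
        nlinarith [sq_nonneg y]
      linarith
    rcases le_total 0 x with h | h
    · exact key x h ((le_abs_self x).trans hx)
    · have := key (-x) (by linarith) ((neg_le_abs x).trans hx)
      rw [Real.sin_neg] at this
      rw [show -x - -Real.sin x = -(x - Real.sin x) by ring, abs_neg, neg_sq] at this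
      exact this
  have h6 : |H' θ * (x - Real.sin x)| ≤ 1 / 10 ^ 3 * x ^ 2 := by
    rw [abs_mul]
    exact mul_le_mul h4 h5 (abs_nonneg _) (by norm_num)
  have h7 := (abs_le.1 h6).1
  have h8 : H θ * Real.cos x ≤ H θ * (1 - 0.2 * x ^ 2) :=
    mul_le_mul_of_nonneg_left h2 (by linarith)
  nlinarith [sq_nonneg x]

end Pool.Agent.Helper363
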