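import Pool.Agent.Helper363.Op

/-! The sign of the residual. -/

set_option autoImplicit false

namespace Pool.Agent.Helper363

open Set

variable {φ φ' : ℝ → ℝ}

lemma Bump.neg (h : Bump φ φ') : Bump (fun x => - φ x) (fun x => - φ' x) :=
  ⟨fun x => (h.d x).neg, fun x => by rw [abs_neg]; exact h.b x,
    fun x => by rw [abs_neg]; exact h.b' x,
    fun x y => by
      rw [show - φ' x - - φ' y = -(φ' x - φ' y) by ring, abs_neg]; exact h.lip' x y,
    fun x hx => by rw [abs_neg]; exact h.e1 x hx, fun x hx => by rw [abs_neg]; exact h.e2 x hx⟩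

lemma Gf_small (h : Bump φ φ') (r : ℝ) : |Gf (dl φ) (ys h) r| ≤ 10 ^ 5 * del ^ 2 := by
  have e : Gf (dl φ) (ys h) r = Gf (dl φ) (ys h) (cl r) := by
    unfold Gf
    rw [cl_of_mem (cl_mem r)]
  rw [e]
  have h1 := Gf_bound h (fx h).continuous (cl_mem r)
  refine h1.trans ?_
  have h2 := wt_le (cl r)
  have h3 : 0 ≤ del ^ 2 := sq_nonneg _
  nlinarith

lemma gg_small (h : Bump φ φ') {r : ℝ} (hr : r ∈ J) :
    |gg (dl φ) (ys h) r| ≤ 6 * 10 ^ 5 * del ^ 2 := by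
  have h1 := Gf_small h r
  have hs := sin_ge hr
  unfold Gf at h1
  rw [cl_of_mem hr, abs_mul, abs_of_pos (by linarith : 0 < Real.sin r)] at h1
  have h2 := abs_nonneg (gg (dl φ) (ys h) r)
  have h3 : 0 ≤ del ^ 2 := sq_nonneg _
  nlinarith

lemma len_J : be - al ≤ 1.2 := by
  have := pi_lt
  unfold be al
  linarith

lemma kap_small (h : Bump φ φ') : |kap h| ≤ 2 * 10 ^ 5 * del ^ 2 := by
  unfold kap
  have h1 : ‖∫ r in al..be, Gf (dl φ) (ys h) r‖ ≤ (10 ^ 5 * del ^ 2) * |be - al| := by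
    apply intervalIntegral.norm_integral_le_of_norm_le_const
    intro r _
    exact Gf_small h r
  rw [abs_of_pos (by linarith [al_lt_be] : 0 < be - al)] at h1
  rw [Real.norm_eq_abs] at h1
  have h2 := len_J
  have h3 : 0 ≤ del ^ 2 := sq_nonneg _
  nlinarith

lemma om_lip (x y : ℝ) : |om x - om y| ≤ 200 * |x - y| := by
  unfold om
  have h1 := abs_max_sub_max_le_max 0 (min 1 (200 * (x - Real.pi / 4))) 0
    (min 1 (200 * (y - Real.pi / 4)))
  have h2 := abs_min_sub_min_le_max 1 (200 * (x - Real.pi / 4)) 1 (200 * (y - Real.pi / 4))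
  simp only [sub_self, abs_zero] at h1 h2
  have h3 : |200 * (x - Real.pi / 4) - 200 * (y - Real.pi / 4)| = 200 * |x - y| := by
    rw [show 200 * (x - Real.pi / 4) - 200 * (y - Real.pi / 4) = 200 * (x - y) by ring, abs_mul]
    norm_num
  rw [h3] at h2
  have h4 : 0 ≤ 200 * |x - y| := by positivity
  exact h1.trans (max_le h4 (h2.trans (max_le h4 le_rfl)))

lemma ys_lip (h : Bump φ φ') {x y : ℝ} (hx : x ∈ J) (hy : y ∈ J) :
    |ys h x - ys h y| ≤ 10 ^ 8 * del ^ 2 * |x - y| := by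
  rw [ys_eq h hx, ys_eq h hy]
  unfold YG
  have hG := Gf_cont (ys_adm h)
  have e1 : (∫ r in (Real.pi / 2 - x)..be, Gf (dl φ) (ys h) r) -
      (∫ r in (Real.pi / 2 - y)..be, Gf (dl φ) (ys h) r) =
      ∫ r in (Real.pi / 2 - x)..(Real.pi / 2 - y), Gf (dl φ) (ys h) r := by
    rw [← intervalIntegral.integral_add_adjacent_intervals
      (hG.intervalIntegrable (Real.pi / 2 - x) (Real.pi / 2 - y))
      (hG.intervalIntegrable (Real.pi / 2 - y) be)]
    ring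
  have h1 : ‖∫ r in (Real.pi / 2 - x)..(Real.pi / 2 - y), Gf (dl φ) (ys h) r‖ ≤
      (10 ^ 5 * del ^ 2) * |(Real.pi / 2 - y) - (Real.pi / 2 - x)| := by
    apply intervalIntegral.norm_integral_le_of_norm_le_const
    intro r _
    exact Gf_small h r
  rw [show (Real.pi / 2 - y) - (Real.pi / 2 - x) = x - y by ring, Real.norm_eq_abs] at h1
  have h2 := kap_small h
  have h3 := om_lip x y
  have e2 : (∫ r in (Real.pi / 2 - x)..be, Gf (dl φ) (ys h) r) -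
      (∫ r in al..be, Gf (dl φ) (ys h) r) * om x -
      ((∫ r in (Real.pi / 2 - y)..be, Gf (dl φ) (ys h) r) -
      (∫ r in al..be, Gf (dl φ) (ys h) r) * om y) =
      (∫ r in (Real.pi / 2 - x)..(Real.pi / 2 - y), Gf (dl φ) (ys h) r) +
      (- (kap h)) * (om x - om y) := by
    rw [← e1]
    unfold kap
    ring
  rw [e2]
  have h5 := abs_nonneg (x - y)
  have h6 : 0 ≤ del ^ 2 := sq_nonneg _
  calc |(∫ r in (Real.pi / 2 - x)..(Real.pi / 2 - y), Gf (dl φ) (ys h) r) +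
      (- (kap h)) * (om x - om y)|
      ≤ |∫ r in (Real.pi / 2 - x)..(Real.pi / 2 - y), Gf (dl φ) (ys h) r| +
        |(- (kap h)) * (om x - om y)| := abs_add_le _ _
    _ ≤ (10 ^ 5 * del ^ 2) * |x - y| + (2 * 10 ^ 5 * del ^ 2) * (200 * |x - y|) := by
        apply add_le_add h1
        rw [abs_mul, abs_neg]
        exact mul_le_mul h2 h3 (abs_nonneg _) (by positivity)
    _ ≤ 10 ^ 8 * del ^ 2 * |x - y| := by
        nlinarith [mul_nonneg h6 h5]

/-- `E` -/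
noncomputable def EE (h : Bump φ φ') (θ : ℝ) : ℝ := hE (ys h) θ - 1

lemma EE_small (h : Bump φ φ') {x : ℝ} (hx : x ∈ J) : |EE h x| ≤ 2 * 10 ^ 5 * del ^ 2 := by
  unfold EE
  have hy := ys_bd h x
  have hd := den_ge hx (yof_le_del (fx h) x)
  have hd' : 0.197 < Real.sin x + ys h x := hd
  rw [hE_sub (y := ys h) hx (yof_le_del (fx h) x), abs_div, abs_neg, abs_of_pos (by linarith : 0 < Real.sin x + ys h x),
    div_le_iff₀ (by linarith)]
  have h6 : 0 ≤ del ^ 2 := sq_nonneg _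
  nlinarith

lemma EE_lip (h : Bump φ φ') {x y : ℝ} (hx : x ∈ J) (hy : y ∈ J) :
    |EE h x - EE h y| ≤ 10 ^ 10 * del ^ 2 * |x - y| := by
  unfold EE hE
  have hbx := ys_bd h x
  have hdx : 0.197 < Real.sin x + ys h x := den_ge hx (yof_le_del (fx h) x)
  have hdy : 0.197 < Real.sin y + ys h y := den_ge hy (yof_le_del (fx h) y)
  have e : Real.sin x / (Real.sin x + ys h x) - 1 - (Real.sin y / (Real.sin y + ys h y) - 1) =
      (Real.sin x * (ys h y - ys h x) + ys h x * (Real.sin x - Real.sin y)) /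
      ((Real.sin x + ys h x) * (Real.sin y + ys h y)) := by
    have : Real.sin x + ys h x ≠ 0 := by linarith
    have : Real.sin y + ys h y ≠ 0 := by linarith
    field_simp
    ring
  have hp : 0.0388 ≤ (Real.sin x + ys h x) * (Real.sin y + ys h y) := by nlinarith
  rw [e, abs_div, abs_of_pos (by linarith : 0 < (Real.sin x + ys h x) * (Real.sin y + ys h y)),
    div_le_iff₀ (by linarith)]
  have h1 := ys_lip h hx hy
  rw [abs_sub_comm] at h1
  have h2 : |Real.sin x - Real.sin y| ≤ |x - y| := Real.abs_sin_sub_sin_le x y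
  have h5 := abs_nonneg (x - y)
  have h6 : 0 ≤ del ^ 2 := sq_nonneg _
  have h7 := mul_nonneg h6 h5
  calc |Real.sin x * (ys h y - ys h x) + ys h x * (Real.sin x - Real.sin y)|
      ≤ |Real.sin x| * |ys h y - ys h x| + |ys h x| * |Real.sin x - Real.sin y| := by
        refine (abs_add_le _ _).trans ?_
        rw [abs_mul, abs_mul]
    _ ≤ 1 * (10 ^ 8 * del ^ 2 * |x - y|) + (20000 * del ^ 2) * |x - y| := by
        gcongr
        exact Real.abs_sin_le_one x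
    _ ≤ 10 ^ 10 * del ^ 2 * |x - y| * 0.0388 := by nlinarith
    _ ≤ 10 ^ 10 * del ^ 2 * |x - y| * ((Real.sin x + ys h x) * (Real.sin y + ys h y)) := by
        gcongr

lemma del_sq : del ^ 2 ≤ del / 10 ^ 50 := by
  unfold del
  norm_num

lemma dl_taylor (h : Bump φ φ') (r t : ℝ) :
    |dl φ (r + t) - dl φ r - dl φ' r * t| ≤ del * t ^ 2 := by
  have h1 := h.taylor r t
  unfold dl
  rw [show del * φ (r + t) - del * φ r - del * φ' r * t = del * (φ (r + t) - φ r - φ' r * t) by ring,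
    abs_mul, abs_of_pos del_pos]
  exact mul_le_mul_of_nonneg_left h1 del_pos.le

/-- upper bound for `1 / γ` -/
lemma inv_gam_le (h : Bump φ φ') {ys' : ℝ → ℝ} (hA : Adm (dl φ) ys') {E0 : ℝ} {r t : ℝ} (hr : r + t ∈ J)
    (ht : |t| ≤ del) (htφ : dl φ' r * t = - t ^ 2)
    (hEr : |E0| ≤ 2 * 10 ^ 5 * del ^ 2)
    (hEt : hE ys' (r + t) - 1 ≤ E0 + 10 ^ 10 * del ^ 2 * |t|) :
    0 < (gam (pp (dl φ) ys') r)⁻¹ ∧
    (gam (pp (dl φ) ys') r)⁻¹ ≤ 1 + E0 + dl φ r - t ^ 2 / 2 + 2 * 10 ^ 10 * del ^ 3 := by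
  have h1 := le_gam hA.cont r hr
  rw [show r + t - r = t by ring] at h1
  have hp := pp_le hr (hA.by' _ hr) (hA.bψ _ hr)
  have hd := del_pos
  have hd2 := del_le
  have ht2 : t ^ 2 ≤ del ^ 2 := by
    rw [← sq_abs]
    exact pow_le_pow_left₀ (abs_nonneg _) ht 2
  have hdd : del ^ 2 ≤ 1 / 10 ^ 6 := by nlinarith
  have hcos : 1 - t ^ 2 / 2 ≤ Real.cos t := Real.one_sub_sq_div_two_le_cos
  have hc0 : 0 < Real.cos t := by nlinarith
  have hpos : 0 < pp (dl φ) ys' (r + t) * Real.cos t := mul_pos (by linarith) hc0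
  have hg : 0 < gam (pp (dl φ) ys') r := hpos.trans_le h1
  refine ⟨inv_pos.2 hg, ?_⟩
  have h2 : (gam (pp (dl φ) ys') r)⁻¹ ≤ (pp (dl φ) ys' (r + t) * Real.cos t)⁻¹ :=
    inv_anti₀ hpos h1
  refine h2.trans ?_
  have hq := hEψ_pos hr (hA.by' _ hr) (hA.bψ _ hr)
  unfold pp
  rw [mul_inv, one_div, inv_inv]
  have h3 := (abs_le.1 (dl_taylor h r t)).2
  rw [htφ] at h3
  have h4 : hE ys' (r + t) + dl φ (r + t) ≤ 1 + E0 + dl φ r - t ^ 2 +
      (10 ^ 10 * del ^ 2 * |t| + del * t ^ 2) := by linarith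
  have h5 : 10 ^ 10 * del ^ 2 * |t| + del * t ^ 2 ≤ 10 ^ 10 * del ^ 3 + del ^ 3 := by
    have a1 : 10 ^ 10 * del ^ 2 * |t| ≤ 10 ^ 10 * del ^ 2 * del := by gcongr
    have a2 : del * t ^ 2 ≤ del * del ^ 2 := by gcongr
    calc _ ≤ 10 ^ 10 * del ^ 2 * del + del * del ^ 2 := add_le_add a1 a2
      _ = _ := by ring
  have h6 : (Real.cos t)⁻¹ ≤ 1 + t ^ 2 / 2 + t ^ 4 := by
    rw [inv_eq_one_div, div_le_iff₀ hc0]
    have : 0 ≤ t ^ 2 := sq_nonneg t
    have h7 : 1 ≤ (1 + t ^ 2 / 2 + t ^ 4) * (1 - t ^ 2 / 2) := by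
      have e : (1 + t ^ 2 / 2 + t ^ 4) * (1 - t ^ 2 / 2) = 1 + (t ^ 2) ^ 2 * (3 / 4 - t ^ 2 / 2) := by
        ring
      rw [e]
      have : 0 ≤ (t ^ 2) ^ 2 * (3 / 4 - t ^ 2 / 2) := mul_nonneg (sq_nonneg _) (by linarith)
      linarith
    exact h7.trans (mul_le_mul_of_nonneg_left hcos (by positivity))
  have hψr := abs_le.1 (dl_bd h r)
  have hE0 := abs_le.1 hEr
  have ht0 : 0 ≤ t ^ 2 := sq_nonneg t
  set a := dl φ r
  have hd3 : del ^ 3 ≤ del ^ 2 / 10 ^ 50 := by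
    have := del_sq
    nlinarith [sq_nonneg del]
  have hd3' : 0 < del ^ 3 := by positivity
  have hds := del_sq
  calc (hE ys' (r + t) + dl φ (r + t)) * (Real.cos t)⁻¹
      ≤ (1 + E0 + a - t ^ 2 + (10 ^ 10 * del ^ 3 + del ^ 3)) * (1 + t ^ 2 / 2 + t ^ 4) := by
        apply mul_le_mul (h4.trans (by linarith)) h6 (inv_pos.2 hc0).le
        nlinarith
    _ ≤ 1 + E0 + a - t ^ 2 / 2 + 2 * 10 ^ 10 * del ^ 3 := by
        have e : (1 + E0 + a - t ^ 2 + (10 ^ 10 * del ^ 3 + del ^ 3)) * (1 + t ^ 2 / 2 + t ^ 4) =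
          1 + E0 + a - t ^ 2 / 2 + (10 ^ 10 * del ^ 3 + del ^ 3) +
          t ^ 2 * ((E0 + a - t ^ 2 + (10 ^ 10 * del ^ 3 + del ^ 3)) / 2 +
            t ^ 2 * (1 + E0 + a - t ^ 2 + (10 ^ 10 * del ^ 3 + del ^ 3))) := by ring
        rw [e]
        have b1 : (E0 + a - t ^ 2 + (10 ^ 10 * del ^ 3 + del ^ 3)) / 2 +
            t ^ 2 * (1 + E0 + a - t ^ 2 + (10 ^ 10 * del ^ 3 + del ^ 3)) ≤ 10 * del := by
          have c1 : E0 + a - t ^ 2 + (10 ^ 10 * del ^ 3 + del ^ 3) ≤ 2 * del := by linarith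
          have c2 : t ^ 2 * (1 + E0 + a - t ^ 2 + (10 ^ 10 * del ^ 3 + del ^ 3)) ≤ del ^ 2 * 2 := by
            apply mul_le_mul ht2 (by linarith) _ (sq_nonneg _)
            nlinarith
          linarith
        have b2 : t ^ 2 * ((E0 + a - t ^ 2 + (10 ^ 10 * del ^ 3 + del ^ 3)) / 2 +
            t ^ 2 * (1 + E0 + a - t ^ 2 + (10 ^ 10 * del ^ 3 + del ^ 3))) ≤ del ^ 2 * (10 * del) := by
          calc _ ≤ t ^ 2 * (10 * del) := mul_le_mul_of_nonneg_left b1 ht0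
            _ ≤ _ := by gcongr
        have b3 : del ^ 2 * (10 * del) = 10 * del ^ 3 := by ring
        linarith

/-- `D ≤ 3ψ² - (3/2)ψ'² + error` -/
lemma D_le (h : Bump φ φ') {r : ℝ} (hr : r ∈ J) :
    gg (dl φ) (ys h) r - 3 * EE h r ≤
      3 * dl φ r ^ 2 - 3 / 2 * dl φ' r ^ 2 + 10 ^ 12 * del ^ 3 := by
  have hd := del_pos
  have hd1 : del ≤ 1 := del_le.trans (by norm_num)
  have hφ' : |dl φ' r| ≤ del := by
    unfold dl
    rw [abs_mul, abs_of_pos hd]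
    have := h.b' r
    nlinarith
  have hb1 : |dl φ' r| ≤ r - al := by
    unfold dl
    rw [abs_mul, abs_of_pos hd]
    have h1 := h.e1 r hr
    have h2 := abs_nonneg (φ' r)
    nlinarith
  have hb2 : |dl φ' r| ≤ be - r := by
    unfold dl
    rw [abs_mul, abs_of_pos hd]
    have h1 := h.e2 r hr
    have h2 := abs_nonneg (φ' r)
    nlinarith
  have hb1' := abs_le.1 hb1
  have hb2' := abs_le.1 hb2
  have m1 : r + (- dl φ' r) ∈ J := ⟨by linarith, by linarith⟩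
  have m2 : r + dl φ' r ∈ J := ⟨by linarith, by linarith⟩
  have hEs := EE_small h hr
  have k1 := inv_gam_le h (ys_adm h) (E0 := EE h r) m1 (by rwa [abs_neg]) (by ring) hEs (by
    have := (abs_le.1 (EE_lip h m1 hr)).2
    rw [show r + - dl φ' r - r = - dl φ' r by ring] at this
    unfold EE at this ⊢
    linarith)
  have k2 := inv_gam_le h.neg (ys' := ys h) (E0 := EE h r) (r := r) (t := dl φ' r)
    (by
      have := (ys_adm h).neg
      have e : (fun x => - dl φ x) = dl (fun x => - φ x) := by funext x; unfold dl; ring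
      rwa [e] at this) m2 hφ' (by unfold dl; ring) hEs (by
    have := (abs_le.1 (EE_lip h m2 hr)).2
    rw [show r + dl φ' r - r = dl φ' r by ring] at this
    unfold EE at this ⊢
    linarith)
  have e : (fun x => - dl φ x) = dl (fun x => - φ x) := by funext x; unfold dl; ring
  have e2 : dl (fun x => - φ x) r = - dl φ r := by unfold dl; ring
  rw [e2] at k2
  unfold gg
  rw [e]
  set A := (gam (pp (dl φ) (ys h)) r)⁻¹
  set B := (gam (pp (dl (fun x => - φ x)) (ys h)) r)⁻¹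
  set a := dl φ r
  set b := dl φ' r
  set E0 := EE h r
  have ha : |a| ≤ del := dl_bd h r
  have q1 : A ^ 3 ≤ (1 + E0 + a - (-b) ^ 2 / 2 + 2 * 10 ^ 10 * del ^ 3) ^ 3 :=
    pow_le_pow_left₀ k1.1.le k1.2 3
  have q2 : B ^ 3 ≤ (1 + E0 + -a - b ^ 2 / 2 + 2 * 10 ^ 10 * del ^ 3) ^ 3 :=
    pow_le_pow_left₀ k2.1.le k2.2 3
  have hb3 : b ^ 2 ≤ del ^ 2 := by
    rw [← sq_abs]
    exact pow_le_pow_left₀ (abs_nonneg _) hφ' 2
  have ha3 : a ^ 2 ≤ del ^ 2 := by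
    rw [← sq_abs]
    exact pow_le_pow_left₀ (abs_nonneg _) ha 2
  set w := E0 - b ^ 2 / 2 + 2 * 10 ^ 10 * del ^ 3 with hw
  have hd3 : del ^ 3 ≤ del ^ 2 / 10 ^ 50 := by
    have := del_sq
    nlinarith [sq_nonneg del]
  have hd3' : 0 < del ^ 3 := by positivity
  have hd2' : 0 < del ^ 2 := by positivity
  have hE0 := abs_le.1 hEs
  have hwb : |w| ≤ 3 * 10 ^ 5 * del ^ 2 := by
    rw [abs_le]
    constructor
    · linarith
    · linarith [sq_nonneg b]
  have hwb1 : |w| ≤ 1 := by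
    refine hwb.trans ?_
    have := del_sq
    linarith [del_le]
  have hwb2 : |w| ≤ del / 10 ^ 30 := by
    refine hwb.trans ?_
    have := del_sq
    linarith
  have hw2 : w ^ 2 ≤ del ^ 3 / 10 ^ 20 := by
    rw [← sq_abs, pow_two]
    calc |w| * |w| ≤ (3 * 10 ^ 5 * del ^ 2) * (del / 10 ^ 30) :=
          mul_le_mul hwb hwb2 (abs_nonneg _) (by positivity)
      _ = 3 / 10 ^ 25 * del ^ 3 := by ring
      _ ≤ _ := by linarith
  have hw3 : a ^ 2 * w ≤ del ^ 3 := by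
    calc a ^ 2 * w ≤ a ^ 2 * |w| := mul_le_mul_of_nonneg_left (le_abs_self _) (sq_nonneg _)
      _ ≤ del ^ 2 * (del / 10 ^ 30) := mul_le_mul ha3 hwb2 (abs_nonneg _) hd2'.le
      _ = del ^ 3 / 10 ^ 30 := by ring
      _ ≤ del ^ 3 := by linarith
  have hw4 : w ^ 3 ≤ del ^ 3 := by
    calc w ^ 3 = w ^ 2 * w := by ring
      _ ≤ w ^ 2 * 1 := mul_le_mul_of_nonneg_left ((le_abs_self _).trans hwb1) (sq_nonneg _)
      _ ≤ del ^ 3 := by linarith
  have e3 : ((1 + E0 + a - (-b) ^ 2 / 2 + 2 * 10 ^ 10 * del ^ 3) ^ 3 +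
      (1 + E0 + -a - b ^ 2 / 2 + 2 * 10 ^ 10 * del ^ 3) ^ 3) / 2 =
      1 + 3 * w + 3 * a ^ 2 + 3 * w ^ 2 + 3 * (a ^ 2 * w) + w ^ 3 := by
    rw [hw]; ring
  have e4 : 3 * w = 3 * E0 - 3 / 2 * b ^ 2 + 6 * 10 ^ 10 * del ^ 3 := by rw [hw]; ring
  linarith

/-- lower bound for `1 / γ` at a point where the bump vanishes to second order -/
lemma inv_gam_ge (h : Bump φ φ') {ys' : ℝ → ℝ} (hA : Adm (dl φ) ys') {E0 : ℝ} {r : ℝ} (hr : r ∈ J)
    (h0 : φ r = 0) (h0' : φ' r = 0)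
    (hEr : |E0| ≤ 2 * 10 ^ 5 * del ^ 2)
    (hEt : ∀ θ ∈ J, E0 - 10 ^ 10 * del ^ 2 * |θ - r| ≤ hE ys' θ - 1) :
    1 + E0 - del ^ 3 ≤ (gam (pp (dl φ) ys') r)⁻¹ := by
  obtain ⟨θ, hθ, hs, e⟩ := near_max hA.cont hA.bd hr
  have hp := pp_le hθ (hA.by' _ hθ) (hA.bψ _ hθ)
  have hq := hEψ_pos hθ (hA.by' _ hθ) (hA.bψ _ hθ)
  have h1 := hEt θ hθ
  have h2 := (abs_le.1 (dl_taylor h r (θ - r))).1
  have z1 : dl φ r = 0 := by unfold dl; rw [h0, mul_zero]
  have z2 : dl φ' r = 0 := by unfold dl; rw [h0', mul_zero]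
  rw [z1, z2, show r + (θ - r) = θ by ring] at h2
  have h3 := cos_le_02 (abs_sub_J hθ hr)
  have hg : 0 < gam (pp (dl φ) ys') r := by
    have := abs_le.1 (hA.gam_near hr)
    have := del_le
    linarith
  rw [e] at hg ⊢
  have hd := del_pos
  have hd1 : del ≤ 1 / 10 ^ 6 := del_le
  have hE0 := abs_le.1 hEr
  have hds := del_sq
  have hd3 : del ^ 3 ≤ del ^ 2 / 10 ^ 50 := by nlinarith [sq_nonneg del]
  have hd3' : 0 < del ^ 3 := by positivity
  have hpos : 0 < 1 + E0 - del ^ 3 := by linarith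
  rw [← inv_inv (1 + E0 - del ^ 3)]
  apply inv_anti₀ hg
  unfold pp
  rw [one_div_mul_eq_div, div_le_iff₀ (by linarith), inv_mul_eq_div, le_div_iff₀ hpos]
  set x := θ - r
  have hx2 : x ^ 2 = |x| ^ 2 := (sq_abs x).symm
  set t := |x|
  have ht0 : 0 ≤ t := abs_nonneg _
  have h4 : 1 + E0 - 10 ^ 10 * del ^ 2 * t - del * t ^ 2 ≤ hE ys' θ + dl φ θ := by
    rw [← hx2]
    linarith
  refine le_trans ?_ h4
  calc Real.cos x * (1 + E0 - del ^ 3) ≤ (1 - 0.2 * t ^ 2) * (1 + E0 - del ^ 3) := by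
        rw [← hx2]
        exact mul_le_mul_of_nonneg_right h3 hpos.le
    _ ≤ 1 + E0 - 10 ^ 10 * del ^ 2 * t - del * t ^ 2 := by
        have hL : (10 ^ 10 * del ^ 2) ^ 2 ≤ del ^ 3 / 10 ^ 20 := by
          have : (10 ^ 10 * del ^ 2) ^ 2 = 10 ^ 20 * del ^ 3 * del := by ring
          rw [this]
          have : del ≤ 1 / 10 ^ 50 := by unfold del; norm_num
          calc 10 ^ 20 * del ^ 3 * del ≤ 10 ^ 20 * del ^ 3 * (1 / 10 ^ 50) := by gcongr
            _ ≤ del ^ 3 / 10 ^ 20 := by linarith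
        set L := 10 ^ 10 * del ^ 2
        have h5 : L * t ≤ 10 * L ^ 2 + 0.1 * t ^ 2 := by nlinarith [sq_nonneg (L - 0.1 * t), sq_nonneg t, sq_nonneg L]
        have h6 : 0.19 * t ^ 2 ≤ 0.2 * t ^ 2 * (1 + E0 - del ^ 3) := by
          have : 0.95 ≤ 1 + E0 - del ^ 3 := by linarith
          nlinarith [sq_nonneg t]
        nlinarith [sq_nonneg t]

lemma D_ge (h : Bump φ φ') {r : ℝ} (hr : r ∈ J) (h0 : φ r = 0) (h0' : φ' r = 0) :
    - (10 ^ 12 * del ^ 3) ≤ gg (dl φ) (ys h) r - 3 * EE h r := by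
  have hEs := EE_small h hr
  have hl : ∀ θ ∈ J, EE h r - 10 ^ 10 * del ^ 2 * |θ - r| ≤ hE (ys h) θ - 1 := by
    intro θ hθ
    have := (abs_le.1 (EE_lip h hθ hr)).1
    unfold EE at this ⊢
    linarith
  have k1 := inv_gam_ge h (ys_adm h) (E0 := EE h r) hr h0 h0' hEs hl
  have e : (fun x => - dl φ x) = dl (fun x => - φ x) := by funext x; unfold dl; ring
  have k2 := inv_gam_ge h.neg (ys' := ys h) (E0 := EE h r) (r := r)
    (by
      have := (ys_adm h).neg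
      rwa [e] at this) hr (by simp [h0]) (by simp [h0']) hEs hl
  unfold gg
  rw [e]
  set A := (gam (pp (dl φ) (ys h)) r)⁻¹
  set B := (gam (pp (dl (fun x => - φ x)) (ys h)) r)⁻¹
  set E0 := EE h r
  have hd := del_pos
  have hE0 := abs_le.1 hEs
  have hds := del_sq
  have hdl := del_le
  have hd3 : del ^ 3 ≤ del ^ 2 / 10 ^ 50 := by nlinarith [sq_nonneg del]
  have hd3' : 0 < del ^ 3 := by positivity
  have hpos : 0 < 1 + E0 - del ^ 3 := by linarith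
  have q1 : (1 + E0 - del ^ 3) ^ 3 ≤ A ^ 3 := pow_le_pow_left₀ hpos.le k1 3
  have q2 : (1 + E0 - del ^ 3) ^ 3 ≤ B ^ 3 := pow_le_pow_left₀ hpos.le k2 3
  have q3 : 1 + 3 * (E0 - del ^ 3) ≤ (1 + E0 - del ^ 3) ^ 3 := by
    have : (1 + E0 - del ^ 3) ^ 3 = 1 + 3 * (E0 - del ^ 3) + (E0 - del ^ 3) ^ 2 * (3 + (E0 - del ^ 3)) := by
      ring
    rw [this]
    have : 0 ≤ (E0 - del ^ 3) ^ 2 * (3 + (E0 - del ^ 3)) := mul_nonneg (sq_nonneg _) (by linarith)
    linarith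
  linarith

end Pool.Agent.Helper363
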