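import Pool.Agent.Helper363.Sign

/-! The identity for `κ` and its sign. -/

set_option autoImplicit false

namespace Pool.Agent.Helper363

open Set

variable {φ φ' : ℝ → ℝ}

lemma sin3be : Real.cos (3 * be) = - Real.sin (3 * al) := by
  have : 3 * be = (3 * Real.pi / 2) - 3 * al := by unfold be al; ring
  rw [this, Real.cos_sub]
  have h1 : Real.cos (3 * Real.pi / 2) = 0 := by
    rw [show 3 * Real.pi / 2 = Real.pi / 2 + Real.pi by ring, Real.cos_add_pi, Real.cos_pi_div_two]
    simp
  have h2 : Real.sin (3 * Real.pi / 2) = -1 := by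
    rw [show 3 * Real.pi / 2 = Real.pi / 2 + Real.pi by ring, Real.sin_add_pi, Real.sin_pi_div_two]
  rw [h1, h2]
  ring

lemma cos3refl (r : ℝ) : Real.cos (3 * (Real.pi / 2 - r)) = - Real.sin (3 * r) := by
  have : 3 * (Real.pi / 2 - r) = (3 * Real.pi / 2) - 3 * r := by ring
  rw [this, Real.cos_sub]
  have h1 : Real.cos (3 * Real.pi / 2) = 0 := by
    rw [show 3 * Real.pi / 2 = Real.pi / 2 + Real.pi by ring, Real.cos_add_pi, Real.cos_pi_div_two]
    simp
  have h2 : Real.sin (3 * Real.pi / 2) = -1 := by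
    rw [show 3 * Real.pi / 2 = Real.pi / 2 + Real.pi by ring, Real.sin_add_pi, Real.sin_pi_div_two]
  rw [h1, h2]
  ring

/-- integration by parts -/
lemma int_F {G : ℝ → ℝ} (hG : Continuous G) :
    ∫ θ in al..be, (∫ r in (Real.pi / 2 - θ)..be, G r) * Real.sin (3 * θ) =
      ∫ r in al..be, G r * ((Real.sin (3 * al) - Real.sin (3 * r)) / 3) := by
  set F : ℝ → ℝ := fun θ => ∫ r in (Real.pi / 2 - θ)..be, G r with hF
  set v : ℝ → ℝ := fun θ => (-Real.cos (3 * θ) + Real.cos (3 * be)) / 3 with hv
  have hFd : ∀ θ, HasDerivAt F (G (Real.pi / 2 - θ)) θ := by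
    intro θ
    have h1 : HasDerivAt (fun b => ∫ r in be..b, G r) (G (Real.pi / 2 - θ)) (Real.pi / 2 - θ) :=
      intervalIntegral.integral_hasDerivAt_right (hG.intervalIntegrable _ _)
        (hG.stronglyMeasurableAtFilter _ _) hG.continuousAt
    have h2 : HasDerivAt (fun θ : ℝ => Real.pi / 2 - θ) (-1) θ := by
      simpa using (hasDerivAt_id θ).const_sub (Real.pi / 2)
    have h3 := (h1.comp θ h2).neg
    have e : F = fun θ => - ((fun b => ∫ r in be..b, G r) ∘ fun θ : ℝ => Real.pi / 2 - θ) θ := by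
      funext θ
      simp only [hF, Function.comp]
      rw [intervalIntegral.integral_symm]
    rw [e]
    exact h3.congr_deriv (by ring)
  have hvd : ∀ θ, HasDerivAt v (Real.sin (3 * θ)) θ := by
    intro θ
    have h1 : HasDerivAt (fun θ : ℝ => 3 * θ) 3 θ := by
      simpa using (hasDerivAt_id θ).const_mul (3 : ℝ)
    have h2 := ((h1.cos.neg).add_const (Real.cos (3 * be))).div_const 3
    exact h2.congr_deriv (by ring)
  have key := intervalIntegral.integral_mul_deriv_eq_deriv_mul (a := al) (b := be) (u := F) (v := v)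
    (u' := fun θ => G (Real.pi / 2 - θ)) (v' := fun θ => Real.sin (3 * θ))
    (fun x _ => hFd x) (fun x _ => hvd x)
    (Continuous.intervalIntegrable (by fun_prop) _ _)
    (Continuous.intervalIntegrable (by fun_prop) _ _)
  have e1 : v be = 0 := by simp [hv]
  have e2 : F al = 0 := by
    simp only [hF]
    have : Real.pi / 2 - al = be := by unfold al be; ring
    rw [this, intervalIntegral.integral_same]
  rw [e1, e2] at key
  have goal1 : ∫ θ in al..be, F θ * Real.sin (3 * θ) =
      - ∫ θ in al..be, G (Real.pi / 2 - θ) * v θ := by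
    rw [key]; ring
  rw [goal1]
  have h3 := intervalIntegral.integral_comp_sub_left (a := al) (b := be)
    (fun r => G r * v (Real.pi / 2 - r)) (Real.pi / 2)
  have e3 : Real.pi / 2 - be = al := by unfold al be; ring
  have e4 : Real.pi / 2 - al = be := by unfold al be; ring
  rw [e3, e4] at h3
  have h4 : ∀ θ : ℝ, G (Real.pi / 2 - θ) * v (Real.pi / 2 - (Real.pi / 2 - θ)) =
      G (Real.pi / 2 - θ) * v θ := by
    intro θ
    rw [show Real.pi / 2 - (Real.pi / 2 - θ) = θ by ring]
  simp only [h4] at h3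
  rw [h3, ← intervalIntegral.integral_neg]
  apply intervalIntegral.integral_congr
  intro r _
  simp only [hv]
  rw [cos3refl, sin3be]
  ring

/-- the constant multiplying `κ` -/
noncomputable def cK : ℝ := Real.sin (3 * al) - 3 * ∫ θ in al..be, om θ * Real.sin (3 * θ)

lemma int_sin3 (a b : ℝ) : ∫ θ in a..b, Real.sin (3 * θ) = (Real.cos (3 * a) - Real.cos (3 * b)) / 3 := by
  rw [intervalIntegral.integral_eq_sub_of_hasDerivAt
    (f := fun r => - (Real.cos (3 * r) / 3)) (f' := fun r => Real.sin (3 * r))]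
  · ring
  · intro x _
    have h1 : HasDerivAt (fun θ : ℝ => 3 * θ) 3 x := by
      simpa using (hasDerivAt_id x).const_mul (3 : ℝ)
    have h2 := (h1.cos.div_const 3).neg
    exact h2.congr_deriv (by ring)
  · apply Continuous.intervalIntegrable
    fun_prop

lemma sin3_nonneg {θ : ℝ} (h0 : 0 ≤ θ) (h : θ ≤ Real.pi / 3) : 0 ≤ Real.sin (3 * θ) :=
  Real.sin_nonneg_of_nonneg_of_le_pi (by linarith) (by linarith)

lemma sin3_nonpos {θ : ℝ} (h0 : Real.pi / 3 ≤ θ) (h : θ ≤ 2 * Real.pi / 3) : Real.sin (3 * θ) ≤ 0 := by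
  have : Real.sin (3 * θ) = - Real.sin (3 * θ - Real.pi) := by
    rw [Real.sin_sub_pi]; ring
  rw [this]
  have := Real.sin_nonneg_of_nonneg_of_le_pi (x := 3 * θ - Real.pi) (by linarith) (by linarith)
  linarith

lemma cK_pos : 0 < cK := by
  unfold cK
  have hpi := pi_gt
  have hpi2 := pi_lt
  have q1 : al ≤ Real.pi / 4 := by unfold al; linarith
  have q2 : Real.pi / 4 ≤ be := by unfold be; linarith
  have hc : Continuous (fun θ => om θ * Real.sin (3 * θ)) := by
    have := om_cont
    fun_prop
  have h1 : ∫ θ in al..be, om θ * Real.sin (3 * θ) ≤ (Real.cos (3 * (Real.pi / 4)) - Real.cos (3 * be)) / 3 := by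
    rw [← intervalIntegral.integral_add_adjacent_intervals (hc.intervalIntegrable al (Real.pi / 4))
      (hc.intervalIntegrable (Real.pi / 4) be), ← int_sin3]
    have z : ∫ θ in al..(Real.pi / 4), om θ * Real.sin (3 * θ) = 0 := by
      have : ∫ θ in al..(Real.pi / 4), om θ * Real.sin (3 * θ) = ∫ θ in al..(Real.pi / 4), (0 : ℝ) := by
        apply intervalIntegral.integral_congr
        intro r hr
        rw [uIcc_of_le q1] at hr
        simp only
        rw [om_low hr.2, zero_mul]
      rw [this, intervalIntegral.integral_zero]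
    rw [z, zero_add]
    apply intervalIntegral.integral_mono_on q2 (hc.intervalIntegrable _ _)
      (Continuous.intervalIntegrable (by fun_prop) _ _)
    intro θ hθ
    rcases le_total θ (Real.pi / 3) with h | h
    · have h3 := sin3_nonneg (by linarith [hθ.1] : 0 ≤ θ) h
      have := om_le θ
      nlinarith
    · rw [om_high (by linarith), one_mul]
  rw [sin3be] at h1
  have h2 : Real.cos (3 * (Real.pi / 4)) < 0 := by
    apply Real.cos_neg_of_pi_div_two_lt_of_lt <;> linarith
  linarith

/-- continuous version of `D` -/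
noncomputable def DD (h : Bump φ φ') (r : ℝ) : ℝ := gg (dl φ) (ys h) (cl r) - 3 * EE h (cl r)

lemma DD_cont (h : Bump φ φ') : Continuous (DD h) := by
  unfold DD
  have h1 : Continuous (fun r => gg (dl φ) (ys h) (cl r)) :=
    (gg_contOn (ys_adm h)).comp_continuous cl_cont cl_mem
  have h2 : Continuous (fun r => EE h (cl r)) := by
    unfold EE
    have := (hE_cont (ys_cont h) (ys_adm h).by').comp_continuous cl_cont cl_mem
    exact this.sub continuous_const
  exact h1.sub (continuous_const.mul h2)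

noncomputable def RR (h : Bump φ φ') (r : ℝ) : ℝ :=
  ys h r ^ 2 / (Real.sin (cl r) + ys h (cl r)) * Real.sin (3 * r)

lemma RR_cont (h : Bump φ φ') : Continuous (RR h) := by
  unfold RR
  have h1 := ys_cont h
  have h2 := cl_cont
  apply Continuous.mul _ (by fun_prop)
  apply Continuous.div (by fun_prop) (by fun_prop)
  intro r
  have := den_ge (cl_mem r) ((ys_adm h).by' _ (cl_mem r))
  linarith

/-- the identity `κ c = ∫ D sin r sin 3r + 3 ∫ y² sin 3r / (sin r + y)` -/
lemma kap_identity (h : Bump φ φ') :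
    kap h * cK = (∫ r in al..be, DD h r * (Real.sin r * Real.sin (3 * r))) +
      3 * ∫ r in al..be, RR h r := by
  have hGc := Gf_cont (ys_adm h)
  have hyc := ys_cont h
  have hDc := DD_cont h
  have hRc := RR_cont h
  have hom := om_cont
  have hFc : Continuous (fun θ => ∫ r in (Real.pi / 2 - θ)..be, Gf (dl φ) (ys h) r) := by
    have h2 : (fun θ => ∫ r in (Real.pi / 2 - θ)..be, Gf (dl φ) (ys h) r) =
        fun θ => - ∫ r in be..(Real.pi / 2 - θ), Gf (dl φ) (ys h) r := by
      funext θ
      rw [intervalIntegral.integral_symm]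
    rw [h2]
    apply Continuous.neg
    have h3 : Continuous (fun b => ∫ r in be..b, Gf (dl φ) (ys h) r) :=
      intervalIntegral.continuous_primitive (fun a b => hGc.intervalIntegrable a b) be
    exact h3.comp (by fun_prop)
  have i1 := int_F hGc
  -- y sin 3θ
  have i2 : ∫ θ in al..be, ys h θ * Real.sin (3 * θ) =
      (∫ θ in al..be, (∫ r in (Real.pi / 2 - θ)..be, Gf (dl φ) (ys h) r) * Real.sin (3 * θ)) -
      kap h * ∫ θ in al..be, om θ * Real.sin (3 * θ) := by
    have c1 : Continuous (fun θ => (∫ r in (Real.pi / 2 - θ)..be, Gf (dl φ) (ys h) r) *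
      Real.sin (3 * θ)) := hFc.mul (by fun_prop)
    have c2 : Continuous (fun θ => kap h * (om θ * Real.sin (3 * θ))) := by fun_prop
    rw [← intervalIntegral.integral_const_mul, ← intervalIntegral.integral_sub
      (c1.intervalIntegrable _ _) (c2.intervalIntegrable _ _)]
    apply intervalIntegral.integral_congr
    intro θ hθ
    rw [uIcc_of_le al_lt_be.le] at hθ
    simp only
    rw [ys_eq h hθ]
    unfold YG kap
    ring
  have i3 : ∫ r in al..be, DD h r * (Real.sin r * Real.sin (3 * r)) =
      (∫ r in al..be, Gf (dl φ) (ys h) r * Real.sin (3 * r)) +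
      3 * (∫ r in al..be, ys h r * Real.sin (3 * r)) - 3 * ∫ r in al..be, RR h r := by
    have c1 : Continuous (fun r => Gf (dl φ) (ys h) r * Real.sin (3 * r)) := by fun_prop
    have c2 : Continuous (fun r => 3 * (ys h r * Real.sin (3 * r))) := by fun_prop
    have c3 : Continuous (fun r => Gf (dl φ) (ys h) r * Real.sin (3 * r) +
      3 * (ys h r * Real.sin (3 * r))) := c1.add c2
    have c4 : Continuous (fun r => 3 * RR h r) := by fun_prop
    rw [← intervalIntegral.integral_const_mul, ← intervalIntegral.integral_const_mul,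
      ← intervalIntegral.integral_add (c1.intervalIntegrable _ _) (c2.intervalIntegrable _ _),
      ← intervalIntegral.integral_sub (c3.intervalIntegrable _ _) (c4.intervalIntegrable _ _)]
    apply intervalIntegral.integral_congr
    intro r hr
    rw [uIcc_of_le al_lt_be.le] at hr
    simp only
    unfold DD RR Gf EE hE
    rw [cl_of_mem hr]
    have hd := den_ge hr ((ys_adm h).by' r hr)
    have hd' : Real.sin r + ys h r ≠ 0 := by linarith
    field_simp
    ring
  have i4 : ∫ r in al..be, Gf (dl φ) (ys h) r * ((Real.sin (3 * al) - Real.sin (3 * r)) / 3) =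
      (kap h * Real.sin (3 * al) - ∫ r in al..be, Gf (dl φ) (ys h) r * Real.sin (3 * r)) / 3 := by
    unfold kap
    have c1 : Continuous (fun r => Gf (dl φ) (ys h) r * Real.sin (3 * al)) := by fun_prop
    have c2 : Continuous (fun r => Gf (dl φ) (ys h) r * Real.sin (3 * r)) := by fun_prop
    rw [← intervalIntegral.integral_mul_const, ← intervalIntegral.integral_sub
      (c1.intervalIntegrable _ _) (c2.intervalIntegrable _ _), ← intervalIntegral.integral_div]
    apply intervalIntegral.integral_congr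
    intro r _
    simp only
    ring
  rw [i1, i4] at i2
  rw [i3, i2]
  unfold cK
  ring

lemma RR_small (h : Bump φ φ') : |∫ r in al..be, RR h r| ≤ del ^ 3 := by
  have h1 : ‖∫ r in al..be, RR h r‖ ≤ (del ^ 3 / 10) * |be - al| := by
    apply intervalIntegral.norm_integral_le_of_norm_le_const
    intro r hr
    rw [uIoc_of_le al_lt_be.le] at hr
    have hrJ : r ∈ J := ⟨hr.1.le, hr.2⟩
    have hd := den_ge hrJ ((ys_adm h).by' r hrJ)
    unfold RR
    rw [cl_of_mem hrJ, Real.norm_eq_abs, abs_mul, abs_div, abs_of_pos (by linarith : 0 < Real.sin r + ys h r)]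
    have hy := ys_bd h r
    have hs := Real.abs_sin_le_one (3 * r)
    have hd0 := del_pos
    have hy2 : |ys h r ^ 2| ≤ (20000 * del ^ 2) ^ 2 := by
      rw [abs_pow]
      exact pow_le_pow_left₀ (abs_nonneg _) hy 2
    have hdd : del ≤ 1 / 10 ^ 50 := by unfold del; norm_num
    calc |ys h r ^ 2| / (Real.sin r + ys h r) * |Real.sin (3 * r)|
        ≤ (20000 * del ^ 2) ^ 2 / 0.197 * 1 := by gcongr
      _ = (20000 ^ 2 / 0.197 * del) * del ^ 3 := by ring
      _ ≤ (1 / 10) * del ^ 3 := by
          gcongr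
          norm_num
          linarith
      _ = del ^ 3 / 10 := by ring
  rw [abs_of_pos (by linarith [al_lt_be] : 0 < be - al), Real.norm_eq_abs] at h1
  have := len_J
  have hd0 : 0 < del ^ 3 := by have := del_pos; positivity
  nlinarith

lemma DDw_upper (h : Bump φ φ') (hs : ∀ r ∈ J, Real.pi / 3 < r → φ r = 0 ∧ φ' r = 0)
    (hI : (∫ r in al..be, (3 * φ r ^ 2 - 3 / 2 * φ' r ^ 2) * (Real.sin r * Real.sin (3 * r))) ≤
      -(1 / 10 ^ 7)) (hc' : Continuous φ') : kap h < 0 := by
  have hid := kap_identity h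
  have hR := (abs_le.1 (RR_small h)).2
  have hφc := h.cont
  have hDc := DD_cont h
  have h1 : ∫ r in al..be, DD h r * (Real.sin r * Real.sin (3 * r)) ≤
      ∫ r in al..be, (del ^ 2 * ((3 * φ r ^ 2 - 3 / 2 * φ' r ^ 2) * (Real.sin r * Real.sin (3 * r))) +
        10 ^ 12 * del ^ 3) := by
    apply intervalIntegral.integral_mono_on al_lt_be.le
    · exact Continuous.intervalIntegrable (by fun_prop) _ _
    · exact Continuous.intervalIntegrable (by fun_prop) _ _
    intro r hr
    have hrJ : r ∈ J := hr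
    unfold DD
    rw [cl_of_mem hrJ]
    have hsin := sin_ge hrJ
    have hsin1 := Real.sin_le_one r
    have h3a := Real.abs_sin_le_one (3 * r)
    have h3b := abs_le.1 h3a
    have hrp := J_pos hrJ
    have hrl := J_lt hrJ
    have hd3 : 0 < del ^ 3 := by have := del_pos; positivity
    rcases le_or_gt r (Real.pi / 3) with h3 | h3
    · have hw := sin3_nonneg hrp.le h3
      have hD := D_le h hrJ
      have hw' : 0 ≤ Real.sin r * Real.sin (3 * r) := mul_nonneg (by linarith) hw
      have hw1 : Real.sin r * Real.sin (3 * r) ≤ 1 := by nlinarith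
      calc (gg (dl φ) (ys h) r - 3 * EE h r) * (Real.sin r * Real.sin (3 * r))
          ≤ (3 * dl φ r ^ 2 - 3 / 2 * dl φ' r ^ 2 + 10 ^ 12 * del ^ 3) * (Real.sin r * Real.sin (3 * r)) := by
            gcongr
        _ = del ^ 2 * ((3 * φ r ^ 2 - 3 / 2 * φ' r ^ 2) * (Real.sin r * Real.sin (3 * r))) +
            10 ^ 12 * del ^ 3 * (Real.sin r * Real.sin (3 * r)) := by unfold dl; ring
        _ ≤ del ^ 2 * ((3 * φ r ^ 2 - 3 / 2 * φ' r ^ 2) * (Real.sin r * Real.sin (3 * r))) +
            10 ^ 12 * del ^ 3 * 1 := by gcongr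
        _ = _ := by ring
    · have hw := sin3_nonpos h3.le (by linarith : r ≤ 2 * Real.pi / 3)
      obtain ⟨z1, z2⟩ := hs r hrJ h3
      have hD := D_ge h hrJ z1 z2
      rw [z1, z2]
      have hw' : 0 ≤ Real.sin r * (- Real.sin (3 * r)) := mul_nonneg (by linarith) (by linarith)
      have hw1 : Real.sin r * (- Real.sin (3 * r)) ≤ 1 := by nlinarith
      set D := gg (dl φ) (ys h) r - 3 * EE h r
      set w := Real.sin r * (- Real.sin (3 * r)) with hwdef
      have e : D * (Real.sin r * Real.sin (3 * r)) = (-D) * w := by rw [hwdef]; ring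
      rw [e]
      have : (-D) * w ≤ (10 ^ 12 * del ^ 3) * w := by
        apply mul_le_mul_of_nonneg_right _ hw'
        linarith
      nlinarith
  rw [intervalIntegral.integral_add (Continuous.intervalIntegrable (by fun_prop) _ _)
    (Continuous.intervalIntegrable (by fun_prop) _ _), intervalIntegral.integral_const_mul,
    intervalIntegral.integral_const, smul_eq_mul] at h1
  have hl := len_J
  have hd := del_pos
  have hd3 : 0 < del ^ 3 := by positivity
  have hd2 : 0 < del ^ 2 := by positivity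
  have h2 : (be - al) * (10 ^ 12 * del ^ 3) ≤ 1.2 * (10 ^ 12 * del ^ 3) := by gcongr
  have h3 : del ^ 2 * (∫ r in al..be, (3 * φ r ^ 2 - 3 / 2 * φ' r ^ 2) * (Real.sin r * Real.sin (3 * r))) ≤
      del ^ 2 * (-(1 / 10 ^ 7)) := mul_le_mul_of_nonneg_left hI hd2.le
  have h4 : 10 ^ 13 * del ^ 3 < del ^ 2 / 10 ^ 7 := by
    have : del < 1 / 10 ^ 50 := by unfold del; norm_num
    have e : 10 ^ 13 * del ^ 3 = del ^ 2 * (10 ^ 13 * del) := by ring
    rw [e, div_eq_mul_inv]
    apply mul_lt_mul_of_pos_left _ hd2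
    norm_num at this ⊢
    linarith
  have h5 : kap h * cK < 0 := by
    rw [hid]
    linarith
  by_contra hcon
  push Not at hcon
  have := mul_nonneg hcon cK_pos.le
  linarith

lemma DDw_lower (h : Bump φ φ') (hs : ∀ r ∈ J, r < Real.pi / 3 → φ r = 0 ∧ φ' r = 0)
    (hI : 1 / 10 ^ 7 ≤
      (∫ r in al..be, (3 * φ r ^ 2 - 3 / 2 * φ' r ^ 2) * (Real.sin r * Real.sin (3 * r))))
    (hc' : Continuous φ') : 0 < kap h := by
  have hid := kap_identity h
  have hR := (abs_le.1 (RR_small h)).1
  have hφc := h.cont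
  have hDc := DD_cont h
  have h1 : ∫ r in al..be, (del ^ 2 * ((3 * φ r ^ 2 - 3 / 2 * φ' r ^ 2) * (Real.sin r * Real.sin (3 * r))) -
        10 ^ 12 * del ^ 3) ≤ ∫ r in al..be, DD h r * (Real.sin r * Real.sin (3 * r)) := by
    apply intervalIntegral.integral_mono_on al_lt_be.le
    · exact Continuous.intervalIntegrable (by fun_prop) _ _
    · exact Continuous.intervalIntegrable (by fun_prop) _ _
    intro r hr
    have hrJ : r ∈ J := hr
    unfold DD
    rw [cl_of_mem hrJ]
    have hsin := sin_ge hrJ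
    have hsin1 := Real.sin_le_one r
    have h3a := Real.abs_sin_le_one (3 * r)
    have h3b := abs_le.1 h3a
    have hrp := J_pos hrJ
    have hrl := J_lt hrJ
    have hd3 : 0 < del ^ 3 := by have := del_pos; positivity
    rcases lt_or_ge r (Real.pi / 3) with h3 | h3
    · have hw := sin3_nonneg hrp.le h3.le
      obtain ⟨z1, z2⟩ := hs r hrJ h3
      have hD := D_ge h hrJ z1 z2
      rw [z1, z2]
      have hw' : 0 ≤ Real.sin r * Real.sin (3 * r) := mul_nonneg (by linarith) hw
      have hw1 : Real.sin r * Real.sin (3 * r) ≤ 1 := by nlinarith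
      have : (-(10 ^ 12 * del ^ 3)) * (Real.sin r * Real.sin (3 * r)) ≤
          (gg (dl φ) (ys h) r - 3 * EE h r) * (Real.sin r * Real.sin (3 * r)) :=
        mul_le_mul_of_nonneg_right hD hw'
      nlinarith
    · have hw := sin3_nonpos h3 (by linarith : r ≤ 2 * Real.pi / 3)
      have hD := D_le h hrJ
      have hw' : 0 ≤ Real.sin r * (- Real.sin (3 * r)) := mul_nonneg (by linarith) (by linarith)
      have hw1 : Real.sin r * (- Real.sin (3 * r)) ≤ 1 := by nlinarith
      set D := gg (dl φ) (ys h) r - 3 * EE h r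
      set w := Real.sin r * (- Real.sin (3 * r)) with hwdef
      have e : D * (Real.sin r * Real.sin (3 * r)) = - (D * w) := by rw [hwdef]; ring
      rw [e]
      have h4 : D * w ≤ (3 * dl φ r ^ 2 - 3 / 2 * dl φ' r ^ 2 + 10 ^ 12 * del ^ 3) * w :=
        mul_le_mul_of_nonneg_right hD hw'
      have h5 : (3 * dl φ r ^ 2 - 3 / 2 * dl φ' r ^ 2 + 10 ^ 12 * del ^ 3) * w =
          - (del ^ 2 * ((3 * φ r ^ 2 - 3 / 2 * φ' r ^ 2) * (Real.sin r * Real.sin (3 * r)))) +
            10 ^ 12 * del ^ 3 * w := by rw [hwdef]; unfold dl; ring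
      have h6 : 10 ^ 12 * del ^ 3 * w ≤ 10 ^ 12 * del ^ 3 * 1 := by gcongr
      linarith
  rw [intervalIntegral.integral_sub (Continuous.intervalIntegrable (by fun_prop) _ _)
    (Continuous.intervalIntegrable (by fun_prop) _ _), intervalIntegral.integral_const_mul,
    intervalIntegral.integral_const, smul_eq_mul] at h1
  have hl := len_J
  have hd := del_pos
  have hd3 : 0 < del ^ 3 := by positivity
  have hd2 : 0 < del ^ 2 := by positivity
  have h2 : (be - al) * (10 ^ 12 * del ^ 3) ≤ 1.2 * (10 ^ 12 * del ^ 3) := by gcongr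
  have h3 : del ^ 2 * (1 / 10 ^ 7) ≤
      del ^ 2 * (∫ r in al..be, (3 * φ r ^ 2 - 3 / 2 * φ' r ^ 2) * (Real.sin r * Real.sin (3 * r))) :=
    mul_le_mul_of_nonneg_left hI hd2.le
  have h4 : 10 ^ 13 * del ^ 3 < del ^ 2 / 10 ^ 7 := by
    have : del < 1 / 10 ^ 50 := by unfold del; norm_num
    have e : 10 ^ 13 * del ^ 3 = del ^ 2 * (10 ^ 13 * del) := by ring
    rw [e, div_eq_mul_inv]
    apply mul_lt_mul_of_pos_left _ hd2
    norm_num at this ⊢
    linarith
  have h5 : 0 < kap h * cK := by
    rw [hid]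
    linarith
  by_contra hcon
  push Not at hcon
  have := mul_nonpos_of_nonpos_of_nonneg hcon cK_pos.le
  linarith

end Pool.Agent.Helper363
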